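import Pool.Agent.Work.MP_308fa9_nt.DQ.Defs

set_option autoImplicit false

/-!
The double covers `y² = f(t)` of a fixed curve `w² = q(t)`: definitions of the statement.
-/

namespace Stoll308.FQ

open Polynomial Stoll308.BF

/-- The smooth projective curve with the affine equation `w² = q(t)` (`q` of even degree) has a
point over the field `K`: an affine one, or one of the two points at infinity, which are defined
over `K` if and only if the leading coefficient of `q` is a square in `K`. -/
def BasePoint {m : ℕ} (b : Fin (m + 1) → ℤ) (K : Type*) [Field K] : Prop :=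
  (∃ t w : K, w ^ 2 = (GZ K b).eval t) ∨ IsSquare (b 0 : K)

/-- The curve `w² = q(t)` has points over all completions of `ℚ`. -/
def BaseELS {m : ℕ} (b : Fin (m + 1) → ℤ) : Prop :=
  (∀ (p : ℕ) [Fact p.Prime], BasePoint b ℚ_[p]) ∧ BasePoint b ℝ

end Stoll308.FQ
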