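import Pool.Agent.Work.MP_308fa9_nt.FQ.Basic
import Pool.Agent.Work.MP_308fa9_nt.BF.ElsA
import Pool.Agent.Work.MP_308fa9_nt.DQ.ElsC

set_option autoImplicit false

/-!
The change of variables `t ↦ (p t + q) / (r t + s)`.
-/

namespace Stoll308.FQ

open Polynomial Finset BF

/-- The coefficients of the form `F(p X + q Z, r X + s Z)`. -/
noncomputable def act {n : ℕ} (p q r s : ℤ) (a : Fin (n + 1) → ℤ) : Fin (n + 1) → ℤ :=
  fun j => (∑ i : Fin (n + 1), C (a i) * (C p * X + C q) ^ (n - (i : ℕ)) *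
    (C r * X + C s) ^ (i : ℕ)).coeff (n - (j : ℕ))

namespace ActAux

/-- One term of the transformed polynomial. -/
noncomputable def tm (n : ℕ) (p q r s : ℤ) (i : ℕ) : ℤ[X] :=
  (C p * X + C q) ^ (n - i) * (C r * X + C s) ^ i

lemma lin_coeff {R : Type*} [CommRing R] (u v : R) : (C u * X + C v : R[X]).coeff 1 = u := by
  rw [coeff_add, coeff_C_mul, coeff_X_one, mul_one, coeff_C, if_neg one_ne_zero, add_zero]

lemma tm_coeff {n : ℕ} (p q r s : ℤ) {i : ℕ} (hi : i ≤ n) :
    (tm n p q r s i).coeff n = p ^ (n - i) * r ^ i := by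
  have h1 : ((C p * X + C q : ℤ[X]) ^ (n - i)).natDegree ≤ n - i := by
    have := natDegree_pow_le_of_le (n - i) (natDegree_linear_le (a := p) (b := q))
    rwa [mul_one] at this
  have h2 : ((C r * X + C s : ℤ[X]) ^ i).natDegree ≤ i := by
    have := natDegree_pow_le_of_le i (natDegree_linear_le (a := r) (b := s))
    rwa [mul_one] at this
  have h3 := coeff_mul_add_eq_of_natDegree_le h1 h2
  rw [Nat.sub_add_cancel hi] at h3
  have h4 : ((C p * X + C q : ℤ[X]) ^ (n - i)).coeff (n - i) = p ^ (n - i) := by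
    have := coeff_pow_of_natDegree_le (m := n - i) (natDegree_linear_le (a := p) (b := q))
    rw [mul_one] at this
    rw [this, lin_coeff]
  have h5 : ((C r * X + C s : ℤ[X]) ^ i).coeff i = r ^ i := by
    have := coeff_pow_of_natDegree_le (m := i) (natDegree_linear_le (a := r) (b := s))
    rw [mul_one] at this
    rw [this, lin_coeff]
  rw [tm, h3, h4, h5]

lemma tm_deg {n : ℕ} (p q r s : ℤ) {i : ℕ} (hi : i ≤ n) : (tm n p q r s i).natDegree ≤ n := by
  have h1 : ((C p * X + C q : ℤ[X]) ^ (n - i)).natDegree ≤ n - i := by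
    have := natDegree_pow_le_of_le (n - i) (natDegree_linear_le (a := p) (b := q))
    rwa [mul_one] at this
  have h2 : ((C r * X + C s : ℤ[X]) ^ i).natDegree ≤ i := by
    have := natDegree_pow_le_of_le i (natDegree_linear_le (a := r) (b := s))
    rwa [mul_one] at this
  have h3 := natDegree_mul_le_of_le h1 h2
  rwa [Nat.sub_add_cancel hi] at h3

/-- The transformed polynomial. -/
noncomputable def AP {n : ℕ} (p q r s : ℤ) (a : Fin (n + 1) → ℤ) : ℤ[X] :=
  ∑ i : Fin (n + 1), C (a i) * tm n p q r s i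

lemma act_eq {n : ℕ} (p q r s : ℤ) (a : Fin (n + 1) → ℤ) (j : Fin (n + 1)) :
    act p q r s a j = (AP p q r s a).coeff (n - (j : ℕ)) := by
  unfold act AP tm
  congr 1
  exact sum_congr rfl fun i _ => mul_assoc _ _ _

lemma act_sum {n : ℕ} (p q r s : ℤ) (a : Fin (n + 1) → ℤ) (j : Fin (n + 1)) :
    act p q r s a j = ∑ i : Fin (n + 1), a i * (tm n p q r s i).coeff (n - (j : ℕ)) := by
  rw [act_eq, AP, finsetSum_coeff]
  exact sum_congr rfl fun i _ => coeff_C_mul _

lemma AP_deg {n : ℕ} (p q r s : ℤ) (a : Fin (n + 1) → ℤ) : (AP p q r s a).natDegree ≤ n := by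
  unfold AP
  refine natDegree_sum_le_of_forall_le _ _ (fun i _ => ?_)
  exact (natDegree_C_mul_le _ _).trans (tm_deg p q r s (by have := i.isLt; omega))

lemma GZ_act {n : ℕ} (p q r s : ℤ) (a : Fin (n + 1) → ℤ) :
    GZ ℤ (act p q r s a) = AP p q r s a := by
  ext k
  by_cases hk : k ≤ n
  · rw [BF.Els.gz_coeff _ hk, Int.cast_id, act_eq]
    congr 1
    simp only
    omega
  · rw [BF.Els.gz_coeff_gt _ (by omega)]
    exact (coeff_eq_zero_of_natDegree_lt (lt_of_le_of_lt (AP_deg p q r s a) (by omega))).symm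

lemma GZ_map {R : Type*} [CommRing R] {n : ℕ} (a : Fin (n + 1) → ℤ) :
    (GZ ℤ a).map (Int.castRingHom R) = GZ R a := by
  simp [gpol, Polynomial.map_sum]

lemma GZ_inj {n : ℕ} {a b : Fin (n + 1) → ℤ} (h : GZ ℚ a = GZ ℚ b) : a = b := by
  funext i
  have h1 : (GZ ℚ a).coeff (n - (i : ℕ)) = (GZ ℚ b).coeff (n - (i : ℕ)) := by rw [h]
  rw [BF.Els.gz_coeff _ (Nat.sub_le _ _), BF.Els.gz_coeff _ (Nat.sub_le _ _)] at h1
  have e : (⟨n - (n - (i : ℕ)), by omega⟩ : Fin (n + 1)) = i := by
    apply Fin.ext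
    have := i.isLt
    show n - (n - (i : ℕ)) = i
    omega
  rw [e] at h1
  exact_mod_cast h1

/-- Homogeneous values. -/
lemma hom_eval {K : Type*} [Field K] {n : ℕ} (a : Fin (n + 1) → ℤ) (x z : K) (hz : z ≠ 0) :
    ∑ i : Fin (n + 1), (a i : K) * x ^ (n - (i : ℕ)) * z ^ (i : ℕ) =
      z ^ n * (GZ K a).eval (x / z) := by
  rw [BF.Els.gz_eval, mul_sum]
  refine sum_congr rfl fun i _ => ?_
  have hi : (i : ℕ) + (n - (i : ℕ)) = n := by have := i.isLt; omega
  have hz' : z ^ n = z ^ (i : ℕ) * z ^ (n - (i : ℕ)) := by rw [← pow_add, hi]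
  rw [div_pow, hz']
  field_simp

lemma hom_zero {K : Type*} [Field K] {n : ℕ} (a : Fin (n + 1) → ℤ) (x : K) :
    ∑ i : Fin (n + 1), (a i : K) * x ^ (n - (i : ℕ)) * (0 : K) ^ (i : ℕ) = (a 0 : K) * x ^ n := by
  rw [sum_eq_single (0 : Fin (n + 1))]
  · simp
  · intro i _ hi
    have : (i : ℕ) ≠ 0 := fun h => hi (Fin.ext h)
    rw [zero_pow this, mul_zero]
  · intro h
    exact absurd (mem_univ _) h

end ActAux

open ActAux

theorem act_zero {n : ℕ} (p q r s : ℤ) (a : Fin (n + 1) → ℤ) :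
    act p q r s a 0 = ∑ i : Fin (n + 1), a i * p ^ (n - (i : ℕ)) * r ^ (i : ℕ) := by
  rw [act_sum]
  refine sum_congr rfl fun i _ => ?_
  have hi : (i : ℕ) ≤ n := by have := i.isLt; omega
  rw [Fin.val_zero, Nat.sub_zero, tm_coeff p q r s hi, mul_assoc]

theorem act_last {n : ℕ} (p q r s : ℤ) (a : Fin (n + 1) → ℤ) :
    act p q r s a (Fin.last n) = ∑ i : Fin (n + 1), a i * q ^ (n - (i : ℕ)) * s ^ (i : ℕ) := by
  rw [act_sum]
  refine sum_congr rfl fun i _ => ?_
  rw [Fin.val_last, Nat.sub_self, coeff_zero_eq_eval_zero, tm]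
  simp [mul_assoc]

/-- The value of the transformed polynomial. -/
theorem act_eval {n : ℕ} (p q r s : ℤ) (a : Fin (n + 1) → ℤ) {K : Type*} [Field K] (t : K) :
    (GZ K (act p q r s a)).eval t =
      ∑ i : Fin (n + 1), (a i : K) * (p * t + q) ^ (n - (i : ℕ)) * (r * t + s) ^ (i : ℕ) := by
  rw [← GZ_map, GZ_act, AP, Polynomial.map_sum, eval_finsetSum]
  refine sum_congr rfl fun i _ => ?_
  simp [tm, mul_assoc]

theorem act_inv {n : ℕ} (p q r s : ℤ) (h : p * s - q * r = 1) (a : Fin (n + 1) → ℤ) :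
    act s (-q) (-r) p (act p q r s a) = a := by
  apply GZ_inj
  have hQ : (p : ℚ) * s - q * r = 1 := by exact_mod_cast h
  apply Polynomial.eq_of_infinite_eval_eq
  refine Set.Infinite.mono (s := {t : ℚ | -(r : ℚ) * t + p ≠ 0}) ?_ ?_
  · intro t ht
    have ht' : (-(r : ℚ)) * t + p ≠ 0 := ht
    show (GZ ℚ (act s (-q) (-r) p (act p q r s a))).eval t = (GZ ℚ a).eval t
    rw [act_eval]
    push_cast
    rw [hom_eval _ _ _ ht', act_eval]
    by_cases hr : (r : ℚ) * ((s * t + -q) / (-r * t + p)) + s = 0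
    · exfalso
      rw [mul_div_assoc', div_add' _ _ _ ht', div_eq_zero_iff] at hr
      rcases hr with hr | hr
      · have : (1 : ℚ) = 0 := by linear_combination hr - hQ
        exact one_ne_zero this
      · exact ht' hr
    · rw [hom_eval _ _ _ hr]
      have e1 : (r : ℚ) * ((s * t + -q) / (-r * t + p)) + s = 1 / (-r * t + p) := by
        rw [mul_div_assoc', div_add' _ _ _ ht']
        congr 1
        linear_combination hQ
      have e2 : (p : ℚ) * ((s * t + -q) / (-r * t + p)) + q = t / (-r * t + p) := by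
        rw [mul_div_assoc', div_add' _ _ _ ht']
        congr 1
        linear_combination t * hQ
      rw [e1, e2]
      have e3 : t / (-(r : ℚ) * t + p) / (1 / (-r * t + p)) = t := by
        rw [div_div_div_cancel_right₀ ht', div_one]
      rw [e3, ← mul_assoc, ← mul_pow]
      have e4 : (-(r : ℚ) * t + p) * (1 / (-r * t + p)) = 1 := mul_one_div_cancel ht'
      rw [e4, one_pow, one_mul]
  · have hfin : {t : ℚ | -(r : ℚ) * t + p = 0}.Finite := by
      by_cases hr : (r : ℚ) = 0
      · have hp : (p : ℚ) ≠ 0 := by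
          intro hp
          rw [hr, hp] at hQ
          norm_num at hQ
        convert Set.finite_empty
        ext t
        simp [hr, hp]
      · refine (Set.finite_singleton ((p : ℚ) / r)).subset ?_
        intro t ht
        have ht' : -(r : ℚ) * t + p = 0 := ht
        rw [Set.mem_singleton_iff, eq_div_iff hr]
        linear_combination -ht'
    exact hfin.infinite_compl

theorem act_bound (n : ℕ) (p q r s : ℤ) : ∃ C : ℕ, 0 < C ∧ ∀ (H : ℕ) (a : Fin (n + 1) → ℤ),
    (∀ i, |a i| ≤ (H : ℤ)) → ∀ i, |act p q r s a i| ≤ ((C * H : ℕ) : ℤ) := by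
  refine ⟨(∑ i : Fin (n + 1), ∑ j : Fin (n + 1),
    ((tm n p q r s i).coeff (n - (j : ℕ))).natAbs) + 1, Nat.succ_pos _, ?_⟩
  intro H a ha j
  have h1 : |act p q r s a j| ≤ ∑ i : Fin (n + 1),
      (H : ℤ) * |(tm n p q r s i).coeff (n - (j : ℕ))| := by
    rw [act_sum]
    refine (abs_sum_le_sum_abs _ _).trans (sum_le_sum fun i _ => ?_)
    rw [abs_mul]
    exact mul_le_mul_of_nonneg_right (ha i) (abs_nonneg _)
  refine h1.trans ?_
  rw [← mul_sum]
  push_cast
  have h2 : ∑ i : Fin (n + 1), |(tm n p q r s i).coeff (n - (j : ℕ))| ≤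
      ∑ i : Fin (n + 1), ∑ j : Fin (n + 1), |(tm n p q r s i).coeff (n - (j : ℕ))| := by
    refine sum_le_sum fun i _ => ?_
    exact single_le_sum (f := fun j : Fin (n + 1) => |(tm n p q r s i).coeff (n - (j : ℕ))|)
      (fun j _ => abs_nonneg _) (mem_univ j)
  have hH : (0 : ℤ) ≤ H := Int.natCast_nonneg H
  nlinarith

namespace ActAux

/-- A homogeneous point gives a point. -/
lemma point_of {n m : ℕ} (he : Even n) (hem : Even m) (a : Fin (n + 1) → ℤ)
    (b : Fin (m + 1) → ℤ) (K : Type*) [Field K] (x z : K) (hxz : x ≠ 0 ∨ z ≠ 0)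
    (ha : IsSquare (∑ i : Fin (n + 1), (a i : K) * x ^ (n - (i : ℕ)) * z ^ (i : ℕ)))
    (hb : IsSquare (∑ i : Fin (m + 1), (b i : K) * x ^ (m - (i : ℕ)) * z ^ (i : ℕ))) :
    DQ.HasPoint a b K := by
  have key : ∀ {k : ℕ} (hk : Even k) {c v u : K}, v ≠ 0 → c = v ^ k * u → IsSquare c →
      IsSquare u := by
    intro k hk c v u hv hc hs
    obtain ⟨j, hj⟩ := hk
    obtain ⟨y, hy⟩ := hs
    refine ⟨y / v ^ j, ?_⟩
    rw [div_mul_div_comm, ← hy, hc, hj, pow_add]
    field_simp
  by_cases hz : z = 0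
  · right
    have hx : x ≠ 0 := by
      rcases hxz with h | h
      · exact h
      · exact absurd hz h
    rw [hz, hom_zero] at ha hb
    exact ⟨key he hx (mul_comm _ _) ha, key hem hx (mul_comm _ _) hb⟩
  · left
    rw [hom_eval _ _ _ hz] at ha hb
    obtain ⟨y, hy⟩ := key he hz rfl ha
    obtain ⟨w, hw⟩ := key hem hz rfl hb
    exact ⟨x / z, y, w, by rw [sq, hy], by rw [sq, hw]⟩

end ActAux

theorem act_point {n m : ℕ} (he : Even n) (hem : Even m) (p q r s : ℤ) (h : p * s - q * r = 1)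
    (a : Fin (n + 1) → ℤ) (b : Fin (m + 1) → ℤ) (K : Type*) [Field K] [CharZero K]
    (hp : DQ.HasPoint (act p q r s a) (act p q r s b) K) : DQ.HasPoint a b K := by
  have hK : (p : K) * s - q * r = 1 := by exact_mod_cast h
  rcases hp with ⟨t, y, w, h1, h2⟩ | ⟨h1, h2⟩
  · rw [act_eval] at h1 h2
    refine point_of he hem a b K (p * t + q) (r * t + s) ?_ ⟨y, by rw [← h1, sq]⟩
      ⟨w, by rw [← h2, sq]⟩
    by_contra hcon
    push Not at hcon
    obtain ⟨h3, h4⟩ := hcon
    have h5 : t = 0 := by linear_combination (s : K) * h3 - q * h4 - t * hK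
    rw [h5, mul_zero, zero_add] at h3 h4
    rw [h3, h4] at hK
    simp at hK
  · rw [act_zero] at h1 h2
    push_cast at h1 h2
    refine point_of he hem a b K p r ?_ h1 h2
    by_contra hcon
    push Not at hcon
    rw [hcon.1, hcon.2] at hK
    simp at hK

theorem act_els {n m : ℕ} (he : Even n) (hem : Even m) (p q r s : ℤ) (h : p * s - q * r = 1)
    (a : Fin (n + 1) → ℤ) (b : Fin (m + 1) → ℤ)
    (hp : DQ.ELS (act p q r s a) (act p q r s b)) : DQ.ELS a b :=
  ⟨fun l _ => act_point he hem p q r s h a b ℚ_[l] (hp.1 l),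
    act_point he hem p q r s h a b ℝ hp.2⟩

namespace ActAux

/-- The transformed polynomial over an algebraically closed field in terms of the roots. -/
lemma GZ_act_roots {K : Type*} [Field K] [IsAlgClosed K] {m : ℕ} (p q r s : ℤ)
    (hK : (p : K) * s - q * r = 1) (b : Fin (m + 1) → ℤ) (h0 : (b 0 : K) ≠ 0)
    (hsq : Squarefree (GZ K b)) :
    ∃ R : Finset K, R.card = m ∧ GZ K (act p q r s b) =
      C (b 0 : K) * ∏ ρ ∈ R, (C ((p : K) - ρ * r) * X + C ((q : K) - ρ * s)) := by
  classical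
  have hdeg : (GZ K b).natDegree = m := DQ.ElsC.gz_deg b h0
  have hlc : (GZ K b).leadingCoeff = (b 0 : K) := by
    rw [leadingCoeff, hdeg, BF.Els.gz_coeff _ le_rfl]
    congr 2
    apply Fin.ext
    simp
  have hne : GZ K b ≠ 0 := fun h => h0 (by rw [← hlc, h, leadingCoeff_zero])
  have hsp : (GZ K b).Splits := IsAlgClosed.splits _
  have hnd : (GZ K b).roots.Nodup :=
    nodup_roots (PerfectField.separable_iff_squarefree.mpr hsq)
  refine ⟨(GZ K b).roots.toFinset, ?_, ?_⟩
  · rw [Multiset.toFinset_card_of_nodup hnd, ← hsp.natDegree_eq_card_roots, hdeg]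
  · have hprod : ∀ u : K, (GZ K b).eval u =
        (b 0 : K) * ∏ ρ ∈ (GZ K b).roots.toFinset, (u - ρ) := by
      intro u
      have h1 := hsp.eq_prod_roots
      rw [hlc] at h1
      have h2 : (GZ K b).eval u = (C (b 0 : K) *
          ((GZ K b).roots.map fun ρ => X - C ρ).prod).eval u := by
        conv_lhs => rw [h1]
      rw [h2, eval_mul, eval_C, eval_multiset_prod, Multiset.map_map, Finset.prod,
        Multiset.toFinset_val, hnd.dedup]
      simp
    apply Polynomial.eq_of_infinite_eval_eq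
    have hfin : {t : K | (r : K) * t + s = 0}.Finite := by
      by_cases hr : (r : K) = 0
      · have hs : (s : K) ≠ 0 := by
          intro hs
          rw [hr, hs] at hK
          simp at hK
        refine Set.finite_empty.subset ?_
        intro t ht
        have ht' : (r : K) * t + s = 0 := ht
        rw [hr, zero_mul, zero_add] at ht'
        exact absurd ht' hs
      · refine (Set.finite_singleton (-(s : K) / r)).subset ?_
        intro t ht
        have ht' : (r : K) * t + s = 0 := ht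
        rw [Set.mem_singleton_iff, eq_div_iff hr]
        linear_combination ht'
    have : Infinite K := IsAlgClosed.instInfinite
    refine Set.Infinite.mono (s := {t : K | (r : K) * t + s = 0}ᶜ) ?_ hfin.infinite_compl
    intro t ht
    have ht' : (r : K) * t + s ≠ 0 := ht
    show (GZ K (act p q r s b)).eval t = _
    rw [act_eval, hom_eval _ _ _ ht', hprod]
    have hcard : (GZ K b).roots.toFinset.card = m := by
      rw [Multiset.toFinset_card_of_nodup hnd, ← hsp.natDegree_eq_card_roots, hdeg]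
    have e1 : ((r : K) * t + s) ^ m = ∏ _ρ ∈ (GZ K b).roots.toFinset, ((r : K) * t + s) := by
      rw [prod_const, hcard]
    rw [mul_left_comm, e1, ← prod_mul_distrib, eval_mul, eval_C, eval_prod]
    congr 1
    refine prod_congr rfl fun ρ _ => ?_
    simp only [eval_add, eval_mul, eval_C, eval_X]
    rw [mul_sub, mul_div_cancel₀ _ ht']
    ring

end ActAux

/-- The transformed form is squarefree modulo `l`. -/
theorem act_sqf {m : ℕ} (hm : 1 ≤ m) (p q r s : ℤ) (h : p * s - q * r = 1)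
    (b : Fin (m + 1) → ℤ) (l : ℕ) [Fact l.Prime] (h0 : ¬ (l : ℤ) ∣ b 0)
    (hsq : Squarefree (GZ (AlgebraicClosure (ZMod l)) b)) :
    Squarefree (GZ (AlgebraicClosure (ZMod l)) (act p q r s b)) ∧
      ¬ ((l : ℤ) ∣ act p q r s b 0 ∧ (l : ℤ) ∣ act p q r s b 1) := by
  classical
  set K := AlgebraicClosure (ZMod l) with hKdef
  have hC : CharP K l := charP_of_injective_algebraMap (algebraMap (ZMod l) K).injective l
  have hb0 : (b 0 : K) ≠ 0 := (CharP.intCast_eq_zero_iff K l _).not.mpr h0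
  have hK : (p : K) * s - q * r = 1 := by
    have h9 : ((p * s - q * r : ℤ) : K) = 1 := by rw [h, Int.cast_one]
    rw [Int.cast_sub, Int.cast_mul, Int.cast_mul] at h9
    exact h9
  obtain ⟨R, hR, hP⟩ := GZ_act_roots p q r s hK b hb0 hsq
  -- the linear factors
  have hL0 : ∀ ρ : K, (C ((p : K) - ρ * r) * X + C ((q : K) - ρ * s)) ≠ 0 := by
    intro ρ hρ
    have h1 : (p : K) - ρ * r = 0 := by
      have h9 := congrArg (fun P : K[X] => P.coeff 1) hρ
      simp only [coeff_zero] at h9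
      rwa [lin_coeff] at h9
    have h2 : (q : K) - ρ * s = 0 := by
      have := congrArg (fun P : K[X] => P.coeff 0) hρ
      simpa using this
    have : (1 : K) = 0 := by linear_combination s * h1 - r * h2 - hK
    exact one_ne_zero this
  have hLsq : ∀ ρ : K, Squarefree (C ((p : K) - ρ * r) * X + C ((q : K) - ρ * s)) := by
    intro ρ
    by_cases h1 : (p : K) - ρ * r = 0
    · have h2 : (q : K) - ρ * s ≠ 0 := by
        intro h2
        apply hL0 ρ
        rw [h1, h2]
        simp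
      rw [h1, C_0, zero_mul, zero_add]
      exact (isUnit_C.2 (isUnit_iff_ne_zero.2 h2)).squarefree
    · exact (irreducible_of_degree_eq_one (degree_linear h1)).squarefree
  have hcop : (R : Set K).Pairwise (Function.onFun IsCoprime fun ρ =>
      (C ((p : K) - ρ * r) * X + C ((q : K) - ρ * s))) := by
    intro ρ _ ρ' _ hne
    refine ⟨C (-((p : K) - ρ' * r) / (ρ - ρ')), C (((p : K) - ρ * r) / (ρ - ρ')), ?_⟩
    have hd : ρ - ρ' ≠ 0 := sub_ne_zero.2 hne
    have e1 : (-((p : K) - ρ' * r) / (ρ - ρ')) * ((p : K) - ρ * r) +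
        (((p : K) - ρ * r) / (ρ - ρ')) * ((p : K) - ρ' * r) = 0 := by ring
    have e2 : (-((p : K) - ρ' * r) / (ρ - ρ')) * ((q : K) - ρ * s) +
        (((p : K) - ρ * r) / (ρ - ρ')) * ((q : K) - ρ' * s) = 1 := by
      rw [div_mul_eq_mul_div, div_mul_eq_mul_div, ← add_div, div_eq_one_iff_eq hd]
      linear_combination (ρ - ρ') * hK
    calc C (-((p : K) - ρ' * r) / (ρ - ρ')) * (C ((p : K) - ρ * r) * X + C ((q : K) - ρ * s)) +
          C (((p : K) - ρ * r) / (ρ - ρ')) * (C ((p : K) - ρ' * r) * X + C ((q : K) - ρ' * s))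
        = C ((-((p : K) - ρ' * r) / (ρ - ρ')) * ((p : K) - ρ * r) +
          (((p : K) - ρ * r) / (ρ - ρ')) * ((p : K) - ρ' * r)) * X +
          C ((-((p : K) - ρ' * r) / (ρ - ρ')) * ((q : K) - ρ * s) +
          (((p : K) - ρ * r) / (ρ - ρ')) * ((q : K) - ρ' * s)) := by
            simp only [C_add, C_mul]
            ring
      _ = 1 := by rw [e1, e2, C_0, zero_mul, zero_add, C_1]
  have hprodsq : Squarefree (∏ ρ ∈ R, (C ((p : K) - ρ * r) * X + C ((q : K) - ρ * s))) := by
    refine Finset.squarefree_prod_of_pairwise_isCoprime ?_ fun ρ _ => hLsq ρ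
    exact fun ρ hρ ρ' hρ' hne => (hcop hρ hρ' hne).isRelPrime
  have hu : IsUnit (C (b 0 : K)) := isUnit_C.2 (isUnit_iff_ne_zero.2 hb0)
  have hsqf : Squarefree (GZ K (act p q r s b)) := by
    rw [hP]
    exact squarefree_mul_iff.2 ⟨hu.isRelPrime_left, hu.squarefree, hprodsq⟩
  refine ⟨hsqf, ?_⟩
  rintro ⟨h1, h2⟩
  have h1' : ((act p q r s b 0 : ℤ) : K) = 0 := (CharP.intCast_eq_zero_iff K l _).2 h1
  have h2' : ((act p q r s b 1 : ℤ) : K) = 0 := (CharP.intCast_eq_zero_iff K l _).2 h2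
  -- the degree
  have hdeg : m - 1 ≤ (GZ K (act p q r s b)).natDegree := by
    rw [hP, natDegree_C_mul hb0, natDegree_prod _ _ fun ρ _ => hL0 ρ]
    have h3 : ((R.filter fun ρ => (p : K) - ρ * r = 0)).card ≤ 1 := by
      rw [card_le_one]
      intro ρ hρ ρ' hρ'
      rw [mem_filter] at hρ hρ'
      by_contra hne
      have h4 : (ρ - ρ') * (r : K) = 0 := by linear_combination hρ'.2 - hρ.2
      have h5 : (r : K) = 0 := by
        rcases mul_eq_zero.1 h4 with h5 | h5
        · exact absurd (sub_eq_zero.1 h5) hne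
        · exact h5
      have h6 : (p : K) = 0 := by linear_combination hρ.2 + ρ * h5
      rw [h5, h6] at hK
      simp at hK
    have h4 : ∑ ρ ∈ R, (C ((p : K) - ρ * r) * X + C ((q : K) - ρ * s) : K[X]).natDegree =
        ∑ ρ ∈ R, (if (p : K) - ρ * r = 0 then 0 else 1) := by
      refine sum_congr rfl fun ρ _ => ?_
      split_ifs with h5
      · rw [h5, C_0, zero_mul, zero_add, natDegree_C]
      · exact natDegree_linear h5
    have h5 : ∑ ρ ∈ R, (if (p : K) - ρ * r = 0 then 0 else 1) =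
        (R.filter fun ρ => ¬ (p : K) - ρ * r = 0).card := by
      rw [card_filter]
      refine sum_congr rfl fun ρ _ => ?_
      split_ifs <;> simp_all
    have h6 := card_filter_add_card_filter_not (s := R) (fun ρ => (p : K) - ρ * r = 0)
    omega
  have hle : (GZ K (act p q r s b)).natDegree ≤ m := BF.Els.gz_natDegree_le _
  have hne : GZ K (act p q r s b) ≠ 0 := hsqf.ne_zero
  have hlc : (GZ K (act p q r s b)).coeff (GZ K (act p q r s b)).natDegree ≠ 0 :=
    leadingCoeff_ne_zero.2 hne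
  rcases (by omega : (GZ K (act p q r s b)).natDegree = m ∨
    (GZ K (act p q r s b)).natDegree = m - 1) with h3 | h3
  · apply hlc
    rw [h3, BF.Els.gz_coeff _ le_rfl]
    have : (⟨m - m, by omega⟩ : Fin (m + 1)) = 0 := by
      apply Fin.ext
      simp
    rw [this]
    exact h1'
  · apply hlc
    rw [h3, BF.Els.gz_coeff _ (Nat.sub_le _ _)]
    have : (⟨m - (m - 1), by omega⟩ : Fin (m + 1)) = 1 := by
      apply Fin.ext
      rw [Fin.val_one', Nat.mod_eq_of_lt (by omega)]
      show m - (m - 1) = 1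
      omega
    rw [this]
    exact h2'

end Stoll308.FQ
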