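import Pool.Agent.Work.MP_308fa9_nt.FQ.Basic
import Pool.Agent.Work.MP_308fa9_nt.BG.LCond1

set_option autoImplicit false

/-!
The bad pairs for a fixed second pair.
-/

namespace Stoll308.FQ

open Polynomial Finset Matrix BG BF

/-- A singular symmetric matrix modulo `l` with nonzero adjugate has a nonzero diagonal cofactor. -/
theorem adj_diag {m : ℕ} (l : ℕ) [Fact l.Prime] (A' B' : Matrix (Fin m) (Fin m) ℤ)
    (hB : B'.IsSymm) (h1 : (l : ℤ) ∣ B'.det) (h2 : ¬ (l : ℤ) ∣ (B'.adjugate * A').trace) :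
    ∃ j, ¬ (l : ℤ) ∣ B'.adjugate j j := by
  have hS : (B'.map (Int.castRingHom (ZMod l))).IsSymm := by
    unfold Matrix.IsSymm
    rw [← Matrix.transpose_map, hB.eq]
  have hdet : (B'.map (Int.castRingHom (ZMod l))).det = 0 := by
    rw [← BG.BadCount.cast_det, ZMod.intCast_zmod_eq_zero_iff_dvd]
    exact h1
  obtain ⟨v, hv, hker⟩ := Matrix.exists_mulVec_eq_zero_iff.mpr hdet
  obtain ⟨ρ, hρ⟩ := BG.LCond.adjugate_rank_one _ hS v hv hker
  have hρ0 : ρ ≠ 0 := by
    rintro rfl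
    apply h2
    rw [← ZMod.intCast_zmod_eq_zero_iff_dvd, BG.BadCount.cast_trace]
    have e : (B'.map (Int.castRingHom (ZMod l))).adjugate = 0 := by
      ext i j
      rw [hρ, zero_mul, zero_mul, Matrix.zero_apply]
    rw [e, Matrix.zero_mul, Matrix.trace_zero]
  obtain ⟨j, hj⟩ : ∃ j, v j ≠ 0 := by
    by_contra h
    push Not at h
    exact hv (funext h)
  refine ⟨j, ?_⟩
  rw [← ZMod.intCast_zmod_eq_zero_iff_dvd, BG.BadCount.cast_adj, hρ]
  exact mul_ne_zero (mul_ne_zero hρ0 hj) hj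

theorem bad_of {n m : ℕ} (he : Even n) (hem : Even m) (l : ℕ) [Fact l.Prime] (h2 : l ≠ 2)
    (A' B' : Matrix (Fin m) (Fin m) ℤ) (hA : A'.IsSymm) (hB : B'.IsSymm) (r : ℤ)
    (h3 : (l : ℤ) ^ 2 ∣ (B' - r • A').det) (h4 : ¬ (l : ℤ) ∣ ((B' - r • A').adjugate * A').trace) :
    ∃ s : ℤ, (s = 1 ∨ s = -1) ∧ ∀ A B : Matrix (Fin n) (Fin n) ℤ,
      BadZ s l A (B - r • A) → DQ.Bad l A B A' B' := by
  have hl : (l : ℤ) ∣ (l : ℤ) ^ 2 := dvd_pow_self _ two_ne_zero
  have hS : (B' - r • A').IsSymm := by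
    unfold Matrix.IsSymm
    rw [Matrix.transpose_sub, Matrix.transpose_smul, hA.eq, hB.eq]
  obtain ⟨j, hj⟩ := adj_diag l A' (B' - r • A') hS (hl.trans h3) h4
  have hj0 : ((((-1) ^ (m / 2 + 1) * (B' - r • A').adjugate j j : ℤ)) : ZMod l) ≠ 0 := by
    rw [Ne, ZMod.intCast_zmod_eq_zero_iff_dvd]
    intro h
    rcases neg_one_pow_eq_or ℤ (m / 2 + 1) with h5 | h5 <;> rw [h5] at h
    · rw [one_mul] at h
      exact hj h
    · rw [neg_one_mul, dvd_neg] at h
      exact hj h
  have hprime : Prime (l : ℤ) := Nat.prime_iff_prime_int.mp (Fact.out : l.Prime)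
  refine ⟨-legendreSym l ((-1) ^ (m / 2 + 1) * (B' - r • A').adjugate j j), ?_, ?_⟩
  · rcases legendreSym.eq_one_or_neg_one l hj0 with h5 | h5 <;> rw [h5]
    · right; rfl
    · left; rfl
  · rintro A B ⟨a1, a2, a3, hF, i, hi⟩
    refine ⟨r, a1, hl.trans h3, a3, h4, ?_, hF, i, j, ?_⟩
    · intro h
      have h5 : (l : ℤ) ^ 2 ∣ (B - r • A).det * ((B' - r • A').adjugate * A').trace := by
        have h6 := dvd_add h (h3.mul_right (((B - r • A).adjugate * A).trace))
        rwa [sub_add_cancel] at h6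
      have hcop : IsCoprime ((l : ℤ) ^ 2) (((B' - r • A').adjugate * A').trace) :=
        ((Prime.coprime_iff_not_dvd hprime).2 h4).pow_left
      exact a2 (hcop.dvd_of_dvd_mul_right h5)
    · have e : (-1 : ℤ) ^ ((n + m) / 2) * ((B - r • A).adjugate i i * (B' - r • A').adjugate j j) =
          ((-1) ^ (n / 2 + 1) * (B - r • A).adjugate i i) *
          ((-1) ^ (m / 2 + 1) * (B' - r • A').adjugate j j) := by
        have e1 : (n + m) / 2 = n / 2 + m / 2 := by
          obtain ⟨k, hk⟩ := he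
          obtain ⟨k', hk'⟩ := hem
          omega
        rw [e1, pow_add]
        ring
      have hi' : legendreSym l ((-1) ^ (n / 2 + 1) * (B - r • A).adjugate i i) =
          -legendreSym l ((-1) ^ (m / 2 + 1) * (B' - r • A').adjugate j j) := hi
      have h7 : legendreSym l ((-1) ^ ((n + m) / 2) *
          ((B - r • A).adjugate i i * (B' - r • A').adjugate j j)) = -1 := by
        rw [e, legendreSym.mul, hi']
        rcases legendreSym.eq_one_or_neg_one l hj0 with h5 | h5 <;> rw [h5]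
        · norm_num
        · norm_num
      exact h7

end Stoll308.FQ
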