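import Pool.Agent.Work.MP_308fa9_nt.FQ.Defs
import Pool.Agent.Work.MP_308fa9_nt.DQ.BadA

set_option autoImplicit false

/-!
Working definitions.
-/

namespace Stoll308.FQ

open Polynomial Finset Matrix BG BF

/-- The determinant of `B` is exactly divisible by `l`, `0` is a simple root modulo `l` of the
characteristic polynomial of the pair, and the class at this root has the sign `s`. -/
def BadZ {n : ℕ} (s : ℤ) (l : ℕ) (A B : Matrix (Fin n) (Fin n) ℤ) : Prop :=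
  (l : ℤ) ∣ B.det ∧ ¬ (l : ℤ) ^ 2 ∣ B.det ∧ ¬ (l : ℤ) ∣ (B.adjugate * A).trace ∧
    ∃ _h : Fact l.Prime, ∃ i, legendreSym l ((-1) ^ (n / 2 + 1) * B.adjugate i i) = s

/-- The prime `l` has a simple root of `q`, given by the integer `r` modulo `l²`. -/
def Root {m : ℕ} (b : Fin (m + 1) → ℤ) (l : ℕ) (r : ℤ) : Prop :=
  (l : ℤ) ^ 2 ∣ (GZ ℤ b).eval r ∧ ¬ (l : ℤ) ∣ (derivative (GZ ℤ b)).eval r

open Classical in
/-- The sum of the inverses of the primes in `S` diverges. -/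
def Dense (S : Set ℕ) : Prop :=
  ∀ T : ℝ, ∃ z : ℕ, T ≤ ∑ l ∈ (Icc 5 z).filter (fun l => l.Prime ∧ l ∈ S), (1 : ℝ) / l

end Stoll308.FQ
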