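import Pool.Agent.Work.MP_308fa9_nt.FQ.Basic
import Pool.Agent.Work.MP_308fa9_nt.BF.Irr

set_option autoImplicit false

/-!
No large zero block, squarefree version: a zero block of size `r` times `m - r` makes the square of a
determinant of size `r` (of degree `r`) a divisor of the characteristic polynomial.
-/

namespace Stoll308.FQ

open Polynomial Finset Matrix BG BF

/-- the indices in three blocks -/
def eqv3 (ρ μ : ℕ) : Fin ρ ⊕ (Fin μ ⊕ Fin ρ) ≃ Fin (ρ + (μ + ρ)) :=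
  (Equiv.sumCongr (Equiv.refl _) finSumFinEquiv).trans finSumFinEquiv

theorem eqv3_inl {ρ μ : ℕ} (i : Fin ρ) : ((eqv3 ρ μ (Sum.inl i) : Fin _) : ℕ) = i := by
  simp [eqv3]

theorem eqv3_mid {ρ μ : ℕ} (i : Fin μ) : ((eqv3 ρ μ (Sum.inr (Sum.inl i)) : Fin _) : ℕ) = ρ + i := by
  simp [eqv3]

theorem eqv3_inr {ρ μ : ℕ} (i : Fin ρ) :
    ((eqv3 ρ μ (Sum.inr (Sum.inr i)) : Fin _) : ℕ) = ρ + (μ + i) := by
  simp [eqv3]

/-- exchange of the first and the last block -/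
def swp (ρ μ : ℕ) : Equiv.Perm (Fin ρ ⊕ (Fin μ ⊕ Fin ρ)) where
  toFun := Sum.elim (fun i => Sum.inr (Sum.inr i)) (Sum.elim (fun i => Sum.inr (Sum.inl i)) Sum.inl)
  invFun := Sum.elim (fun i => Sum.inr (Sum.inr i)) (Sum.elim (fun i => Sum.inr (Sum.inl i)) Sum.inl)
  left_inv := by rintro (i | i | i) <;> rfl
  right_inv := by rintro (i | i | i) <;> rfl

/-- the corner block -/
def crn {R : Type*} {ρ μ : ℕ} (T : Matrix (Fin (ρ + (μ + ρ))) (Fin (ρ + (μ + ρ))) R) :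
    Matrix (Fin ρ) (Fin ρ) R :=
  fun i j => T (eqv3 ρ μ (Sum.inl i)) (eqv3 ρ μ (Sum.inr (Sum.inr j)))

/-- the middle block -/
def mdl {R : Type*} {ρ μ : ℕ} (T : Matrix (Fin (ρ + (μ + ρ))) (Fin (ρ + (μ + ρ))) R) :
    Matrix (Fin μ) (Fin μ) R :=
  fun i j => T (eqv3 ρ μ (Sum.inr (Sum.inl i))) (eqv3 ρ μ (Sum.inr (Sum.inl j)))

theorem block_det {R : Type*} [CommRing R] {ρ μ : ℕ}
    (T : Matrix (Fin (ρ + (μ + ρ))) (Fin (ρ + (μ + ρ))) R) (hsym : ∀ i j, T i j = T j i)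
    (h0 : ∀ i j : Fin (ρ + (μ + ρ)), (i : ℕ) < ρ → (j : ℕ) < μ + ρ → T i j = 0) :
    ∃ ε : ℤˣ, T.det = ((ε : ℤ) : R) * ((crn T).det ^ 2 * (mdl T).det) := by
  set e := eqv3 ρ μ with he
  set N : Matrix (Fin ρ ⊕ (Fin μ ⊕ Fin ρ)) (Fin ρ ⊕ (Fin μ ⊕ Fin ρ)) R :=
    (T.submatrix e e).submatrix id (swp ρ μ) with hN
  have h1 : N.det = ((Equiv.Perm.sign (swp ρ μ) : ℤ) : R) * T.det := by
    rw [hN, Matrix.det_permute', Matrix.det_submatrix_equiv_self]
  have h2 : N = Matrix.fromBlocks (crn T) 0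
      (Matrix.of fun i j => T (e (Sum.inr i)) (e (Sum.inr (Sum.inr j))))
      (Matrix.fromBlocks (mdl T) 0
        (Matrix.of fun i j => T (e (Sum.inr (Sum.inr i))) (e (Sum.inr (Sum.inl j)))) (crn T)ᵀ) := by
    ext i j
    rcases i with i | i | i <;> rcases j with j | j | j
    · rfl
    · exact h0 _ _ (by
        change ((e (Sum.inl i) : Fin _) : ℕ) < ρ
        rw [he, eqv3_inl]
        exact i.2) (by
        change ((e (Sum.inr (Sum.inl j)) : Fin _) : ℕ) < _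
        rw [he, eqv3_mid]
        have := j.2
        omega)
    · exact h0 _ _ (by
        change ((e (Sum.inl i) : Fin _) : ℕ) < ρ
        rw [he, eqv3_inl]
        exact i.2) (by
        change ((e (Sum.inl j) : Fin _) : ℕ) < _
        rw [he, eqv3_inl]
        have := j.2
        omega)
    · rfl
    · rfl
    · change T (e (Sum.inr (Sum.inl i))) (e (Sum.inl j)) = 0
      rw [hsym]
      exact h0 _ _ (by rw [he, eqv3_inl]; exact j.2) (by
        rw [he, eqv3_mid]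
        have := i.2
        have := j.2
        omega)
    · rfl
    · rfl
    · change T (e (Sum.inr (Sum.inr i))) (e (Sum.inl j)) = _
      rw [hsym]
      rfl
  rw [h2, Matrix.det_fromBlocks_zero₁₂, Matrix.det_fromBlocks_zero₁₂, Matrix.det_transpose] at h1
  refine ⟨Equiv.Perm.sign (swp ρ μ), ?_⟩
  have h3 : (((Equiv.Perm.sign (swp ρ μ) : ℤˣ) : ℤ) : R) *
      (((Equiv.Perm.sign (swp ρ μ) : ℤˣ) : ℤ) : R) = 1 := by
    rw [← Int.cast_mul, ← Units.val_mul, Int.units_mul_self]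
    simp
  calc T.det = (((Equiv.Perm.sign (swp ρ μ) : ℤˣ) : ℤ) : R) *
      ((((Equiv.Perm.sign (swp ρ μ) : ℤˣ) : ℤ) : R) * T.det) := by
        rw [← mul_assoc, h3, one_mul]
    _ = _ := by rw [← h1]; ring

theorem block_aux {ρ μ : ℕ} (b : Fin (ρ + (μ + ρ) + 1) → ℤ) (h0 : b 0 ≠ 0)
    (hsq : Squarefree (GZ ℚ b))
    (A B : Matrix (Fin (ρ + (μ + ρ))) (Fin (ρ + (μ + ρ))) ℤ) (hA : A.IsSymm) (hB : B.IsSymm)
    (h : HasChar b A B) (h1 : 1 ≤ ρ) :
    ∃ i j : Fin (ρ + (μ + ρ)), (i : ℕ) < ρ ∧ (j : ℕ) < μ + ρ ∧ (A i j ≠ 0 ∨ B i j ≠ 0) := by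
  by_contra hcon
  push Not at hcon
  set T : Matrix (Fin (ρ + (μ + ρ))) (Fin (ρ + (μ + ρ))) ℤ[X] := (X : ℤ[X]) • A.map C - B.map C
    with hT
  have hTij : ∀ i j, T i j = X * C (A i j) - C (B i j) := fun i j => rfl
  obtain ⟨ε, hε⟩ := block_det T (fun i j => by
      rw [hTij, hTij, hA.apply, hB.apply]) (fun i j hi hj => by
      rw [hTij, (hcon i j hi hj).1, (hcon i j hi hj).2]
      simp)
  have hP : crn T = (X : ℤ[X]) • (crn A).map C + (-(crn B)).map C := by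
    ext1 i j
    change T _ _ = X * C (A _ _) + C (-(B _ _))
    rw [hTij, C_neg, sub_eq_add_neg]
  have hN : mdl T = (X : ℤ[X]) • (mdl A).map C + (-(mdl B)).map C := by
    ext1 i j
    change T _ _ = X * C (A _ _) + C (-(B _ _))
    rw [hTij, C_neg, sub_eq_add_neg]
  have hdN : (mdl T).det.natDegree ≤ μ := by
    rw [hN]
    exact (Polynomial.natDegree_det_X_add_C_le _ _).trans_eq (Fintype.card_fin μ)
  have hchar : T.det = C ((-1) ^ ((ρ + (μ + ρ)) / 2)) * GZ ℤ b := h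
  have hmap : Polynomial.map (Int.castRingHom ℚ) (GZ ℤ b) = GZ ℚ b := by
    simp [GZ, gpol, Polynomial.map_sum]
  -- over the rationals
  have hQ : C ((-1 : ℚ) ^ ((ρ + (μ + ρ)) / 2)) * GZ ℚ b =
      ((ε : ℤ) : ℚ[X]) * (((crn T).det.map (Int.castRingHom ℚ)) ^ 2 *
        ((mdl T).det.map (Int.castRingHom ℚ))) := by
    have h3 := congrArg (Polynomial.map (Int.castRingHom ℚ)) (hchar.symm.trans hε)
    rw [Polynomial.map_mul, hmap, Polynomial.map_C, Polynomial.map_mul, Polynomial.map_mul,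
      Polynomial.map_pow, Polynomial.map_intCast] at h3
    simpa using h3
  have hone : ∀ k : ℕ, (C ((-1 : ℚ) ^ k) : ℚ[X]) * C ((-1) ^ k) = 1 := by
    intro k
    rw [← C_mul, ← mul_pow, neg_one_mul, neg_neg, one_pow, C_1]
  have hG : GZ ℚ b = C ((-1 : ℚ) ^ ((ρ + (μ + ρ)) / 2)) * (((ε : ℤ) : ℚ[X]) *
      (((crn T).det.map (Int.castRingHom ℚ)) ^ 2 * ((mdl T).det.map (Int.castRingHom ℚ)))) := by
    rw [← hQ, ← mul_assoc, hone, one_mul]
  have hdvd : (crn T).det.map (Int.castRingHom ℚ) * (crn T).det.map (Int.castRingHom ℚ) ∣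
      GZ ℚ b := by
    rw [hG]
    exact ⟨C ((-1 : ℚ) ^ ((ρ + (μ + ρ)) / 2)) * (((ε : ℤ) : ℚ[X]) *
      ((mdl T).det.map (Int.castRingHom ℚ))), by ring⟩
  have hunit := hsq _ hdvd
  have hdP : ((crn T).det.map (Int.castRingHom ℚ)).natDegree = 0 :=
    natDegree_eq_zero_of_isUnit hunit
  have hdeg := Irr.GZ_natDegree b h0
  have hle : (GZ ℚ b).natDegree ≤ μ := by
    rw [hG]
    refine (natDegree_C_mul_le _ _).trans ?_
    refine natDegree_mul_le.trans ?_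
    rw [natDegree_intCast, zero_add]
    refine natDegree_mul_le.trans ?_
    refine (add_le_add (natDegree_pow_le) (natDegree_map_le.trans hdN)).trans ?_
    rw [hdP]
    simp
  omega

theorem block_ne {m : ℕ} (b : Fin (m + 1) → ℤ) (h0 : b 0 ≠ 0) (hsq : Squarefree (GZ ℚ b))
    (A B : Matrix (Fin m) (Fin m) ℤ) (hA : A.IsSymm) (hB : B.IsSymm) (h : HasChar b A B) (r : ℕ)
    (h1 : 1 ≤ r) (h2 : r < m) :
    ∃ i j : Fin m, (i : ℕ) < r ∧ (j : ℕ) < m - r ∧ (A i j ≠ 0 ∨ B i j ≠ 0) := by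
  rcases le_total r (m - r) with hr | hr
  · obtain ⟨μ, rfl⟩ : ∃ μ, m = r + (μ + r) := ⟨m - 2 * r, by omega⟩
    obtain ⟨i, j, hi, hj, hij⟩ := block_aux b h0 hsq A B hA hB h h1
    exact ⟨i, j, hi, by omega, hij⟩
  · obtain ⟨ρ, rfl⟩ : ∃ ρ, r = m - ρ := ⟨m - r, by omega⟩
    obtain ⟨μ, rfl⟩ : ∃ μ, m = ρ + (μ + ρ) := ⟨m - 2 * ρ, by omega⟩
    obtain ⟨i, j, hi, hj, hij⟩ := block_aux b h0 hsq A B hA hB h (by omega)
    refine ⟨j, i, by omega, by omega, ?_⟩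
    rw [hA.apply, hB.apply] at hij
    exact hij

end Stoll308.FQ
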