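import Pool.Agent.Work.MP_308fa9_nt.FQ.Basic
import Pool.Agent.Work.MP_308fa9_nt.DQ.BadB

set_option autoImplicit false

/-!
The number of bad classes modulo `l²` at one root.
-/

namespace Stoll308.FQ

open Finset Matrix BG BF DQ

open DQ.BadA in
/-- The same condition in `ZMod (l ^ 2)`. -/
lemma badZ_iff {n : ℕ} (s : ℤ) (l : ℕ) (A B : Matrix (Fin n) (Fin n) ℤ) :
    BadZ s l A B ↔ BadS s l (A.map (Int.castRingHom (ZMod (l ^ 2))))
      (B.map (Int.castRingHom (ZMod (l ^ 2)))) := by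
  unfold BadZ BadS
  rw [← BG.BadCount.cast_det, ← BG.BadCount.cast_trace]
  simp only [← BG.BadCount.cast_adj, map_intCast]
  rw [ZMod.intCast_zmod_eq_zero_iff_dvd, Ne, ZMod.intCast_zmod_eq_zero_iff_dvd, Ne,
    ZMod.intCast_zmod_eq_zero_iff_dvd]
  simp only [legendreSym]
  push_cast
  rfl

lemma badZ_of_dvd {n : ℕ} (s : ℤ) (l : ℕ) (A B A₁ B₁ : Matrix (Fin n) (Fin n) ℤ)
    (hA : ∀ i j, ((l ^ 2 : ℕ) : ℤ) ∣ A i j - A₁ i j)
    (hB : ∀ i j, ((l ^ 2 : ℕ) : ℤ) ∣ B i j - B₁ i j) : BadZ s l A B ↔ BadZ s l A₁ B₁ := by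
  rw [badZ_iff, badZ_iff, DQ.BadA.map_eq _ A A₁ hA, DQ.BadA.map_eq _ B B₁ hB]

theorem badZ_congr {n : ℕ} (s : ℤ) (l : ℕ) (r : ℤ) (v v' : Ix n ⊕ Ix n → ℤ)
    (h : ∀ i, ((l ^ 2 : ℕ) : ℤ) ∣ v i - v' i) :
    BadZ s l (symM fun p => v (Sum.inl p))
        ((symM fun p => v (Sum.inr p)) - r • (symM fun p => v (Sum.inl p))) ↔
      BadZ s l (symM fun p => v' (Sum.inl p))
        ((symM fun p => v' (Sum.inr p)) - r • (symM fun p => v' (Sum.inl p))) :=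
  badZ_of_dvd s l _ _ _ _ (fun _ _ => h _)
    (DQ.BadB.sub_dvd _ _ _ _ _ _ (fun _ => h _) (fun _ => h _))

open Classical in
theorem badZ_count {n : ℕ} (hn : 4 ≤ n) (he : Even n) (l : ℕ) (hl : l.Prime) (h5 : 5 ≤ l)
    (s : ℤ) (hs : s = 1 ∨ s = -1) (r : ℤ) :
    (l : ℝ) ^ (2 * (n * (n + 1)) - 1) / 2 ^ (2 * n + 3) ≤
      ((univ.filter fun v : Ix n ⊕ Ix n → Fin (l ^ 2) =>
        BadZ s l (symM fun p => ((v (Sum.inl p) : ℕ) : ℤ))
          ((symM fun p => ((v (Sum.inr p) : ℕ) : ℤ)) -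
            r • (symM fun p => ((v (Sum.inl p) : ℕ) : ℤ)))).card : ℝ) := by
  have : Fact l.Prime := ⟨hl⟩
  have h1 : (l : ℝ) ^ (2 * (n * (n + 1)) - 1) / 2 ^ (2 * n + 3) ≤
      ((DQ.BadA.TS s l n).card : ℝ) := by
    rcases hs with rfl | rfl
    · exact (DQ.BadA.card_TS_neg (l := l) hn he h5).trans
        (Nat.cast_le.2 (DQ.BadA.card_TS_pos (l := l) he (by omega) (by omega)))
    · exact DQ.BadA.card_TS_neg (l := l) hn he h5
  refine h1.trans (Nat.cast_le.2 ?_)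
  have h2 : 0 < l ^ 2 := pow_pos hl.pos 2
  -- `r` as a natural number modulo `l²`
  obtain ⟨t, ht⟩ : ∃ t : ℕ, ((l ^ 2 : ℕ) : ℤ) ∣ (t : ℤ) - r := by
    refine ⟨(r % ((l ^ 2 : ℕ) : ℤ)).toNat, ?_⟩
    have h3 : ((l ^ 2 : ℕ) : ℤ) ≠ 0 := by
      have : (0 : ℤ) < ((l ^ 2 : ℕ) : ℤ) := by exact_mod_cast h2
      exact this.ne'
    rw [Int.toNat_of_nonneg (Int.emod_nonneg r h3)]
    have h4 := Int.emod_add_mul_ediv r ((l ^ 2 : ℕ) : ℤ)
    exact ⟨-(r / ((l ^ 2 : ℕ) : ℤ)), by linear_combination h4⟩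
  refine Finset.card_le_card_of_injOn (fun x => DQ.BadB.tr hl.pos t fun i =>
    ⟨(x i : ZMod (l ^ 2)).val, ZMod.val_lt _⟩) ?_ ?_
  · intro x hx
    have hx' := DQ.BadA.mem_TS.1 (Finset.mem_coe.1 hx)
    refine Finset.mem_coe.2 (Finset.mem_filter.2 ⟨Finset.mem_univ _, ?_⟩)
    have h6 : BadZ s l (symM fun p => (((x (Sum.inl p)).val : ℕ) : ℤ))
        (symM fun p => (((x (Sum.inr p)).val : ℕ) : ℤ)) := by
      rw [badZ_iff, BG.BadCount.symM_map, BG.BadCount.symM_map]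
      simp only [eq_intCast, Int.cast_natCast, ZMod.natCast_zmod_val]
      exact hx'
    refine (badZ_of_dvd s l _ _ _ _ ?_ ?_).1 h6
    · intro i j
      exact ⟨0, by rw [mul_zero, sub_eq_zero]; rfl⟩
    · intro i j
      have h7 := DQ.BadB.tr_dvd hl.pos t (fun i => (⟨(x i : ZMod (l ^ 2)).val,
        ZMod.val_lt _⟩ : Fin (l ^ 2))) i j
      set y := DQ.BadB.tr hl.pos t (fun i => (⟨(x i : ZMod (l ^ 2)).val,
        ZMod.val_lt _⟩ : Fin (l ^ 2))) with hy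
      simp only [Matrix.sub_apply, Matrix.smul_apply, smul_eq_mul] at h7 ⊢
      have h8 := dvd_sub h7 (ht.mul_right ((symM fun p => ((y (Sum.inl p) : ℕ) : ℤ)) i j))
      refine (dvd_of_eq ?_).trans (h8.trans (dvd_of_eq ?_))
      · rfl
      · ring
  · intro x _ y _ h
    have h6 := DQ.BadB.tr_inj hl.pos t h
    funext i
    have h7 := congrFun h6 i
    simp only [Fin.mk.injEq] at h7
    exact ZMod.val_injective _ h7

end Stoll308.FQ
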