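import Pool.Agent.Work.MP_308fa9_nt.FQ.Count
import Pool.Agent.Work.MP_308fa9_nt.BF.Cube

set_option autoImplicit false

/-!
Few pairs of matrices of a large box satisfy the local conditions at the primes of a set which is
not too small.
-/

namespace Stoll308.FQ

open Finset Matrix BG BF

open Classical in
theorem cube_small {n : ℕ} (hn : 4 ≤ n) (he : Even n) (S : Set ℕ) (hS : Dense S) (r s : ℕ → ℤ)
    (hs : ∀ l, s l = 1 ∨ s l = -1) (ε : ℝ) (hε : 0 < ε) :
    ∃ D₀ : ℝ, ∀ D : ℝ, D₀ ≤ D →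
      (((Fintype.piFinset fun _ : Ix n ⊕ Ix n => Icc (-⌊D⌋) ⌊D⌋).filter
        fun v => ∀ l : ℕ, l.Prime → 5 ≤ l → l ∈ S →
          ¬ BadZ (s l) l (symM fun p => v (Sum.inl p))
            ((symM fun p => v (Sum.inr p)) - r l • (symM fun p => v (Sum.inl p)))).card : ℝ) ≤
        ε * D ^ (n * (n + 1)) := by
  set N : ℕ := n * (n + 1) with hN
  have hcard : Fintype.card (Ix n ⊕ Ix n) = N := by
    rw [Fintype.card_sum, cube_ix n, ← two_mul, hN,
      Nat.mul_div_cancel' (Nat.even_mul_succ_self n).two_dvd]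
  have hN1 : 1 ≤ N := by rw [hN]; nlinarith
  set B : ℝ := 2 ^ (2 * n + 3) with hB
  have hB0 : 0 < B := by positivity
  have hB1 : 1 ≤ B := one_le_pow₀ (by norm_num)
  obtain ⟨z, hz⟩ := hS (B * Real.log (3 ^ N / ε))
  set F := (Icc 5 z).filter (fun l => l.Prime ∧ l ∈ S) with hF
  have hSmem : ∀ l ∈ F, 5 ≤ l ∧ l.Prime := by
    intro l hl
    rw [hF, mem_filter, mem_Icc] at hl
    exact ⟨hl.1.1, hl.2.1⟩
  have hSmem' : ∀ l ∈ F, l ∈ S := by
    intro l hl
    rw [hF, mem_filter] at hl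
    exact hl.2.2
  set M : ℝ := ∏ l ∈ F, ((l ^ 2 : ℕ) : ℝ) with hM
  have hM0 : 0 ≤ M := Finset.prod_nonneg fun l _ => by positivity
  refine ⟨M + 1, fun D hD => ?_⟩
  have hD0 : 0 ≤ D := by linarith
  have hfl : 0 ≤ ⌊D⌋ := Int.floor_nonneg.2 hD0
  set L : ℕ := (2 * ⌊D⌋ + 1).toNat with hL
  have hLz : (L : ℤ) = 2 * ⌊D⌋ + 1 := Int.toNat_of_nonneg (by omega)
  have hLR : (L : ℝ) ≤ 2 * D + 1 := by
    have h1 : (L : ℝ) = 2 * (⌊D⌋ : ℝ) + 1 := by exact_mod_cast hLz
    have h2 := Int.floor_le D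
    linarith
  have hpow : ∀ l : ℕ, 5 ≤ l → 1 / (B * (l : ℝ)) ≤ 1 := by
    intro l h5
    have h6 : (5 : ℝ) ≤ l := by exact_mod_cast h5
    rw [div_le_one (by positivity)]
    nlinarith
  have hbox := cube_box (ι := Ix n ⊕ Ix n) F (fun l => l ^ 2)
    (fun l hl => pow_pos (hSmem l hl).2.pos 2)
    (fun l hl l' hl' hne => Nat.Coprime.pow 2 2
      ((Nat.coprime_primes (hSmem l hl).2 (hSmem l' hl').2).2 hne))
    (fun l v => BadZ (s l) l (symM fun p => v (Sum.inl p))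
      ((symM fun p => v (Sum.inr p)) - r l • (symM fun p => v (Sum.inl p))))
    (fun l _ t t' h => badZ_congr (s l) l (r l) t t' h)
    (fun l => 1 / (B * (l : ℝ)))
    (fun l hl => hpow l (hSmem l hl).1)
    (fun l hl => by
      have h1 := badZ_count hn he l (hSmem l hl).2 (hSmem l hl).1 (s l) (hs l) (r l)
      have hl0 : (l : ℝ) ≠ 0 := by exact_mod_cast (hSmem l hl).2.ne_zero
      have h2 : (1 / (B * (l : ℝ))) * (((l ^ 2 : ℕ) : ℝ)) ^ Fintype.card (Ix n ⊕ Ix n) =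
          (l : ℝ) ^ (2 * (n * (n + 1)) - 1) / 2 ^ (2 * n + 3) := by
        rw [hcard, ← hN]
        push_cast
        rw [← pow_mul]
        obtain ⟨q, hq⟩ : ∃ q, 2 * N = q + 1 := ⟨2 * N - 1, by omega⟩
        rw [hq, Nat.add_sub_cancel, ← hB, pow_succ]
        field_simp
      rw [h2]
      refine h1.trans (Nat.cast_le.2 (Finset.card_le_card ?_))
      intro t ht
      exact (@Finset.mem_filter _ _ (_) _ _).2 ((@Finset.mem_filter _ _ (_) _ _).1 ht))
    (fun _ => -⌊D⌋) (fun _ => L)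
  refine le_trans (Nat.cast_le.2 (Finset.card_le_card ?_)) (hbox.trans ?_)
  · intro t ht
    have ht1 := (@Finset.mem_filter _ _ (_) _ _).1 ht
    refine (@Finset.mem_filter _ _ (_) _ _).2 ⟨Fintype.mem_piFinset.2 fun i => ?_, fun l hl => ?_⟩
    · have := Fintype.mem_piFinset.1 ht1.1 i
      rw [mem_Icc] at this
      rw [mem_Ico, hLz]
      omega
    · exact ht1.2 l (hSmem l hl).2 (hSmem l hl).1 (hSmem' l hl)
  have h1 : (∏ _i : Ix n ⊕ Ix n, ((L : ℝ) + M)) ≤ (3 * D) ^ N := by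
    rw [Finset.prod_const, Finset.card_univ, hcard]
    exact pow_le_pow_left₀ (by positivity) (by linarith) _
  have h2 : ∏ l ∈ F, (1 - 1 / (B * (l : ℝ))) ≤ ε / 3 ^ N := by
    calc ∏ l ∈ F, (1 - 1 / (B * (l : ℝ))) ≤ ∏ l ∈ F, Real.exp (-(1 / (B * (l : ℝ)))) := by
          refine Finset.prod_le_prod (fun l hl => ?_) (fun l _ => ?_)
          · have := hpow l (hSmem l hl).1
            linarith
          · have := Real.add_one_le_exp (-(1 / (B * (l : ℝ))))
            linarith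
      _ = Real.exp (-((∑ l ∈ F, (1 : ℝ) / l) / B)) := by
          rw [← Real.exp_sum]
          congr 1
          rw [Finset.sum_neg_distrib, Finset.sum_div]
          congr 1
          refine Finset.sum_congr rfl fun l _ => ?_
          rw [div_div, mul_comm]
      _ ≤ Real.exp (-(Real.log (3 ^ N / ε))) := by
          apply Real.exp_le_exp.2
          rw [neg_le_neg_iff, le_div_iff₀ hB0, mul_comm]
          exact hz
      _ = ε / 3 ^ N := by
          rw [Real.exp_neg, Real.exp_log (by positivity), inv_div]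
  have h3 : 0 ≤ ∏ l ∈ F, (1 - 1 / (B * (l : ℝ))) :=
    Finset.prod_nonneg fun l hl => by
      have := hpow l (hSmem l hl).1
      linarith
  calc (∏ _i : Ix n ⊕ Ix n, ((L : ℝ) + M)) * ∏ l ∈ F, (1 - 1 / (B * (l : ℝ)))
      ≤ (3 * D) ^ N * (ε / 3 ^ N) := mul_le_mul h1 h2 h3 (by positivity)
    _ = ε * D ^ N := by
        rw [mul_pow]
        field_simp

end Stoll308.FQ
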