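import Pool.Agent.Work.MP_308fa9_nt.FQ.Basic
import Pool.Agent.Work.MP_308fa9_nt.DQ.ElsD

set_option autoImplicit false

/-!
The primes larger than the parameters.
-/

namespace Stoll308.FQ

open Polynomial Finset BG BF DQ

/-- If `f` divides `q` modulo `p` then `p` divides the determinants (`DQ.RD_dvd` for small
degrees). -/
private theorem rd_dvd {n m : ℕ} (hn : 1 ≤ n) (hnm : n ≤ m) (p : ℕ) [Fact p.Prime]
    (a : Fin (n + 1) → ℤ) (b : Fin (m + 1) → ℤ)
    (h : GZ (AlgebraicClosure (ZMod p)) a ∣ GZ (AlgebraicClosure (ZMod p)) b) (c : ℕ)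
    (hc : m - n + 1 ≤ c) (hcm : c ≤ m) (ha : ¬ (p : ℤ) ∣ a 0) : (p : ℤ) ∣ RD a b c := by
  obtain ⟨k, hk⟩ := h
  have ha' : ((a 0 : ℤ) : AlgebraicClosure (ZMod p)) ≠ 0 := by
    rw [Ne, BG.PEls.cast_eq_zero (p := p)]
    exact ha
  have hfn : (GZ (AlgebraicClosure (ZMod p)) a).natDegree = n := by
    apply natDegree_eq_of_le_of_coeff_ne_zero (BF.Els.gz_natDegree_le _)
    rw [BF.Els.gz_coeff _ le_rfl]
    have e : (⟨n - n, by omega⟩ : Fin (n + 1)) = 0 := by
      apply Fin.ext
      simp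
    rw [e]
    exact ha'
  have hf0 : GZ (AlgebraicClosure (ZMod p)) a ≠ 0 := by
    intro h0
    rw [h0, natDegree_zero] at hfn
    omega
  have hkd : k.natDegree ≤ m - n := by
    by_cases hk0 : k = 0
    · rw [hk0, natDegree_zero]
      omega
    · have h1 := congrArg natDegree hk
      rw [natDegree_mul hf0 hk0, hfn] at h1
      have h2 : (GZ (AlgebraicClosure (ZMod p)) b).natDegree ≤ m := BF.Els.gz_natDegree_le _
      omega
  have key : ∀ s ≤ m, ((BG.Els.bet b (s + 1) : ℤ) : AlgebraicClosure (ZMod p)) =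
      ∑ i ∈ range (m - n + 1), k.coeff (m - n - i) *
        (if i ≤ s then ((BG.Els.bet a (s - i + 1) : ℤ) : AlgebraicClosure (ZMod p)) else 0) := by
    intro s hs
    rw [← coeff_shift hnm a k hkd s hs, ← hk, cast_bet, if_pos hs]
  rw [← BG.PEls.cast_eq_zero (K := AlgebraicClosure (ZMod p)), RD]
  have e1 := RingHom.map_det (Int.castRingHom (AlgebraicClosure (ZMod p)))
    (Matrix.of fun (i j : Fin (m - n + 2)) =>
      if (i : ℕ) < m - n + 1 then
        (if (j : ℕ) < m - n + 1 then
          (if (i : ℕ) ≤ j then BG.Els.bet a ((j : ℕ) - i + 1) else 0) else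
          BG.Els.bet a (c - i + 1)) else
        (if (j : ℕ) < m - n + 1 then BG.Els.bet b ((j : ℕ) + 1) else BG.Els.bet b (c + 1)))
  rw [eq_intCast] at e1
  rw [e1, ← Matrix.exists_vecMul_eq_zero_iff]
  refine ⟨fun i => if (i : ℕ) < m - n + 1 then k.coeff (m - n - i) else -1, ?_, ?_⟩
  · intro h0
    have h1 := congrFun h0 (Fin.last _)
    simp at h1
  · funext j
    rw [Matrix.vecMul, dotProduct, Fin.sum_univ_castSucc]
    simp only [RingHom.mapMatrix_apply, Matrix.map_apply, Matrix.of_apply, Fin.val_castSucc,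
      Fin.val_last, lt_irrefl, if_false, Pi.zero_apply]
    have h2 : ∀ i : Fin (m - n + 1), (i : ℕ) < m - n + 1 := fun i => i.2
    simp only [h2, if_true]
    by_cases hj : (j : ℕ) < m - n + 1
    · simp only [hj, if_true, eq_intCast]
      rw [key j (by omega), Fin.sum_univ_eq_sum_range (fun i => k.coeff (m - n - i) *
        (((if i ≤ (j : ℕ) then BG.Els.bet a ((j : ℕ) - i + 1) else 0 : ℤ)) :
          AlgebraicClosure (ZMod p))) (m - n + 1), neg_one_mul, ← sub_eq_add_neg, sub_eq_zero]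
      apply sum_congr rfl
      intro i _
      split_ifs
      · rfl
      · rw [Int.cast_zero]
    · simp only [hj, if_false, eq_intCast]
      rw [key c hcm, Fin.sum_univ_eq_sum_range (fun i => k.coeff (m - n - i) *
        ((BG.Els.bet a (c - i + 1) : ℤ) : AlgebraicClosure (ZMod p))) (m - n + 1), neg_one_mul,
        ← sub_eq_add_neg, sub_eq_zero]
      apply sum_congr rfl
      intro i hi
      rw [mem_range] at hi
      rw [if_pos (by omega)]

open Classical in
theorem card_T4 (n m : ℕ) (hn : 4 ≤ n) (hm : 2 ≤ m) (b : Fin (m + 1) → ℤ) (h0 : b 0 ≠ 0) (M : ℕ)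
    (hM : 0 < M) :
    ∃ (C : ℝ) (h₀ : ℕ), ∀ h : ℕ, h₀ ≤ h →
      (((BF.Els.box (n + 1) h).filter fun t =>
        ∃ (p : ℕ) (_ : Fact p.Prime), h < p ∧ p ≠ 2 ∧ ¬ p ∣ M ∧
          Squarefree (GZ (AlgebraicClosure (ZMod p)) b) ∧
          DQ.Sq2 (AlgebraicClosure (ZMod p)) (BF.Els.co (M : ℤ) t) b).card : ℝ) ≤
        C * (h : ℝ) ^ n := by
  have hMz : (0 : ℤ) < M := by exact_mod_cast hM
  refine ⟨(n : ℝ) + 5, (n - m + 2).factorial * (2 * M) ^ (n - m + 2) + 1 + ∑ i, (b i).natAbs,
    fun h hh => ?_⟩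
  set S := (BF.Els.box (n + 1) h).filter fun t =>
        ∃ (p : ℕ) (_ : Fact p.Prime), h < p ∧ p ≠ 2 ∧ ¬ p ∣ M ∧
          Squarefree (GZ (AlgebraicClosure (ZMod p)) b) ∧
          DQ.Sq2 (AlgebraicClosure (ZMod p)) (BF.Els.co (M : ℤ) t) b with hS
  have hh1 : 1 ≤ h := by omega
  have hbh : ∀ i, |b i| ≤ h := by
    intro i
    have h1 : (b i).natAbs ≤ ∑ i, (b i).natAbs :=
      single_le_sum (f := fun i => (b i).natAbs) (fun _ _ => Nat.zero_le _) (mem_univ i)
    have h2 : (b i).natAbs ≤ h := by omega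
    rw [← Int.natCast_natAbs]
    exact_mod_cast h2
  -- sizes
  have hco : ∀ t : Fin (n + 1) → ℤ, t ∈ BF.Els.box (n + 1) h → ∀ i,
      |BF.Els.co (M : ℤ) t i| ≤ 2 * M * h := by
    intro t ht i
    have h1 := BF.Els.pos_of_box ht i
    have h2 : (M : ℤ) * 1 ≤ M * t i := mul_le_mul_of_nonneg_left h1.1 hMz.le
    have h3 : (M : ℤ) * t i ≤ M * h := mul_le_mul_of_nonneg_left h1.2 hMz.le
    have h5 : (1 : ℤ) ≤ h := by exact_mod_cast hh1
    have h6 : (M : ℤ) * 1 ≤ M * h := mul_le_mul_of_nonneg_left h5 hMz.le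
    unfold BF.Els.co
    rw [abs_le]
    constructor
    · split_ifs <;> linarith
    · split_ifs <;> linarith
  have hbB : ∀ i, |b i| ≤ 2 * M * h := by
    intro i
    have h1 := hbh i
    have h5 : (0 : ℤ) ≤ h := by positivity
    have h6 : (1 : ℤ) * h ≤ M * h := mul_le_mul_of_nonneg_right (by omega) h5
    linarith
  -- the first coefficients
  have hz : ∀ t : Fin (n + 1) → ℤ, t ∈ BF.Els.box (n + 1) h →
      ∀ p : ℕ, p.Prime → h < p → ¬ p ∣ M → ¬ (p : ℤ) ∣ BF.Els.co (M : ℤ) t 0 := by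
    intro t ht p hp hhp hpM hd
    rw [BF.Els.co_lt _ t (by rw [Fin.val_zero]; omega)] at hd
    rcases (Nat.prime_iff_prime_int.1 hp).dvd_or_dvd hd with h1 | h1
    · exact hpM (by exact_mod_cast h1)
    · have h2 := BF.Els.pos_of_box ht 0
      have h3 := Int.le_of_dvd (by linarith [h2.1]) h1
      have h4 : ((p : ℕ) : ℤ) > h := by exact_mod_cast hhp
      linarith [h2.2]
  have hzb : ∀ p : ℕ, h < p → ¬ (p : ℤ) ∣ b 0 := by
    intro p hhp hd
    have h4 : ((p : ℕ) : ℤ) > h := by exact_mod_cast hhp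
    exact h0 (Int.eq_zero_of_abs_lt_dvd hd (lt_of_le_of_lt (hbh 0) h4))
  -- the polynomials
  have hdeg : ∀ {N : ℕ} (a : Fin (N + 1) → ℤ) (p : ℕ) [Fact p.Prime],
      ¬ (p : ℤ) ∣ a 0 → (GZ (AlgebraicClosure (ZMod p)) a).natDegree = N := by
    intro N a p _ ha
    apply natDegree_eq_of_le_of_coeff_ne_zero (BF.Els.gz_natDegree_le _)
    rw [BF.Els.gz_coeff _ le_rfl]
    have h1 : ((a 0 : ℤ) : AlgebraicClosure (ZMod p)) ≠ 0 := by
      rw [Ne, BG.PEls.cast_eq_zero (p := p)]
      exact ha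
    have e : (⟨N - N, by omega⟩ : Fin (N + 1)) = 0 := by
      apply Fin.ext
      simp
    rw [e]
    exact h1
  have hdvd : ∀ t ∈ S, ∃ (p : ℕ) (_ : Fact p.Prime), h < p ∧ ¬ p ∣ M ∧
      GZ (AlgebraicClosure (ZMod p)) b ∣ GZ (AlgebraicClosure (ZMod p)) (BF.Els.co (M : ℤ) t) := by
    intro t ht
    rw [hS, mem_filter] at ht
    obtain ⟨ht1, p, hp, hhp, hp2, hpM, hsf, c, s, hsq⟩ := ht
    refine ⟨p, hp, hhp, hpM, ?_⟩
    apply dvd_of_sq2 _ _ hsf hsf.ne_zero _ ⟨c, s, by rw [mul_comm]; exact hsq⟩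
    intro h1
    have h2 := hdeg (BF.Els.co (M : ℤ) t) p (hz t ht1 p hp.out hhp hpM)
    rw [h1, natDegree_zero] at h2
    omega
  rcases lt_or_ge n m with hnm | hnm
  · have hemp : S = ∅ := by
      rw [eq_empty_iff_forall_notMem]
      intro t ht
      obtain ⟨p, hp, hhp, hpM, hd⟩ := hdvd t ht
      rw [hS, mem_filter] at ht
      have h1 := hdeg b p (hzb p hhp)
      have h2 := hdeg (BF.Els.co (M : ℤ) t) p (hz t ht.1 p hp.out hhp hpM)
      have h3 := natDegree_le_of_dvd hd (by
        intro h0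
        rw [h0, natDegree_zero] at h2
        omega)
      omega
    rw [hemp, card_empty, Nat.cast_zero]
    positivity
  -- the two parts
  set A := (BF.Els.box (n + 1) h).filter fun t =>
    RD b (BF.Els.co (M : ℤ) t) (n - 1) = 0 with hA
  set B := (BF.Els.box (n + 1) h).filter fun t =>
    RD b (BF.Els.co (M : ℤ) t) (n - 1) ≠ 0 ∧
      ∃ p : ℕ, p.Prime ∧ h < p ∧ ¬ p ∣ M ∧
        (p : ℤ) ∣ RD b (BF.Els.co (M : ℤ) t) (n - 1) ∧
        (p : ℤ) ∣ RD b (BF.Els.co (M : ℤ) t) n with hB
  have hsub : S ⊆ A ∪ B := by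
    intro t ht
    obtain ⟨p, hp, hhp, hpM, hd⟩ := hdvd t ht
    rw [hS, mem_filter] at ht
    rw [mem_union]
    by_cases h0 : RD b (BF.Els.co (M : ℤ) t) (n - 1) = 0
    · left
      rw [hA, mem_filter]
      exact ⟨ht.1, h0⟩
    · right
      rw [hB, mem_filter]
      exact ⟨ht.1, h0, p, hp.out, hhp, hpM,
        rd_dvd (by omega) hnm p _ _ hd (n - 1) (by omega) (by omega) (hzb p hhp),
        rd_dvd (by omega) hnm p _ _ hd n (by omega) le_rfl (hzb p hhp)⟩
  have hAb : A ⊆ BF.Els.box (n + 1) h := by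
    rw [hA]; exact filter_subset _ _
  have hBb : B ⊆ BF.Els.box (n + 1) h := by
    rw [hB]; exact filter_subset _ _
  set u : Fin (n + 1) := ⟨n - 1, by omega⟩ with hu
  have hcA : (A.card : ℝ) ≤ (h : ℝ) ^ n * 1 := by
    have h1 := BF.Els.card_le_free {u} A hAb zero_le_one (by
      intro x hx
      have h2 : (A.filter fun y => ∀ i, i ∉ ({u} : Finset (Fin (n + 1))) → y i = x i).card ≤
          1 := by
        rw [card_le_one]
        have key : ∀ y ∈ A.filter fun y => ∀ i, i ∉ ({u} : Finset (Fin (n + 1))) → y i = x i,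
            y = x := by
          intro y hy
          rw [mem_filter] at hy
          obtain ⟨hyA, hy2⟩ := hy
          rw [hA, mem_filter] at hyA hx
          have hoff : ∀ i, i ≠ u → y i = x i := fun i hi => hy2 i (by rwa [mem_singleton])
          have hsub := RD_sub hnm b (BF.Els.co (M : ℤ) y)
            (BF.Els.co (M : ℤ) x) (n - 1) (by omega) (by omega) (by
            intro i hi
            unfold BF.Els.co
            rw [hoff i (by
              intro h0
              have := congrArg Fin.val h0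
              simp only [hu] at this
              omega)])
          rw [hyA.2, hx.2, sub_self] at hsub
          have h3 := (mul_eq_zero.1 hsub.symm).resolve_left (pow_ne_zero _ h0)
          have h4 : y u = x u := BF.Els.co_inj hMz.ne' (sub_eq_zero.1 h3)
          funext i
          by_cases hi : i = u
          · rw [hi]
            exact h4
          · exact hoff i hi
        intro y hy y' hy'
        rw [key y hy, key y' hy']
      exact_mod_cast h2)
    rw [card_singleton, Nat.add_sub_cancel] at h1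
    exact h1
  have hR : ∀ x ∈ B, (RD b (BF.Els.co (M : ℤ) x) (n - 1)).natAbs < h ^ (n - m + 3) := by
    intro x hx
    have h1 := RD_bound b (BF.Els.co (M : ℤ) x) (n - 1)
      (by positivity : (0 : ℤ) ≤ 2 * M * h) hbB (hco _ (hBb hx))
    have h2 : ((RD b (BF.Els.co (M : ℤ) x) (n - 1)).natAbs : ℤ) ≤
        (((n - m + 2).factorial * (2 * M * h) ^ (n - m + 2) : ℕ) : ℤ) := by
      rw [Int.natCast_natAbs]
      push_cast
      exact h1
    have h3 := Int.ofNat_le.1 h2
    refine lt_of_le_of_lt h3 ?_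
    rw [mul_pow, ← mul_assoc, pow_succ h (n - m + 2), mul_comm (h ^ (n - m + 2)) h]
    exact Nat.mul_lt_mul_of_pos_right (by omega) (pow_pos (by omega) _)
  have hcB : (B.card : ℝ) ≤ (h : ℝ) ^ n * ((n - m + 3 : ℕ) : ℝ) := by
    have h1 := BF.Els.card_le_free {Fin.last n} B hBb (Nat.cast_nonneg (n - m + 3)) (by
      intro x hx
      have hxB := hx
      rw [hB, mem_filter] at hx
      obtain ⟨hb₀, hR₀, -⟩ := hx
      set P : (Fin (n + 1) → ℤ) → ℕ := fun x =>
        if hp : ∃ p : ℕ, p.Prime ∧ h < p ∧ ¬ p ∣ M ∧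
          (p : ℤ) ∣ RD b (BF.Els.co (M : ℤ) x) (n - 1) ∧
          (p : ℤ) ∣ RD b (BF.Els.co (M : ℤ) x) n then hp.choose
        else 0 with hP
      have hPspec : ∀ x ∈ B, (P x).Prime ∧ h < P x ∧ ¬ P x ∣ M ∧
          ((P x : ℕ) : ℤ) ∣ RD b (BF.Els.co (M : ℤ) x) (n - 1) ∧
          ((P x : ℕ) : ℤ) ∣ RD b (BF.Els.co (M : ℤ) x) n := by
        intro x hx
        rw [hB, mem_filter] at hx
        simp only [hP]
        rw [dif_pos hx.2.2]
        exact hx.2.2.choose_spec
      have hsame : ∀ y z : Fin (n + 1) → ℤ,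
          (∀ i, i ∉ ({Fin.last n} : Finset (Fin (n + 1))) → y i = z i) →
          ∀ i : Fin (n + 1), (i : ℕ) ≤ n - 1 →
            BF.Els.co (M : ℤ) y i = BF.Els.co (M : ℤ) z i := by
        intro y z hyz i hi
        unfold BF.Els.co
        rw [hyz i (by
          rw [mem_singleton]
          intro h0
          rw [h0, Fin.val_last] at hi
          omega)]
      have h2 : (B.filter fun y =>
          ∀ i, i ∉ ({Fin.last n} : Finset (Fin (n + 1))) → y i = x i).card ≤
          ((RD b (BF.Els.co (M : ℤ) x) (n - 1)).natAbs.primeFactors.filter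
            fun p => h < p).card := by
        apply card_le_card_of_injOn P
        · intro y hy
          rw [mem_coe, mem_filter] at hy
          obtain ⟨q1, q2, -, q5, -⟩ := hPspec y hy.1
          rw [RD_eq_of hnm _ _ (BF.Els.co (M : ℤ) x) (n - 1) (by omega) (by omega)
            (hsame y x hy.2)] at q5
          rw [mem_coe, mem_filter, Nat.mem_primeFactors]
          refine ⟨⟨q1, ?_, Int.natAbs_ne_zero.2 hR₀⟩, q2⟩
          have := Int.natAbs_dvd_natAbs.2 q5
          rwa [Int.natAbs_natCast] at this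
        · intro y hy y' hy' hPP
          rw [mem_coe, mem_filter] at hy hy'
          obtain ⟨q1, q2, q4, -, q6⟩ := hPspec y hy.1
          obtain ⟨-, -, -, -, q6'⟩ := hPspec y' hy'.1
          rw [← hPP] at q6'
          have hb := hBb hy.1
          have hb' := hBb hy'.1
          have hyy : ∀ i, i ∉ ({Fin.last n} : Finset (Fin (n + 1))) → y i = y' i :=
            fun i hi => (hy.2 i hi).trans (hy'.2 i hi).symm
          have h3 := RD_sub hnm b (BF.Els.co (M : ℤ) y)
            (BF.Els.co (M : ℤ) y') n (by omega) le_rfl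
            (fun i hi => hsame y y' hyy i (by omega))
          have h4 := dvd_sub q6 q6'
          rw [h3] at h4
          have hpr := Nat.prime_iff_prime_int.1 q1
          have h5 : ¬ ((P y : ℕ) : ℤ) ∣ (b 0) ^ (n - m + 1) := fun h6 =>
            hzb (P y) q2 (hpr.dvd_of_dvd_pow h6)
          have h6 := BF.Els.dvd_of_co q1 (by exact_mod_cast q4)
            ((hpr.dvd_or_dvd h4).resolve_left h5)
          have h7 : y (Fin.last n) = y' (Fin.last n) := by
            have h8 := BF.Els.pos_of_box hb (Fin.last n)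
            have h9 := BF.Els.pos_of_box hb' (Fin.last n)
            have h10 : ((P y : ℕ) : ℤ) > h := by exact_mod_cast q2
            have h11 := Int.eq_zero_of_abs_lt_dvd h6 (by
              have e : (⟨n, by omega⟩ : Fin (n + 1)) = Fin.last n := rfl
              rw [e, abs_lt]
              constructor <;> linarith [h8.1, h8.2, h9.1, h9.2])
            have e : (⟨n, by omega⟩ : Fin (n + 1)) = Fin.last n := rfl
            rw [e] at h11
            linarith
          funext i
          by_cases hi : i = Fin.last n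
          · rw [hi]
            exact h7
          · exact hyy i (by rwa [mem_singleton])
      have h3 := h2.trans (BF.Els.card_large (Int.natAbs_pos.2 hR₀) (hR x hxB))
      exact_mod_cast h3)
    rw [card_singleton, Nat.add_sub_cancel] at h1
    exact h1
  have h1 : (S.card : ℝ) ≤ A.card + B.card := by
    exact_mod_cast (card_le_card hsub).trans (card_union_le _ _)
  have h2 : ((n - m + 3 : ℕ) : ℝ) ≤ n + 4 := by
    have : n - m + 3 ≤ n + 4 := by omega
    exact_mod_cast this
  have h4 : (0 : ℝ) ≤ (h : ℝ) ^ n := by positivity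
  nlinarith

end Stoll308.FQ
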