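import Pool.Agent.Work.MP_308fa9_nt.FQ.ElsS
import Pool.Agent.Work.MP_308fa9_nt.FQ.ElsE
import Pool.Agent.Work.MP_308fa9_nt.DQ.ElsA
import Pool.Agent.Work.MP_308fa9_nt.DQ.ElsPt

set_option autoImplicit false

/-!
A positive proportion is everywhere locally soluble, if `q(0)` is a local square at the small places.
-/

namespace Stoll308.FQ

open Polynomial Finset BG BF DQ

namespace ElsAux

lemma co_last {n : ℕ} (M : ℤ) (t : Fin (n + 1) → ℤ) :
    BF.Els.co M t (Fin.last n) = M * t (Fin.last n) + 1 := by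
  unfold BF.Els.co
  rw [if_pos (Fin.val_last n)]

lemma coeff_gz {m : ℕ} {K : Type*} [Field K] (b : Fin (m + 1) → ℤ) (i : Fin (m + 1)) :
    (GZ K b).coeff (m - i) = (b i : K) := by
  unfold GZ gpol
  rw [finsetSum_coeff, Finset.sum_eq_single i]
  · rw [coeff_C_mul, coeff_X_pow_self, mul_one]
  · intro j _ hj
    rw [coeff_C_mul, coeff_X_pow, if_neg, mul_zero]
    intro h
    apply hj
    apply Fin.ext
    have h1 := i.2
    have h2 := j.2
    omega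
  · intro h
    exact absurd (mem_univ _) h

/-- The polynomial `q` is not a constant times a square modulo the large primes. -/
lemma gz_ne_sq {m : ℕ} (hm : 2 ≤ m) {p : ℕ} [hp : Fact p.Prime] {b : Fin (m + 1) → ℤ}
    (hb : Squarefree (GZ (AlgebraicClosure (ZMod p)) b))
    (hb' : ¬ ((p : ℤ) ∣ b 0 ∧ (p : ℤ) ∣ b 1)) (e : ZMod p) (s : (ZMod p)[X]) :
    GZ (ZMod p) b ≠ C e * s ^ 2 := by
  intro he
  have h4 := congrArg (Polynomial.map (algebraMap (ZMod p) (AlgebraicClosure (ZMod p)))) he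
  rw [ElsPtAux.gz_cast, Polynomial.map_mul, map_C, Polynomial.map_pow] at h4
  have hu : IsUnit (s.map (algebraMap (ZMod p) (AlgebraicClosure (ZMod p)))) := by
    apply hb
    rw [h4]
    exact ⟨C (algebraMap (ZMod p) (AlgebraicClosure (ZMod p)) e), by ring⟩
  have hd : (GZ (AlgebraicClosure (ZMod p)) b).natDegree = 0 := by
    have h5 : (GZ (AlgebraicClosure (ZMod p)) b).natDegree ≤ 0 := by
      rw [h4]
      refine (natDegree_C_mul_le _ _).trans ?_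
      refine natDegree_pow_le.trans ?_
      rw [natDegree_eq_zero_of_isUnit hu, mul_zero]
    omega
  have hc : ∀ i : Fin (m + 1), (i : ℕ) < m → (p : ℤ) ∣ b i := by
    intro i hi
    have h5 := coeff_gz (K := AlgebraicClosure (ZMod p)) b i
    rw [coeff_eq_zero_of_natDegree_lt (by rw [hd]; omega)] at h5
    exact (BG.PEls.cast_eq_zero (p := p) (K := AlgebraicClosure (ZMod p)) (b i)).1 h5.symm
  apply hb'
  refine ⟨hc 0 (by rw [Fin.val_zero]; omega), hc 1 ?_⟩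
  have h1 : ((1 : Fin (m + 1)) : ℕ) = 1 := by
    rw [Fin.val_one']
    exact Nat.mod_eq_of_lt (by omega)
  omega

/-- A local point at a large prime. -/
lemma point_big {n m : ℕ} (hm : 2 ≤ m) {p : ℕ} [hp : Fact p.Prime] (hp2 : p ≠ 2)
    (hbig : (2 * (n + m) + 4) ^ 2 ≤ p) {a : Fin (n + 1) → ℤ} {b : Fin (m + 1) → ℤ}
    (h1 : ¬ BF.Els.SqK (AlgebraicClosure (ZMod p)) a)
    (hb : Squarefree (GZ (AlgebraicClosure (ZMod p)) b))
    (hb' : ¬ ((p : ℤ) ∣ b 0 ∧ (p : ℤ) ∣ b 1))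
    (h3 : ¬ Sq2 (AlgebraicClosure (ZMod p)) a b) : DQ.HasPoint a b ℚ_[p] := by
  have hsq : ∀ e s, GZ (ZMod p) a ≠ C e * s ^ 2 := by
    intro e s he
    apply h1
    have h4 := congrArg (fun g => expand (AlgebraicClosure (ZMod p)) (2 * 1)
      (Polynomial.map (algebraMap (ZMod p) (AlgebraicClosure (ZMod p))) g)) he
    simp only [ElsPtAux.gz_cast, Polynomial.map_mul, map_C, Polynomial.map_pow, map_mul, map_pow,
      expand_C] at h4
    exact ⟨_, _, h4⟩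
  obtain ⟨x, y, z, hy, hz, hxy, hxz⟩ := exists_two_sq hp2 (GZ (ZMod p) a) (GZ (ZMod p) b) (by
      refine le_trans ?_ hbig
      have d1 : (GZ (ZMod p) a).natDegree ≤ n := BF.Els.gz_natDegree_le _
      have d2 : (GZ (ZMod p) b).natDegree ≤ m := BF.Els.gz_natDegree_le _
      exact Nat.pow_le_pow_left (by omega) 2) hsq (gz_ne_sq hm hb hb') (by
      intro e s he
      apply h3
      have h4 := congrArg
        (Polynomial.map (algebraMap (ZMod p) (AlgebraicClosure (ZMod p)))) he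
      rw [Polynomial.map_mul, ElsPtAux.gz_cast, ElsPtAux.gz_cast, Polynomial.map_mul, map_C,
        Polynomial.map_pow] at h4
      exact ⟨_, _, h4⟩)
  obtain ⟨u, hu⟩ := ZMod.ringHom_surjective (PadicInt.toZMod : ℤ_[p] →+* ZMod p) x
  obtain ⟨w, hw⟩ := ElsPtAux.lift hp2 a u hu hy hxy
  obtain ⟨w', hw'⟩ := ElsPtAux.lift hp2 b u hu hz hxz
  exact Or.inl ⟨u, w, w', hw, hw'⟩

/-- A local point at a small prime. -/
lemma point_small {n m : ℕ} {p : ℕ} [hp : Fact p.Prime] {a : Fin (n + 1) → ℤ}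
    {b : Fin (m + 1) → ℤ} (h1 : ((8 * p : ℕ) : ℤ) ∣ a (Fin.last n) - 1)
    (h2 : IsSquare ((b (Fin.last m) : ℤ) : ℚ_[p])) : DQ.HasPoint a b ℚ_[p] := by
  obtain ⟨w, hw⟩ := BG.Els.isSquare_padic (p := p) h1
  obtain ⟨w', hw'⟩ := h2
  exact Or.inl ⟨0, w, w', by rw [hw, ElsPtAux.gz_zero], by rw [ElsPtAux.gz_zero, hw', sq]⟩

lemma not_dvd_M {Q M p : ℕ} (hMdef : M = 8 * Q.factorial) (hpp : p.Prime) (hp2 : 2 < p)
    (hpQ : Q < p) : ¬ p ∣ M := by
  intro h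
  rw [hMdef] at h
  rcases (hpp.dvd_mul).1 h with h | h
  · have h2 : p ∣ 2 ^ 3 := by norm_num; exact h
    have := Nat.le_of_dvd (by norm_num) (hpp.dvd_of_dvd_pow h2)
    omega
  · have := (hpp.dvd_factorial).1 h
    omega

open Classical in
/-- The parameters outside of the exceptional sets give everywhere locally soluble curves. -/
lemma els_of_good {n m : ℕ} (hm : 2 ≤ m) {Q h M : ℕ} (hMdef : M = 8 * Q.factorial)
    (hQ : (2 * (n + m) + 4) ^ 2 + 128 ≤ Q) {t : Fin (n + 1) → ℤ} {b : Fin (m + 1) → ℤ}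
    (hx1 : t ∈ GB n Q h)
    (k1 : ∀ (p : ℕ) [Fact p.Prime], p ≤ Q → IsSquare ((b (Fin.last m) : ℤ) : ℚ_[p]))
    (k2 : 0 < b (Fin.last m))
    (k3 : ∀ (p : ℕ) [Fact p.Prime], Q < p → Squarefree (GZ (AlgebraicClosure (ZMod p)) b) ∧
      ¬ ((p : ℤ) ∣ b 0 ∧ (p : ℤ) ∣ b 1))
    (h3 : ∀ p : ℕ, p.Prime → Q < p → p ≤ h → t ∉ T3 n b (M : ℤ) h p)
    (h4 : ¬ ∃ (p : ℕ) (_ : Fact p.Prime), h < p ∧ p ≠ 2 ∧ ¬ p ∣ M ∧
          Squarefree (GZ (AlgebraicClosure (ZMod p)) b) ∧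
          DQ.Sq2 (AlgebraicClosure (ZMod p)) (BF.Els.co (M : ℤ) t) b) :
    DQ.ELS (BF.Els.co (M : ℤ) t) b := by
  unfold GB at hx1
  rw [mem_filter, ← hMdef] at hx1
  obtain ⟨hb1, hg1⟩ := hx1
  have hM : 0 < M := by
    rw [hMdef]
    exact Nat.mul_pos (by norm_num) (Nat.factorial_pos _)
  refine ⟨?_, point_real (co_size hM hb1 _).1 k2⟩
  intro p hp
  have hpp : p.Prime := hp.out
  by_cases hpQ : p ≤ Q
  · have hd : ((8 * p : ℕ) : ℤ) ∣ (M : ℤ) := by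
      rw [Int.natCast_dvd_natCast, hMdef]
      exact Nat.mul_dvd_mul_left 8 (Nat.dvd_factorial hpp.pos hpQ)
    apply point_small _ (k1 p hpQ)
    rw [co_last, add_sub_cancel_right]
    exact Dvd.dvd.mul_right hd _
  · push Not at hpQ
    have hp2 : p ≠ 2 := by omega
    have hpM : ¬ p ∣ M := not_dvd_M hMdef hpp (by omega) hpQ
    obtain ⟨g1, g2⟩ := hg1 p hpQ
    obtain ⟨g3, g4⟩ := k3 p hpQ
    apply point_big hm hp2 (by omega) g2 g3 g4
    intro hsq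
    by_cases hph : p ≤ h
    · apply h3 p hpp hpQ hph
      unfold T3
      rw [mem_filter]
      exact ⟨hb1, hp, hsq⟩
    · push Not at hph
      exact h4 ⟨p, hp, hph, hp2, hpM, g3, hsq⟩

/-- The sum over the primes `Q < p ≤ h`. -/
lemma card_T3_sum {n m : ℕ} (hn : 4 ≤ n) (he : Even n) (hm : 2 ≤ m) {Q h M : ℕ}
    (hMdef : M = 8 * Q.factorial) (hQ : 128 ≤ Q) (hhQ : Q < h) {b : Fin (m + 1) → ℤ}
    (k3 : ∀ (p : ℕ) [Fact p.Prime], Q < p → Squarefree (GZ (AlgebraicClosure (ZMod p)) b) ∧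
      ¬ ((p : ℤ) ∣ b 0 ∧ (p : ℤ) ∣ b 1)) :
    ((((Ioc Q h).filter Nat.Prime).biUnion fun p => T3 n b (M : ℤ) h p).card : ℝ) ≤
      (h : ℝ) ^ (n + 1) / 32 := by
  classical
  have h2 := card_biUnion_le (s := (Ioc Q h).filter Nat.Prime)
    (t := fun p => T3 n b (M : ℤ) h p)
  have h3 : ((((Ioc Q h).filter Nat.Prime).biUnion fun p => T3 n b (M : ℤ) h p).card : ℝ) ≤
      ∑ p ∈ (Ioc Q h).filter Nat.Prime, ((T3 n b (M : ℤ) h p).card : ℝ) := by exact_mod_cast h2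
  have h4 : ∑ p ∈ (Ioc Q h).filter Nat.Prime, ((T3 n b (M : ℤ) h p).card : ℝ) ≤
      ∑ p ∈ Ioc Q h, 4 * (h : ℝ) ^ (n + 1) * ((p : ℝ) ^ 2)⁻¹ := by
    refine (sum_le_sum fun p hp => ?_).trans
      (sum_le_sum_of_subset_of_nonneg (filter_subset _ _) fun p _ _ => by positivity)
    rw [mem_filter, mem_Ioc] at hp
    obtain ⟨⟨hp1, hp2⟩, hpp⟩ := hp
    have : Fact p.Prime := ⟨hpp⟩
    have hp0 : (0 : ℝ) < p := by exact_mod_cast hpp.pos
    have hpM : ¬ (p : ℤ) ∣ (M : ℤ) := by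
      rw [Int.natCast_dvd_natCast]
      exact not_dvd_M hMdef hpp (by omega) hp1
    obtain ⟨g1, g2⟩ := k3 p hp1
    have h5 := card_T3 (n := n) hn he hm b (M := (M : ℤ)) (h := h) (by omega) hpM g1 g2
    have h6 : (1 : ℝ) ≤ (h : ℝ) / p := by
      rw [le_div_iff₀ hp0, one_mul]
      exact_mod_cast hp2
    have h7 : ((h : ℝ) / p + 1) ^ 2 ≤ 4 * ((h : ℝ) ^ 2 * ((p : ℝ) ^ 2)⁻¹) := by
      have h8 : ((h : ℝ) / p + 1) ^ 2 ≤ (2 * ((h : ℝ) / p)) ^ 2 :=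
        pow_le_pow_left₀ (by positivity) (by linarith) 2
      calc _ ≤ _ := h8
        _ = 4 * ((h : ℝ) ^ 2 * ((p : ℝ) ^ 2)⁻¹) := by
            rw [mul_pow, div_pow, div_eq_mul_inv]
            ring
    have h9 : (h : ℝ) ^ (n + 1) = (h : ℝ) ^ (n - 1) * (h : ℝ) ^ 2 := by
      rw [← pow_add]
      congr 1
      omega
    calc ((T3 n b (M : ℤ) h p).card : ℝ)
        ≤ (h : ℝ) ^ (n - 1) * ((h : ℝ) / p + 1) ^ 2 := h5
      _ ≤ (h : ℝ) ^ (n - 1) * (4 * ((h : ℝ) ^ 2 * ((p : ℝ) ^ 2)⁻¹)) := by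
          gcongr
      _ = 4 * (h : ℝ) ^ (n + 1) * ((p : ℝ) ^ 2)⁻¹ := by
          rw [h9]
          ring
  have h5 : ∑ p ∈ Ioc Q h, (((p : ℕ) : ℝ) ^ 2)⁻¹ ≤ 1 / 128 := by
    have hsum := sum_Ioc_inv_sq_le_sub (α := ℝ) (k := Q) (n := h) (by omega) hhQ.le
    have h4 : (0 : ℝ) ≤ (((h : ℕ) : ℕ) : ℝ)⁻¹ := by positivity
    have hQ16 : (128 : ℝ) ≤ Q := by exact_mod_cast hQ
    have h5 : (Q : ℝ)⁻¹ ≤ 1 / 128 := by
      rw [one_div]
      exact inv_anti₀ (by norm_num) hQ16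
    linarith
  refine h3.trans (h4.trans ?_)
  rw [← mul_sum]
  calc 4 * (h : ℝ) ^ (n + 1) * ∑ p ∈ Ioc Q h, (((p : ℕ) : ℝ) ^ 2)⁻¹
      ≤ 4 * (h : ℝ) ^ (n + 1) * (1 / 128) := mul_le_mul_of_nonneg_left h5 (by positivity)
    _ = (h : ℝ) ^ (n + 1) / 32 := by ring

end ElsAux

open ElsAux

theorem els_core (n m : ℕ) (hn : 4 ≤ n) (he : Even n) (hm : 2 ≤ m) (hem : Even m) (Q : ℕ)
    (hQ : (2 * (n + m) + 4) ^ 2 + 128 ≤ Q) (b : Fin (m + 1) → ℤ) (h0 : b 0 ≠ 0)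
    (h1 : ∀ (p : ℕ) [Fact p.Prime], p ≤ Q → IsSquare ((b (Fin.last m) : ℤ) : ℚ_[p]))
    (h2 : 0 < b (Fin.last m))
    (h3 : ∀ (p : ℕ) [Fact p.Prime], Q < p → Squarefree (GZ (AlgebraicClosure (ZMod p)) b) ∧
      ¬ ((p : ℤ) ∣ b 0 ∧ (p : ℤ) ∣ b 1)) :
    ∃ c₀ : ℝ, 0 < c₀ ∧ ∃ H₀ : ℕ, ∀ H : ℕ, H₀ ≤ H →
      c₀ * H ^ (n + 1) ≤ (BF.cnt n (fun a => DQ.ELS a b) H : ℝ) := by
  classical
  obtain ⟨M, hMdef⟩ : ∃ M : ℕ, M = 8 * Q.factorial := ⟨_, rfl⟩
  have hM : 0 < M := by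
    rw [hMdef]
    exact Nat.mul_pos (by norm_num) (Nat.factorial_pos _)
  have hMz : (0 : ℤ) < (M : ℤ) := by exact_mod_cast hM
  have hM0 : (0 : ℝ) < M := by exact_mod_cast hM
  obtain ⟨k₁, hk1⟩ := good_box n hn he Q (by omega)
  obtain ⟨C₄, k₄, hk4⟩ := card_T4 n m hn hm b h0 M hM
  obtain ⟨C', hC'⟩ : ∃ C' : ℕ, C' = ⌈32 * C₄⌉₊ := ⟨_, rfl⟩
  obtain ⟨K, hK⟩ : ∃ K : ℕ, K = k₁ + k₄ + Q + C' + 2 := ⟨_, rfl⟩
  refine ⟨1 / (4 * (4 * M) ^ (n + 1)), by positivity, 4 * M * K, ?_⟩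
  intro H hH
  obtain ⟨h, hh⟩ : ∃ h : ℕ, h = H / M - 1 := ⟨_, rfl⟩
  have hHM : 4 * K ≤ H / M := by
    rw [Nat.le_div_iff_mul_le hM]
    calc _ = 4 * M * K := by ring
      _ ≤ H := hH
  have hKh : K ≤ h := by omega
  have hh1 : 1 ≤ h := by omega
  have hh1' : (1 : ℝ) ≤ h := by exact_mod_cast hh1
  have hMh : M * (h + 1) ≤ H := by
    have : h + 1 = H / M := by omega
    rw [this]
    exact Nat.mul_div_le H M
  have hhH : (H : ℝ) / (4 * M) ≤ h := by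
    have h1 : H < M * (H / M + 1) := Nat.lt_mul_div_succ H hM
    have h2 : H / M + 1 ≤ 4 * h := by omega
    have h3 : H ≤ M * (4 * h) := h1.le.trans (Nat.mul_le_mul_left _ h2)
    rw [div_le_iff₀ (by positivity)]
    have h4 : (H : ℝ) ≤ M * (4 * h) := by exact_mod_cast h3
    linarith
  -- the exceptional sets
  set G := GB n Q h with hG
  set T₃ := ((Ioc Q h).filter Nat.Prime).biUnion fun p => T3 n b (M : ℤ) h p with hT3
  set T₄ := (BF.Els.box (n + 1) h).filter fun t =>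
        ∃ (p : ℕ) (_ : Fact p.Prime), h < p ∧ p ≠ 2 ∧ ¬ p ∣ M ∧
          Squarefree (GZ (AlgebraicClosure (ZMod p)) b) ∧
          DQ.Sq2 (AlgebraicClosure (ZMod p)) (BF.Els.co (M : ℤ) t) b with hT4
  have hGbox : ∀ t ∈ G, t ∈ BF.Els.box (n + 1) h := by
    intro t ht
    rw [hG] at ht
    unfold GB at ht
    exact (mem_filter.1 ht).1
  set bad := T₃ ∪ T₄ with hbad
  have hgood : ∀ t ∈ G \ bad, DQ.ELS (BF.Els.co (M : ℤ) t) b := by
    intro t ht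
    rw [mem_sdiff, hbad, mem_union, not_or] at ht
    obtain ⟨hx1, q3, q4⟩ := ht
    refine els_of_good hm hMdef hQ hx1 h1 h2 h3 ?_ ?_
    · intro p hp h1 h2 h3
      apply q3
      rw [hT3, mem_biUnion]
      exact ⟨p, mem_filter.2 ⟨mem_Ioc.2 ⟨h1, h2⟩, hp⟩, h3⟩
    · intro h1
      apply q4
      rw [hT4, mem_filter]
      exact ⟨hGbox t hx1, h1⟩
  -- the injection
  have hinj : ((G \ bad).card : ℝ) ≤ (BF.cnt n (fun a => DQ.ELS a b) H : ℝ) := by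
    unfold BF.cnt
    have h1 : (G \ bad).card ≤
        ((Fintype.piFinset fun _ : Fin (n + 1) => Icc (-(H : ℤ)) (H : ℤ)).filter
            fun a => DQ.ELS a b).card := by
      apply card_le_card_of_injOn (fun t => BF.Els.co (M : ℤ) t)
      · intro t ht
        rw [mem_coe] at ht
        have hb1 := hGbox t (mem_sdiff.1 ht).1
        have h3 : (M : ℤ) * (h + 1) ≤ H := by exact_mod_cast hMh
        rw [mem_coe, mem_filter, Fintype.mem_piFinset]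
        refine ⟨fun i => ?_, hgood t ht⟩
        have h2 := co_size hM hb1 i
        rw [mem_Icc]
        constructor <;> linarith [h2.1, h2.2]
      · intro t _ t' _ htt
        funext i
        exact BF.Els.co_inj hMz.ne' (congrFun htt i)
    exact_mod_cast h1
  -- the count
  have hcard : (G.card : ℝ) ≤ ((G \ bad).card : ℝ) + ((T₃.card : ℝ) + (T₄.card : ℝ)) := by
    have h1 : G ⊆ (G \ bad) ∪ bad := by
      intro t ht
      rw [mem_union, mem_sdiff]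
      by_cases h : t ∈ bad
      · exact Or.inr h
      · exact Or.inl ⟨ht, h⟩
    have h2 := (card_le_card h1).trans ((card_union_le _ _).trans
      (Nat.add_le_add_left (card_union_le _ _) _))
    exact_mod_cast h2
  have hGc : (h : ℝ) ^ (n + 1) / 2 ≤ (G.card : ℝ) := hk1 h (by omega)
  have hc3 : (T₃.card : ℝ) ≤ (h : ℝ) ^ (n + 1) / 32 :=
    card_T3_sum hn he hm hMdef (by omega) (by omega) h3
  have hc4 : (T₄.card : ℝ) ≤ (h : ℝ) ^ (n + 1) / 32 := by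
    refine (hk4 h (by omega)).trans ?_
    have h1 : 32 * C₄ ≤ h := by
      have h2 : 32 * C₄ ≤ C' := by
        rw [hC']
        exact Nat.le_ceil _
      have h3 : (C' : ℝ) ≤ h := by exact_mod_cast (by omega : C' ≤ h)
      linarith
    have h2 : (h : ℝ) ^ (n + 1) = h * (h : ℝ) ^ n := by ring
    rw [h2]
    have h3 : (0 : ℝ) < (h : ℝ) ^ n := by positivity
    calc C₄ * (h : ℝ) ^ n ≤ h / 32 * (h : ℝ) ^ n := by
          gcongr
          linarith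
      _ = h * (h : ℝ) ^ n / 32 := by ring
  have hmain : (h : ℝ) ^ (n + 1) / 4 ≤ ((G \ bad).card : ℝ) := by
    have h5 : (0 : ℝ) ≤ (h : ℝ) ^ (n + 1) := by positivity
    linarith
  refine le_trans ?_ (hmain.trans hinj)
  have h1 : ((H : ℝ) / (4 * M)) ^ (n + 1) ≤ (h : ℝ) ^ (n + 1) :=
    pow_le_pow_left₀ (by positivity) hhH _
  rw [div_pow] at h1
  calc 1 / (4 * (4 * (M : ℝ)) ^ (n + 1)) * (H : ℝ) ^ (n + 1)
      = (H : ℝ) ^ (n + 1) / (4 * M) ^ (n + 1) / 4 := by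
        field_simp
    _ ≤ (h : ℝ) ^ (n + 1) / 4 := by linarith

end Stoll308.FQ
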