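import Pool.Agent.Work.MP_308fa9_nt.FQ.Basic
import Pool.Agent.Work.MP_308fa9_nt.DQ.Scale
import Pool.Agent.Work.MP_308fa9_nt.DQ.ElsC

set_option autoImplicit false

/-!
The polynomial `q` remains squarefree modulo almost all primes.
-/

namespace Stoll308.FQ

open Polynomial Finset BF

theorem sqf_primes {m : ℕ} (b : Fin (m + 1) → ℤ) (h0 : b 0 ≠ 0) (hsq : Squarefree (GZ ℚ b)) :
    ∃ Q : ℕ, ∀ (p : ℕ) [Fact p.Prime], Q < p →
      ¬ (p : ℤ) ∣ b 0 ∧ Squarefree (GZ (AlgebraicClosure (ZMod p)) b) := by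
  have hmap : ∀ (R : Type) [CommRing R], (GZ ℤ b).map (Int.castRingHom R) = GZ R b := by
    intro R _
    simp [GZ, gpol, Polynomial.map_sum]
  have hsep : (GZ ℚ b).Separable := PerfectField.separable_iff_squarefree.2 hsq
  have hc : IsCoprime ((GZ ℤ b).map (Int.castRingHom ℚ))
      ((derivative (GZ ℤ b)).map (Int.castRingHom ℚ)) := by
    rw [← derivative_map, hmap]
    exact hsep
  obtain ⟨N, U, V, hN, h⟩ := DQ.sc_bezout (GZ ℤ b) (derivative (GZ ℤ b)) hc
  refine ⟨(N * b 0).natAbs, fun p hp hQ => ?_⟩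
  have hNb : ¬ (p : ℤ) ∣ N * b 0 := by
    intro hd
    have h1 := Int.natAbs_dvd_natAbs.2 hd
    rw [Int.natAbs_natCast] at h1
    have h2 := Nat.le_of_dvd (Int.natAbs_pos.2 (mul_ne_zero hN h0)) h1
    omega
  refine ⟨fun hd => hNb (Dvd.dvd.mul_left hd _), ?_⟩
  have hN' : ((N : ℤ) : AlgebraicClosure (ZMod p)) ≠ 0 := by
    intro h1
    apply hNb
    refine Dvd.dvd.mul_right ?_ _
    exact (CharP.intCast_eq_zero_iff (AlgebraicClosure (ZMod p)) p N).1 h1
  have h3 := congrArg (Polynomial.map (Int.castRingHom (AlgebraicClosure (ZMod p)))) h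
  rw [Polynomial.map_add, Polynomial.map_mul, Polynomial.map_mul, ← derivative_map, hmap,
    Polynomial.map_C] at h3
  have hs : (GZ (AlgebraicClosure (ZMod p)) b).Separable := by
    refine ⟨C ((N : AlgebraicClosure (ZMod p))⁻¹) *
      U.map (Int.castRingHom (AlgebraicClosure (ZMod p))),
      C ((N : AlgebraicClosure (ZMod p))⁻¹) *
      V.map (Int.castRingHom (AlgebraicClosure (ZMod p))), ?_⟩
    rw [mul_assoc, mul_assoc, ← mul_add, h3, ← C_mul, eq_intCast, inv_mul_cancel₀ hN', C_1]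
  exact hs.squarefree

end Stoll308.FQ
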