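import Pool.Agent.Work.MP_308fa9_nt.FQ.Act
import Pool.Agent.Work.MP_308fa9_nt.FQ.Approx
import Pool.Agent.Work.MP_308fa9_nt.FQ.Primes
import Pool.Agent.Work.MP_308fa9_nt.FQ.ElsCore

set_option autoImplicit false

/-!
A positive proportion of the double covers is everywhere locally soluble.
-/

namespace Stoll308.FQ

open Polynomial Finset BG BF DQ

/-- A matrix with the given second column and nonzero leading coefficient. -/
private lemma exists_mat {m : ℕ} (b : Fin (m + 1) → ℤ) {x z : ℤ} (hxz : IsCoprime x z)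
    (hF : ∑ i : Fin (m + 1), b i * x ^ (m - (i : ℕ)) * z ^ (i : ℕ) ≠ 0) :
    ∃ p r : ℤ, p * z - x * r = 1 ∧
      ∑ i : Fin (m + 1), b i * p ^ (m - (i : ℕ)) * r ^ (i : ℕ) ≠ 0 := by
  obtain ⟨u, v, huv⟩ := hxz
  set P : ℚ[X] := GZ ℚ (act x v z (-u) b) with hP
  have hP0 : P ≠ 0 := by
    intro h
    have h1 := congrArg (fun g : ℚ[X] => g.coeff m) h
    simp only [coeff_zero] at h1
    rw [hP, BF.Els.gz_coeff _ le_rfl] at h1
    have e : (⟨m - m, by omega⟩ : Fin (m + 1)) = 0 := by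
      apply Fin.ext
      simp
    rw [e, act_zero] at h1
    exact hF (by exact_mod_cast h1)
  have hk : ∃ k : ℤ, P.eval (k : ℚ) ≠ 0 := by
    by_contra hcon
    push Not at hcon
    apply hP0
    apply Polynomial.eq_zero_of_infinite_isRoot
    apply (Set.infinite_range_of_injective (Int.cast_injective (α := ℚ))).mono
    rintro _ ⟨k, rfl⟩
    exact hcon k
  obtain ⟨k, hk⟩ := hk
  refine ⟨v + k * x, -u + k * z, by linear_combination huv, ?_⟩
  rw [hP, act_eval] at hk
  intro h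
  apply hk
  have h1 := congrArg (fun y : ℤ => (y : ℚ)) h
  push_cast at h1
  rw [← h1]
  apply sum_congr rfl
  intro i _
  push_cast
  ring

/-- A lower bound for the integer part of a quotient. -/
private lemma div_floor {H C : ℕ} (hC : 0 < C) (h7 : 2 * C ≤ H) :
    (H : ℝ) / (2 * C) ≤ ((H / C : ℕ) : ℝ) := by
  have hCr : (0 : ℝ) < C := by exact_mod_cast hC
  have h5 : H < C * (H / C) + C := by
    have := Nat.lt_mul_div_succ H hC
    rw [mul_add, mul_one] at this
    exact this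
  have h6 : (H : ℝ) < C * ((H / C : ℕ) : ℝ) + C := by exact_mod_cast h5
  have h8 : 2 * (C : ℝ) ≤ H := by exact_mod_cast h7
  rw [div_le_iff₀ (by positivity)]
  calc (H : ℝ) ≤ 2 * (C * ((H / C : ℕ) : ℝ)) := by linarith
    _ = ((H / C : ℕ) : ℝ) * (2 * C) := by ring

theorem els_many (n m : ℕ) (hn : 4 ≤ n) (he : Even n) (hm : 2 ≤ m) (hem : Even m)
    (b : Fin (m + 1) → ℤ) (h0 : b 0 ≠ 0) (hsq : Squarefree (GZ ℚ b)) (hloc : BaseELS b) :
    ∃ c₀ : ℝ, 0 < c₀ ∧ ∃ H₀ : ℕ, ∀ H : ℕ, H₀ ≤ H →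
      c₀ * H ^ (n + 1) ≤ (BF.cnt n (fun a => DQ.ELS a b) H : ℝ) := by
  classical
  obtain ⟨Q₁, hQ₁⟩ := sqf_primes b h0 hsq
  set Q : ℕ := Q₁ + ((2 * (n + m) + 4) ^ 2 + 128) with hQ
  obtain ⟨x, z, hxz, hloc1, hpos⟩ := exists_value hm hem b h0 hsq hloc Q
  obtain ⟨p, r, hdet, hlead⟩ := exists_mat b hxz hpos.ne'
  have hcore := els_core n m hn he hm hem Q (by omega) (act p x r z b)
    (by rw [act_zero]; exact hlead)
    (by
      intro l _ hl
      rw [act_last]
      exact hloc1 l hl)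
    (by rw [act_last]; exact hpos)
    (by
      intro l _ hl
      obtain ⟨h1, h2⟩ := hQ₁ l (by omega)
      exact act_sqf (by omega) p x r z hdet b l h1 h2)
  obtain ⟨c, hc, H₁, hH₁⟩ := hcore
  have hdet' : z * p - -x * -r = 1 := by linear_combination hdet
  obtain ⟨C, hC, hbound⟩ := act_bound n z (-x) (-r) p
  have hinv : ∀ a : Fin (n + 1) → ℤ, act p x r z (act z (-x) (-r) p a) = a := by
    intro a
    have h1 := act_inv z (-x) (-r) p hdet' a
    rw [neg_neg, neg_neg] at h1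
    exact h1
  -- the comparison of the counting functions
  have hcmp : ∀ H H' : ℕ, C * H ≤ H' →
      BF.cnt n (fun a => DQ.ELS a (act p x r z b)) H ≤ BF.cnt n (fun a => DQ.ELS a b) H' := by
    intro H H' hHH
    unfold BF.cnt
    apply card_le_card_of_injOn (act z (-x) (-r) p)
    · intro a ha
      rw [mem_coe, mem_filter, Fintype.mem_piFinset] at ha ⊢
      refine ⟨fun i => ?_, ?_⟩
      · have h1 := hbound H a (fun i => by
          have := mem_Icc.1 (ha.1 i)
          exact abs_le.2 this) i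
        have h2 : ((C * H : ℕ) : ℤ) ≤ (H' : ℤ) := by exact_mod_cast hHH
        rw [mem_Icc]
        exact abs_le.1 (h1.trans h2)
      · apply act_els he hem p x r z hdet
        rw [hinv]
        exact ha.2
    · intro a _ a' _ haa
      rw [← hinv a, ← hinv a', haa]
  refine ⟨c / (2 * C) ^ (n + 1), by positivity, C * (H₁ + 2), fun H hH => ?_⟩
  have hCH : C * (H / C) ≤ H := Nat.mul_div_le H C
  have h1 : H₁ ≤ H / C := by
    rw [Nat.le_div_iff_mul_le hC, mul_comm]
    calc C * H₁ ≤ C * (H₁ + 2) := Nat.mul_le_mul_left _ (by omega)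
      _ ≤ H := hH
  have h2 := hH₁ (H / C) h1
  have h3 : (BF.cnt n (fun a => DQ.ELS a (act p x r z b)) (H / C) : ℝ) ≤
      (BF.cnt n (fun a => DQ.ELS a b) H : ℝ) := by
    exact_mod_cast hcmp _ _ hCH
  refine le_trans ?_ (h2.trans h3)
  have hCr : (0 : ℝ) < C := by exact_mod_cast hC
  have h4 : (H : ℝ) / (2 * C) ≤ ((H / C : ℕ) : ℝ) := by
    apply div_floor hC
    calc 2 * C = C * 2 := mul_comm _ _
      _ ≤ C * (H₁ + 2) := Nat.mul_le_mul_left _ (by omega)
      _ ≤ H := hH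
  have h9 : ((H : ℝ) / (2 * C)) ^ (n + 1) ≤ ((H / C : ℕ) : ℝ) ^ (n + 1) :=
    pow_le_pow_left₀ (by positivity) h4 _
  have h10 : c / (2 * C) ^ (n + 1) * (H : ℝ) ^ (n + 1) = c * ((H : ℝ) / (2 * C)) ^ (n + 1) := by
    rw [div_pow]
    field_simp
  rw [h10]
  exact mul_le_mul_of_nonneg_left h9 hc.le

end Stoll308.FQ
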