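import Pool.Agent.Work.MP_308fa9_nt.FQ.Basic
import Pool.Agent.Work.MP_308fa9_nt.DQ.ElsB

set_option autoImplicit false

/-!
The polynomials `f` with `f q` a constant times a square modulo a prime, `q` fixed.
-/

namespace Stoll308.FQ

open Polynomial Finset BG BF DQ

open Classical in
/-- The parameters with `f q` a constant times a square modulo `p`. -/
noncomputable def T3 (n : ℕ) {m : ℕ} (b : Fin (m + 1) → ℤ) (M : ℤ) (h p : ℕ) :
    Finset (Fin (n + 1) → ℤ) :=
  (BF.Els.box (n + 1) h).filter fun t =>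
    ∃ _ : Fact p.Prime, DQ.Sq2 (AlgebraicClosure (ZMod p)) (BF.Els.co M t) b

/-- `q` divides `f` if `q` is squarefree and `f q` is a constant times a square. -/
lemma t3_dvd {n m : ℕ} {K : Type*} [Field K] {a : Fin (n + 1) → ℤ} {b : Fin (m + 1) → ℤ}
    (hb : Squarefree (GZ K b)) (h : DQ.Sq2 K a b) : GZ K b ∣ GZ K a := by
  by_cases hf : GZ K a = 0
  · rw [hf]
    exact dvd_zero _
  · obtain ⟨c, s, hs⟩ := h
    exact dvd_of_sq2 _ _ hb hb.ne_zero hf ⟨c, s, by rw [mul_comm]; exact hs⟩

/-- If `q` has degree one then the leading coefficient of `f` vanishes. -/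
lemma t3_zero {n m : ℕ} {K : Type*} [Field K] (he : Even n) {a : Fin (n + 1) → ℤ}
    {b : Fin (m + 1) → ℤ} (hb : (GZ K b).natDegree = 1) (h : DQ.Sq2 K a b) :
    ((a 0 : ℤ) : K) = 0 := by
  by_contra h0
  have hcoef : (GZ K a).coeff n = ((a 0 : ℤ) : K) := by
    rw [BF.Els.gz_coeff _ le_rfl]
    congr 2
    apply Fin.ext
    simp
  have hn : (GZ K a).natDegree = n :=
    natDegree_eq_of_le_of_coeff_ne_zero (BF.Els.gz_natDegree_le _) (by rwa [hcoef])
  have hf : GZ K a ≠ 0 := by
    intro hh
    rw [hh, coeff_zero] at hcoef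
    exact h0 hcoef.symm
  have hq : GZ K b ≠ 0 := by
    intro hh
    rw [hh, natDegree_zero] at hb
    omega
  obtain ⟨c, s, hs⟩ := h
  have hc : c ≠ 0 := by
    rintro rfl
    rw [C_0, zero_mul] at hs
    exact mul_ne_zero hf hq hs
  have h1 := congrArg natDegree hs
  rw [natDegree_mul hf hq, natDegree_C_mul hc, natDegree_pow, hn, hb] at h1
  obtain ⟨k, hk⟩ := he
  omega

theorem card_T3 {n m : ℕ} (hn : 4 ≤ n) (he : Even n) (hm : 2 ≤ m) (b : Fin (m + 1) → ℤ) {M : ℤ}
    {h p : ℕ} [hp : Fact p.Prime] (hp2 : p ≠ 2) (hpM : ¬ (p : ℤ) ∣ M)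
    (hb : Squarefree (GZ (AlgebraicClosure (ZMod p)) b))
    (hb' : ¬ ((p : ℤ) ∣ b 0 ∧ (p : ℤ) ∣ b 1)) :
    ((T3 n b M h p).card : ℝ) ≤ (h : ℝ) ^ (n - 1) * ((h : ℝ) / p + 1) ^ 2 := by
  classical
  have hbox : T3 n b M h p ⊆ BF.Els.box (n + 1) h := filter_subset _ _
  have hsq : ∀ t ∈ T3 n b M h p,
      DQ.Sq2 (AlgebraicClosure (ZMod p)) (BF.Els.co M t) b := by
    intro t ht
    rw [T3, mem_filter] at ht
    obtain ⟨-, _, h1⟩ := ht
    exact h1
  have hdeg : 1 ≤ (GZ (AlgebraicClosure (ZMod p)) b).natDegree := by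
    have h1 : ∃ i : Fin (m + 1), (i : ℕ) ≤ 1 ∧ ((b i : ℤ) : AlgebraicClosure (ZMod p)) ≠ 0 := by
      by_cases h0 : (p : ℤ) ∣ b 0
      · refine ⟨1, ?_, ?_⟩
        · rw [Fin.val_one', Nat.mod_eq_of_lt (by omega)]
        · rw [Ne, BG.PEls.cast_eq_zero (p := p)]
          exact fun h1 => hb' ⟨h0, h1⟩
      · refine ⟨0, by rw [Fin.val_zero]; omega, ?_⟩
        rw [Ne, BG.PEls.cast_eq_zero (p := p)]
        exact h0
    obtain ⟨i, hi, hbi⟩ := h1
    have h2 : (GZ (AlgebraicClosure (ZMod p)) b).coeff (m - i) = ((b i : ℤ) : _) := by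
      rw [BF.Els.gz_coeff _ (Nat.sub_le _ _)]
      congr 2
      apply Fin.ext
      simp only
      omega
    have h3 : m - (i : ℕ) ≤ (GZ (AlgebraicClosure (ZMod p)) b).natDegree :=
      le_natDegree_of_ne_zero (by rwa [h2])
    omega
  have key : ∀ t ∈ T3 n b M h p, ∀ t' ∈ T3 n b M h p,
      (GZ (AlgebraicClosure (ZMod p)) (BF.Els.co M t) -
        GZ (AlgebraicClosure (ZMod p)) (BF.Els.co M t')).natDegree <
        (GZ (AlgebraicClosure (ZMod p)) b).natDegree → ∀ i, (p : ℤ) ∣ t i - t' i := by
    intro t ht t' ht' hd i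
    have h0 : GZ (AlgebraicClosure (ZMod p)) (BF.Els.co M t) -
        GZ (AlgebraicClosure (ZMod p)) (BF.Els.co M t') = 0 := by
      by_contra hne
      have := natDegree_le_of_dvd
        (dvd_sub (t3_dvd hb (hsq t ht)) (t3_dvd hb (hsq t' ht'))) hne
      omega
    apply BF.Els.dvd_of_co hp.out hpM
    have hi := i.2
    have h3 := congrArg (fun g : (AlgebraicClosure (ZMod p))[X] => g.coeff (n - i)) h0
    simp only [coeff_sub, coeff_zero] at h3
    rw [BF.Els.gz_coeff _ (Nat.sub_le _ _), BF.Els.gz_coeff _ (Nat.sub_le _ _)] at h3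
    have h4 : (⟨n - (n - (i : ℕ)), by omega⟩ : Fin (n + 1)) = i := by
      apply Fin.ext
      simp only
      omega
    rw [h4] at h3
    rw [← BG.PEls.cast_eq_zero (K := AlgebraicClosure (ZMod p))]
    push_cast
    exact h3
  rcases Nat.lt_or_ge 1 (GZ (AlgebraicClosure (ZMod p)) b).natDegree with hd1 | hd1
  · set u : Fin (n + 1) := ⟨n - 1, by omega⟩ with hu
    set w : Fin (n + 1) := ⟨n, by omega⟩ with hw
    have huw : u ≠ w := by
      intro h0
      have := congrArg Fin.val h0
      simp only [hu, hw] at this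
      omega
    have hc : ({u, w} : Finset (Fin (n + 1))).card = 2 := card_pair huw
    have h1 := BF.Els.card_le_mod (h := h) hp.out.pos {u, w} (T3 n b M h p) hbox (by
      intro t ht t' ht' htt i _
      apply key t ht t' ht' (lt_of_le_of_lt ?_ hd1)
      rw [natDegree_le_iff_coeff_eq_zero]
      intro N hN
      rw [coeff_sub, sub_eq_zero]
      by_cases hNn : N ≤ n
      · have h4 : t ⟨n - N, by omega⟩ = t' ⟨n - N, by omega⟩ := by
          apply htt
          rw [mem_insert, mem_singleton, not_or]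
          constructor
          · intro h0
            have := congrArg Fin.val h0
            simp only [hu] at this
            omega
          · intro h0
            have := congrArg Fin.val h0
            simp only [hw] at this
            omega
        rw [BF.Els.gz_coeff _ hNn, BF.Els.gz_coeff _ hNn]
        simp only [BF.Els.co, h4]
      · rw [BF.Els.gz_coeff_gt _ (by omega), BF.Els.gz_coeff_gt _ (by omega)])
    rw [hc] at h1
    exact h1
  · have hd : (GZ (AlgebraicClosure (ZMod p)) b).natDegree = 1 := le_antisymm hd1 hdeg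
    have hz : ∀ t ∈ T3 n b M h p, (p : ℤ) ∣ BF.Els.co M t 0 := by
      intro t ht
      rw [← BG.PEls.cast_eq_zero (K := AlgebraicClosure (ZMod p))]
      exact t3_zero he hd (hsq t ht)
    set u : Fin (n + 1) := 0 with hu
    set w : Fin (n + 1) := ⟨n, by omega⟩ with hw
    have huw : u ≠ w := by
      intro h0
      have := congrArg Fin.val h0
      simp only [hu, hw, Fin.val_zero] at this
      omega
    have hc : ({u, w} : Finset (Fin (n + 1))).card = 2 := card_pair huw
    have h1 := BF.Els.card_le_mod (h := h) hp.out.pos {u, w} (T3 n b M h p) hbox (by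
      intro t ht t' ht' htt i _
      apply key t ht t' ht'
      rw [hd, Nat.lt_one_iff, ← Nat.le_zero, natDegree_le_iff_coeff_eq_zero]
      intro N hN
      rw [coeff_sub, sub_eq_zero]
      by_cases hNn : N ≤ n
      · rw [BF.Els.gz_coeff _ hNn, BF.Els.gz_coeff _ hNn]
        by_cases hN' : N = n
        · have h5 : (⟨n - N, by omega⟩ : Fin (n + 1)) = 0 := by
            apply Fin.ext
            rw [Fin.val_zero]
            simp only
            omega
          rw [h5, (BG.PEls.cast_eq_zero (p := p) _).2 (hz t ht),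
            (BG.PEls.cast_eq_zero (p := p) _).2 (hz t' ht')]
        · have h4 : t ⟨n - N, by omega⟩ = t' ⟨n - N, by omega⟩ := by
            apply htt
            rw [mem_insert, mem_singleton, not_or]
            constructor
            · intro h0
              have := congrArg Fin.val h0
              simp only [hu, Fin.val_zero] at this
              omega
            · intro h0
              have := congrArg Fin.val h0
              simp only [hw] at this
              omega
          simp only [BF.Els.co, h4]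
      · rw [BF.Els.gz_coeff_gt _ (by omega), BF.Els.gz_coeff_gt _ (by omega)])
    rw [hc] at h1
    exact h1

end Stoll308.FQ
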