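import Pool.Agent.Work.MP_308fa9_nt.FQ.Basic
import Pool.Agent.Work.MP_308fa9_nt.DQ.Pair

set_option autoImplicit false

/-!
The integral pair for a fixed polynomial.
-/

namespace Stoll308.FQ

open Polynomial Finset Matrix BG BF SC DQ

namespace PairQAux

open BF.PairEx SC.PairE SC.Loc2

lemma exists_scale2 {K : Type*} [Field K] {n : ℕ} (hn : 2 ≤ n) {a : K} (ha : a ≠ 0) :
    ∃ e c : K, e ≠ 0 ∧ c ≠ 0 ∧ e ^ 2 * a ^ (n - 2) = c := by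
  rcases Nat.even_or_odd n with ⟨m, hm⟩ | ⟨m, hm⟩
  · refine ⟨(a ^ (m - 1))⁻¹, 1, inv_ne_zero (pow_ne_zero _ ha), one_ne_zero, ?_⟩
    have h : n - 2 = (m - 1) * 2 := by omega
    rw [h, pow_mul, ← mul_pow, inv_mul_cancel₀ (pow_ne_zero _ ha), one_pow]
  · refine ⟨(a ^ (m - 1))⁻¹, a, inv_ne_zero (pow_ne_zero _ ha), ha, ?_⟩
    have h : n - 2 = (m - 1) * 2 + 1 := by omega
    rw [h, pow_succ a, pow_mul, ← mul_assoc, ← mul_pow, inv_mul_cancel₀ (pow_ne_zero _ ha),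
      one_pow, one_mul]

theorem loc_two2 {n : ℕ} (hn : 2 ≤ n) (p : ℕ) [Fact p.Prime] (a : Fin (n + 1) → ℤ)
    (h0 : a 0 ≠ 0) (δ : ℚ_[p][X]) (hδ : IsCoprime δ (GZ ℚ_[p] a)) :
    ∃ G : Matrix (Fin n) (Fin n) ℚ_[p], G.det ≠ 0 ∧
      (∀ i j, ‖(G * ((a 0 : ℚ_[p])⁻¹ • Hank n (mon ℚ_[p] a) δ) * Gᵀ) i j‖ ≤ 1) ∧
      (∀ i j, ‖(G * Hank n (mon ℚ_[p] a) (X * δ) * Gᵀ) i j‖ ≤ 1) ∧
      ((p : ℝ) ^ n)⁻¹ ≤
        ‖(G * ((a 0 : ℚ_[p])⁻¹ • Hank n (mon ℚ_[p] a) δ) * Gᵀ).det‖ := by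
  have ha : (a 0 : ℚ_[p]) ≠ 0 := by exact_mod_cast h0
  obtain ⟨e, c, he, hc, hec⟩ := exists_scale2 hn ha
  set α : ℚ_[p] := (a 0 : ℚ_[p]) with hα
  -- the polynomial `δ'`
  set δ' : ℚ_[p][X] := C c * δ.comp (C α⁻¹ * X) with hδ'
  have hcomp : δ'.comp (C α * X) = C c * δ := by
    rw [hδ', mul_comp, C_comp, comp_assoc]
    congr 1
    rw [mul_comp, C_comp, X_comp, ← mul_assoc, ← C_mul, inv_mul_cancel₀ ha, C_1, one_mul, comp_X]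
  have hF : toQ (FZ ℤ_[p] (OF.mcf a)) = FZ ℚ_[p] (OF.mcf a) := FZ_map _ _
  have hcop : IsCoprime δ' (toQ (FZ ℤ_[p] (OF.mcf a))) := by
    rw [hF]
    have h1 : FZ ℚ_[p] (OF.mcf a) =
        (C (α ^ n) * mon ℚ_[p] a).comp (C α⁻¹ * X) := by
      rw [← OF.FZ_mcf_comp (by omega) a ha, comp_assoc]
      have : (C (a 0 : ℚ_[p]) * X).comp (C α⁻¹ * X) = X := by
        rw [mul_comp, C_comp, X_comp, ← mul_assoc, ← C_mul, ← hα, mul_inv_cancel₀ ha, C_1, one_mul]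
      rw [this, comp_X]
    obtain ⟨u, v, huv⟩ := hδ
    refine ⟨C c⁻¹ * u.comp (C α⁻¹ * X), C (α * (α ^ n)⁻¹) * v.comp (C α⁻¹ * X), ?_⟩
    have h2 := congrArg (fun q : ℚ_[p][X] => q.comp (C α⁻¹ * X)) huv
    simp only [add_comp, mul_comp, one_comp] at h2
    have h3 : (mon ℚ_[p] a) = C α⁻¹ * GZ ℚ_[p] a := rfl
    rw [h1, hδ', h3, mul_comp, mul_comp, C_comp, C_comp, ← h2]
    have h4 : (C c⁻¹ : ℚ_[p][X]) * C c = 1 := by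
      rw [← C_mul, inv_mul_cancel₀ hc, C_1]
    have h5 : (C (α * (α ^ n)⁻¹) : ℚ_[p][X]) * (C (α ^ n) * C α⁻¹) = 1 := by
      rw [← C_mul, ← C_mul]
      have : α * (α ^ n)⁻¹ * (α ^ n * α⁻¹) = 1 := by
        field_simp
      rw [this, C_1]
    linear_combination (u.comp (C α⁻¹ * X) * δ.comp (C α⁻¹ * X)) * h4 +
      (v.comp (C α⁻¹ * X) * (GZ ℚ_[p] a).comp (C α⁻¹ * X)) * h5
  obtain ⟨G', hG', hint, hdet⟩ := max_lattice (by omega) p (FZ ℤ_[p] (OF.mcf a))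
    (FZ_monic _) (FZ_natDegree _) δ' hcop
  rw [hF] at hint hdet
  set v : Fin n → ℚ_[p] := fun i => α ^ (i : ℕ) with hv
  have hn1 : n - 1 = (n - 2) + 1 := by omega
  have k0 : (e • (G' * diagonal v)) * ((a 0 : ℚ_[p])⁻¹ • Hank n (mon ℚ_[p] a) δ) *
      (e • (G' * diagonal v))ᵀ = G' * Hank n (FZ ℚ_[p] (OF.mcf a)) δ' * G'ᵀ := by
    rw [conj_eq, hank_eq (by omega) a ha δ δ' c hcomp, mul_smul_comm, smul_mul_assoc,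
      mul_smul_comm, smul_mul_assoc, mul_smul_comm, smul_mul_assoc, smul_smul]
    congr 1
    rw [← hα, hn1, pow_succ, ← hec]
    field_simp
    ring
  have k1 : (e • (G' * diagonal v)) * Hank n (mon ℚ_[p] a) (X * δ) *
      (e • (G' * diagonal v))ᵀ = G' * Hank n (FZ ℚ_[p] (OF.mcf a)) (X * δ') * G'ᵀ := by
    have hcomp' : (X * δ').comp (C (a 0 : ℚ_[p]) * X) = C (α * c) * (X * δ) := by
      rw [mul_comp, X_comp, ← hα, hcomp, C_mul]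
      ring
    rw [conj_eq, hank_eq (by omega) a ha (X * δ) (X * δ') (α * c) hcomp', mul_smul_comm,
      smul_mul_assoc]
    congr 1
    rw [← hα, hn1, pow_succ, ← hec]
    field_simp
    ring
  refine ⟨e • (G' * diagonal v), ?_, ?_, ?_, ?_⟩
  · rw [det_smul, det_mul, det_diagonal]
    exact mul_ne_zero (pow_ne_zero _ he)
      (mul_ne_zero hG' (Finset.prod_ne_zero_iff.2 fun i _ => pow_ne_zero _ ha))
  · intro i j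
    rw [k0]
    have := hint 0 i j
    rwa [pow_zero, one_mul] at this
  · intro i j
    rw [k1]
    have := hint 1 i j
    rwa [pow_one] at this
  · rw [k0]
    exact hdet


/-- The local lattice at the primes not dividing the leading coefficient. -/
theorem loc_unit {n : ℕ} (hn : 2 ≤ n) (p : ℕ) [Fact p.Prime] (hp : p ≠ 2)
    (a : Fin (n + 1) → ℤ) (hcs : ¬ (p : ℤ) ∣ a 0)
    (δ h : ℚ_[p][X]) (hh : Prim p h) (hc : Cls (GZ ℚ_[p] a) δ h) :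
    ∃ G : Matrix (Fin n) (Fin n) ℚ_[p], G.det ≠ 0 ∧
      (∀ i j, ‖(G * ((a 0 : ℚ_[p])⁻¹ • Hank n (mon ℚ_[p] a) δ) * Gᵀ) i j‖ ≤ 1) ∧
      (∀ i j, ‖(G * ((a 0 : ℚ_[p])⁻¹ • Hank n (mon ℚ_[p] a) (X * δ)) * Gᵀ) i j‖ ≤ 1) ∧
      ‖(G * ((a 0 : ℚ_[p])⁻¹ • Hank n (mon ℚ_[p] a) δ) * Gᵀ).det‖ = ‖(a 0 : ℚ_[p])‖ := by
  obtain ⟨G, hG, h1, h2⟩ := DQ.good_unit hn p hp a hcs δ h hh hc
  have hn1 : ‖((a 0 : ℤ) : ℚ_[p])‖ = 1 := norm_int_eq_one hcs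
  have key : ∀ M : Matrix (Fin n) (Fin n) ℚ_[p],
      G * ((a 0 : ℚ_[p])⁻¹ • M) * Gᵀ = (a 0 : ℚ_[p])⁻¹ • (G * M * Gᵀ) := by
    intro M
    rw [Matrix.mul_smul, Matrix.smul_mul]
  refine ⟨G, hG, ?_, ?_, ?_⟩
  · intro i j
    rw [key, Matrix.smul_apply, norm_smul, norm_inv, hn1, inv_one, one_mul]
    have := h1 0 i j
    rwa [pow_zero, one_mul] at this
  · intro i j
    rw [key, Matrix.smul_apply, norm_smul, norm_inv, hn1, inv_one, one_mul]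
    have := h1 1 i j
    rwa [pow_one] at this
  · rw [key, Matrix.det_smul, norm_mul, norm_pow, norm_inv, hn1, inv_one, one_pow, one_mul, h2]

/-- The local lattice at all primes, `n` even. -/
theorem local_pair {n : ℕ} (hn : 2 ≤ n) (he : Even n) (P : ℕ) (hP : 2 ≤ P)
    (a : Fin (n + 1) → ℤ) (h0 : a 0 ≠ 0)
    (p : ℕ) [hp : Fact p.Prime]
    (h2 : p ≤ P → ‖((P.factorial : ℚ_[p]) ^ 2)‖ ≤ ‖(a 0 : ℚ_[p])‖)
    (h3 : P < p → ¬ (p : ℤ) ∣ a 0)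
    (δ : ℚ_[p][X]) (hδ : IsCoprime δ (GZ ℚ_[p] a)) 
    (hloc : p ≠ 2 → ∃ h : ℚ_[p][X], Prim p h ∧ Cls (GZ ℚ_[p] a) δ h) :
    ∃ G : Matrix (Fin n) (Fin n) ℚ_[p], G.det ≠ 0 ∧
      (∀ i j, ‖(G * ((a 0 : ℚ_[p])⁻¹ • Hank n (mon ℚ_[p] a) δ) * Gᵀ) i j‖ ≤ 1) ∧
      (∀ i j, ‖(G * ((a 0 : ℚ_[p])⁻¹ • Hank n (mon ℚ_[p] a) (X * δ)) * Gᵀ) i j‖ ≤ 1) ∧
      ‖(G * ((a 0 : ℚ_[p])⁻¹ • Hank n (mon ℚ_[p] a) δ) * Gᵀ).det‖ ≤ ‖(a 0 : ℚ_[p])‖ ∧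
      ‖((P.factorial : ℕ) : ℚ_[p])‖ ^ (4 * n) * ‖(a 0 : ℚ_[p])‖ ≤
        ‖(G * ((a 0 : ℚ_[p])⁻¹ • Hank n (mon ℚ_[p] a) δ) * Gᵀ).det‖ := by
  have h0' : ((a 0 : ℤ) : ℚ_[p]) ≠ 0 := by exact_mod_cast h0
  rcases le_or_gt p P with hpP | hpP
  · obtain ⟨G, hG, e1, e2, e3⟩ := loc_two2 hn p a h0 δ hδ
    obtain ⟨f, hf⟩ : ∃ f : ℚ_[p], f = ((P.factorial : ℕ) : ℚ_[p]) := ⟨_, rfl⟩
    have hf0 : f ≠ 0 := by
      rw [hf]; exact_mod_cast (Nat.factorial_pos P).ne'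
    have hf1 : ‖f‖ ≤ (p : ℝ)⁻¹ := by rw [hf]; exact norm_factorial_le_inv hpP
    have hf2 : ‖f‖ ≤ 1 := by rw [hf]; exact norm_nat_le_one _
    have hfa : ‖f‖ ^ 2 ≤ ‖(a 0 : ℚ_[p])‖ := by
      have := h2 hpP
      rwa [norm_pow, ← hf] at this
    have key : ∀ M : Matrix (Fin n) (Fin n) ℚ_[p],
        (f • G) * M * (f • G)ᵀ = (f ^ 2) • (G * M * Gᵀ) := by
      intro M
      rw [Matrix.transpose_smul, Matrix.smul_mul, Matrix.smul_mul, Matrix.mul_smul, smul_smul, sq]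
    have hdet : ‖((f • G) * ((a 0 : ℚ_[p])⁻¹ • Hank n (mon ℚ_[p] a) δ) * (f • G)ᵀ).det‖ =
        ‖f‖ ^ (2 * n) *
          ‖(G * ((a 0 : ℚ_[p])⁻¹ • Hank n (mon ℚ_[p] a) δ) * Gᵀ).det‖ := by
      rw [key, Matrix.det_smul, Fintype.card_fin, norm_mul, norm_pow, norm_pow, pow_mul]
    have hd1 : ‖(G * ((a 0 : ℚ_[p])⁻¹ • Hank n (mon ℚ_[p] a) δ) * Gᵀ).det‖ ≤ 1 :=
      det_norm_le_one _ e1
    refine ⟨f • G, ?_, ?_, ?_, ?_, ?_⟩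
    · rw [Matrix.det_smul]
      exact mul_ne_zero (pow_ne_zero _ hf0) hG
    · intro i j
      rw [key, Matrix.smul_apply, smul_eq_mul, norm_mul, norm_pow]
      exact mul_le_one₀ (pow_le_one₀ (norm_nonneg _) hf2) (norm_nonneg _) (e1 i j)
    · intro i j
      have e4 : (f • G) * ((a 0 : ℚ_[p])⁻¹ • Hank n (mon ℚ_[p] a) (X * δ)) * (f • G)ᵀ =
          (f ^ 2 * (a 0 : ℚ_[p])⁻¹) • (G * Hank n (mon ℚ_[p] a) (X * δ) * Gᵀ) := by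
        rw [key, Matrix.mul_smul, Matrix.smul_mul, smul_smul]
      rw [e4, Matrix.smul_apply, smul_eq_mul, norm_mul, norm_mul, norm_pow, norm_inv]
      refine mul_le_one₀ ?_ (norm_nonneg _) (e2 i j)
      rw [← div_eq_mul_inv]
      exact div_le_one_of_le₀ hfa (norm_nonneg _)
    · rw [hdet]
      calc _ ≤ ‖f‖ ^ (2 * n) * 1 := by gcongr
        _ = ‖f‖ ^ (2 * n) := mul_one _
        _ ≤ ‖f‖ ^ 2 := pow_le_pow_of_le_one (norm_nonneg _) hf2 (by omega)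
        _ ≤ _ := hfa
    · rw [hdet, ← hf]
      have ha1 : ‖(a 0 : ℚ_[p])‖ ≤ 1 := Padic.norm_int_le_one _
      calc ‖f‖ ^ (4 * n) * ‖(a 0 : ℚ_[p])‖ ≤ ‖f‖ ^ (4 * n) * 1 := by gcongr
        _ = ‖f‖ ^ (4 * n) := mul_one _
        _ ≤ ‖f‖ ^ (2 * n + n) := pow_le_pow_of_le_one (norm_nonneg _) hf2 (by omega)
        _ = ‖f‖ ^ (2 * n) * ‖f‖ ^ n := pow_add _ _ _
        _ ≤ ‖f‖ ^ (2 * n) * ((p : ℝ)⁻¹) ^ n := by gcongr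
        _ = ‖f‖ ^ (2 * n) * ((p : ℝ) ^ n)⁻¹ := by rw [inv_pow]
        _ ≤ _ := by gcongr
  · have hp2 : p ≠ 2 := by omega
    obtain ⟨h, hh, hcl⟩ := hloc hp2
    obtain ⟨G, hG, e1, e2, e3⟩ := loc_unit hn p hp2 a (h3 hpP) δ h hh hcl
    refine ⟨G, hG, e1, e2, e3.le, ?_⟩
    rw [e3, norm_factorial_eq_one hpP, one_pow, one_mul]

theorem main {n : ℕ} (hn : 2 ≤ n) (he : Even n) (P : ℕ) (hP : 2 ≤ P)
    (a : Fin (n + 1) → ℤ) (h0 : a 0 ≠ 0)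
    (h2 : ∀ (p : ℕ) [Fact p.Prime], p ≤ P → ‖((P.factorial : ℚ_[p]) ^ 2)‖ ≤ ‖(a 0 : ℚ_[p])‖)
    (h3 : ∀ p : ℕ, p.Prime → P < p → ¬ (p : ℤ) ∣ a 0)
    (δ : ℚ[X]) (hδ : IsCoprime δ (GZ ℚ a))
    (hloc : ∀ (p : ℕ) [Fact p.Prime], p ≠ 2 →
      ∃ h : ℚ_[p][X], Prim p h ∧ Cls (GZ ℚ_[p] a) (δ.map (algebraMap ℚ ℚ_[p])) h) :
    ∃ (A B : Matrix (Fin n) (Fin n) ℤ) (N : ℕ), 0 < N ∧ N ≤ P.factorial ^ (2 * n) ∧
      BF.IsPair a δ A B ∧ A.det = (-1) ^ (n / 2) * ((N : ℤ) ^ 2 * a 0) := by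
  have h0' : ((a 0 : ℤ) : ℚ) ≠ 0 := by exact_mod_cast h0
  have hFm : (mon ℚ a).Monic := mon_monic a h0'
  have hFn : (mon ℚ a).natDegree = n := mon_natDegree a h0'
  have hδF : IsCoprime δ (mon ℚ a) := by
    refine hδ.of_isCoprime_of_dvd_right (mon_dvd a h0' dvd_rfl)
  have hcp : ∀ (p : ℕ) [Fact p.Prime],
      IsCoprime (δ.map (algebraMap ℚ ℚ_[p])) (GZ ℚ_[p] a) := by
    intro p _
    have := hδ.map (mapRingHom (algebraMap ℚ ℚ_[p]))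
    rwa [coe_mapRingHom, GZ_map] at this
  obtain ⟨c, hc⟩ : ∃ c : ℚ, c = ((a 0 : ℤ) : ℚ)⁻¹ := ⟨_, rfl⟩
  have hc0 : c ≠ 0 := by rw [hc]; exact inv_ne_zero h0'
  obtain ⟨H, hHdef⟩ : ∃ H, H = c • Hank n (mon ℚ a) δ := ⟨_, rfl⟩
  obtain ⟨H1, hH1def⟩ : ∃ H, H = c • Hank n (mon ℚ a) (X * δ) := ⟨_, rfl⟩
  have hHk : (Hank n (mon ℚ a) δ).det ≠ 0 := hank_det_ne_zero _ _ hFm hFn hδF
  have hH : H.det ≠ 0 := by
    rw [hHdef, Matrix.det_smul]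
    exact mul_ne_zero (pow_ne_zero _ hc0) hHk
  have hmapsmul : ∀ (p : ℕ) [Fact p.Prime] (M : Matrix (Fin n) (Fin n) ℚ),
      (c • M).map (algebraMap ℚ ℚ_[p]) = ((a 0 : ℤ) : ℚ_[p])⁻¹ • M.map (algebraMap ℚ ℚ_[p]) := by
    intro p hp M
    ext i j
    rw [Matrix.map_apply, Matrix.smul_apply, Matrix.smul_apply, Matrix.map_apply, smul_eq_mul,
      smul_eq_mul, map_mul, hc, map_inv₀, map_intCast]
  have hHp : ∀ (p : ℕ) [Fact p.Prime], H.map (algebraMap ℚ ℚ_[p]) =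
      ((a 0 : ℤ) : ℚ_[p])⁻¹ • Hank n (mon ℚ_[p] a) (δ.map (algebraMap ℚ ℚ_[p])) := by
    intro p hp
    rw [hHdef, hmapsmul, ← hank_map _ _ _ hFm, mon_map]
  have hH1p : ∀ (p : ℕ) [Fact p.Prime], H1.map (algebraMap ℚ ℚ_[p]) =
      ((a 0 : ℤ) : ℚ_[p])⁻¹ • Hank n (mon ℚ_[p] a) (X * δ.map (algebraMap ℚ ℚ_[p])) := by
    intro p hp
    rw [hH1def, hmapsmul, ← hank_map _ _ _ hFm, mon_map, Polynomial.map_mul, Polynomial.map_X]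
  obtain ⟨S, hS⟩ := exists_finset ((a 0 : ℤ) : ℚ) h0' H H1 hH
  obtain ⟨f, hf⟩ : ∃ f : ℕ, f = P.factorial := ⟨_, rfl⟩
  have hf0 : 0 < f := by rw [hf]; exact Nat.factorial_pos P
  have hl' : ∀ (p : ℕ) [Fact p.Prime], ∃ g : Matrix (Fin n) (Fin n) ℚ_[p], g.det ≠ 0 ∧
      (∀ i j, ‖(g * H.map (algebraMap ℚ ℚ_[p]) * gᵀ) i j‖ ≤ 1) ∧
      (∀ i j, ‖(g * H1.map (algebraMap ℚ ℚ_[p]) * gᵀ) i j‖ ≤ 1) ∧
      ‖(g * H.map (algebraMap ℚ ℚ_[p]) * gᵀ).det‖ ≤ ‖((a 0 : ℤ) : ℚ_[p])‖ ∧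
      ‖((f : ℕ) : ℚ_[p])‖ ^ (4 * n) * ‖((a 0 : ℤ) : ℚ_[p])‖ ≤
        ‖(g * H.map (algebraMap ℚ ℚ_[p]) * gᵀ).det‖ := by
    intro p hp
    obtain ⟨g, e1, e2, e3, e4, e5⟩ := local_pair hn he P hP a h0 p (h2 p) (h3 p hp.out)
      (δ.map (algebraMap ℚ ℚ_[p])) (hcp p) (hloc p)
    rw [← hHp p] at e2 e4 e5
    rw [← hH1p p] at e3
    rw [← hf] at e5
    exact ⟨g, e1, e2, e3, e4, e5⟩
  choose g hg1 hg2 hg3 hg4 hg5 using hl'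
  obtain ⟨G, hG, hGS, hGN⟩ := glue S (fun p _ => g p) (fun p _ _ => hg1 p)
  -- the transformed matrices at each prime
  have key : ∀ (p : ℕ) [Fact p.Prime],
      (∀ i j, ‖((G * H * Gᵀ).map (algebraMap ℚ ℚ_[p])) i j‖ ≤ 1) ∧
      (∀ i j, ‖((G * H1 * Gᵀ).map (algebraMap ℚ ℚ_[p])) i j‖ ≤ 1) ∧
      ‖((G * H * Gᵀ).map (algebraMap ℚ ℚ_[p])).det‖ ≤ ‖((a 0 : ℤ) : ℚ_[p])‖ ∧
      ‖((f : ℕ) : ℚ_[p])‖ ^ (4 * n) * ‖((a 0 : ℤ) : ℚ_[p])‖ ≤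
        ‖((G * H * Gᵀ).map (algebraMap ℚ ℚ_[p])).det‖ := by
    intro p hp
    have hm : ∀ H : Matrix (Fin n) (Fin n) ℚ, (G * H * Gᵀ).map (algebraMap ℚ ℚ_[p]) =
        G.map (algebraMap ℚ ℚ_[p]) * H.map (algebraMap ℚ ℚ_[p]) *
          (G.map (algebraMap ℚ ℚ_[p]))ᵀ := by
      intro H
      rw [Matrix.map_mul, Matrix.map_mul, Matrix.transpose_map]
    rw [hm, hm]
    by_cases hpS : p ∈ S
    · obtain ⟨hU1, hU2⟩ := hGS p hpS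
      obtain ⟨U, hU⟩ : ∃ U, U = G.map (algebraMap ℚ ℚ_[p]) * (g p)⁻¹ := ⟨_, rfl⟩
      rw [← hU] at hU1 hU2
      have hUg : G.map (algebraMap ℚ ℚ_[p]) = U * g p := by
        rw [hU, Matrix.mul_assoc, nonsing_inv_mul _ (isUnit_iff_ne_zero.2 (hg1 p)),
          Matrix.mul_one]
      have he : ∀ V : Matrix (Fin n) (Fin n) ℚ_[p], (U * g p) * V * (U * g p)ᵀ =
          U * (g p * V * (g p)ᵀ) * Uᵀ := by
        intro V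
        rw [transpose_mul]
        simp only [Matrix.mul_assoc]
      rw [hUg, he, he]
      refine ⟨norm_congr_le_one hU1 (hg2 p), norm_congr_le_one hU1 (hg3 p), ?_, ?_⟩
      · rw [norm_congr_det hU2]; exact hg4 p
      · rw [norm_congr_det hU2]; exact hg5 p
    · obtain ⟨hU1, hU2⟩ := hGN p hpS
      obtain ⟨h1, h2, h3⟩ := hS p hpS
      rw [map_intCast] at h3
      refine ⟨norm_congr_le_one hU1 h1, norm_congr_le_one hU1 h2, ?_, ?_⟩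
      · rw [norm_congr_det hU2]; exact h3.le
      · rw [norm_congr_det hU2, h3]
        exact mul_le_of_le_one_left (norm_nonneg _)
          (pow_le_one₀ (norm_nonneg _) (norm_nat_le_one _))
  have hA : ∀ i j, ∃ z : ℤ, (z : ℚ) = (G * H * Gᵀ) i j := fun i j =>
    int_of_norm_le_one _ fun p _ => (key p).1 i j
  have hB : ∀ i j, ∃ z : ℤ, (z : ℚ) = (G * H1 * Gᵀ) i j := fun i j =>
    int_of_norm_le_one _ fun p _ => (key p).2.1 i j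
  choose A hA using hA
  choose B hB using hB
  have hAm : (Matrix.of A).map (Int.cast : ℤ → ℚ) = G * H * Gᵀ := by
    ext i j; exact hA i j
  have hBm : (Matrix.of B).map (Int.cast : ℤ → ℚ) = G * H1 * Gᵀ := by
    ext i j; exact hB i j
  have hdet : (((Matrix.of A).det : ℤ) : ℚ) = (G * H * Gᵀ).det := by
    rw [← hAm]
    exact (Int.castRingHom ℚ).map_det (Matrix.of A)
  -- the norm of the class
  have hsq : IsSquare (((a 0 : ℤ) : ℚ) * (mulMat n (mon ℚ a) δ).det) := by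
    apply rat_sq
    intro p _ hp2
    have hp0 : ((a 0 : ℤ) : ℚ_[p]) ≠ 0 := by exact_mod_cast h0
    obtain ⟨h', -, hcl⟩ := hloc p hp2
    have h := norm_sq he a hp0 (δ.map (algebraMap ℚ ℚ_[p])) h' hcl
    have e1 : (mulMat n (mon ℚ_[p] a) (δ.map (algebraMap ℚ ℚ_[p]))).det =
        algebraMap ℚ ℚ_[p] (mulMat n (mon ℚ a) δ).det := by
      rw [← mon_map (algebraMap ℚ ℚ_[p]) a, HankL.mulMat_map _ _ _ hFm,
        ← RingHom.mapMatrix_apply, ← RingHom.map_det]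
    rw [e1] at h
    have e2 : ((((a 0 : ℤ) : ℚ) * (mulMat n (mon ℚ a) δ).det : ℚ) : ℚ_[p]) =
        ((a 0 : ℤ) : ℚ_[p]) * algebraMap ℚ ℚ_[p] (mulMat n (mon ℚ a) δ).det := by
      rw [eq_ratCast]; push_cast; ring
    rw [e2]
    exact h
  obtain ⟨ρ, hρ⟩ := hsq
  obtain ⟨q, hq⟩ : ∃ q : ℚ, q = c ^ (n / 2 + 1) * G.det * ρ := ⟨_, rfl⟩
  have hdq : (((Matrix.of A).det : ℤ) : ℚ) = (-1) ^ (n / 2) * (q ^ 2 * ((a 0 : ℤ) : ℚ)) := by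
    have e1 := HankL.hank_mul (mon ℚ a) 1 δ hFm hFn
    rw [one_mul] at e1
    rw [hdet, hHdef, ← smul_congr, det_smul_congr, e1, det_mul, HankL.hank_one_det _ hFm hFn,
      triangle_even' he]
    have e2 : (mulMat n (mon ℚ a) δ).det = c * (ρ * ρ) := by
      rw [← hρ, hc, ← mul_assoc, inv_mul_cancel₀ h0', one_mul]
    have e3 : ((a 0 : ℤ) : ℚ) * c = 1 := by rw [hc, mul_inv_cancel₀ h0']
    have e4 : c ^ n * c ^ 2 = (c ^ (n / 2 + 1)) ^ 2 := by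
      rw [← pow_add, ← pow_mul]
      congr 1
      obtain ⟨m, rfl⟩ := he
      omega
    rw [e2, hq]
    calc c ^ n * (G.det ^ 2 * (c * (ρ * ρ) * (-1) ^ (n / 2))) =
        (((a 0 : ℤ) : ℚ) * c) * (c ^ n * c) * (G.det ^ 2 * (ρ * ρ) * (-1) ^ (n / 2)) := by
          rw [e3]; ring
      _ = (c ^ n * c ^ 2) * ((a 0 : ℤ) : ℚ) * (G.det ^ 2 * (ρ * ρ) * (-1) ^ (n / 2)) := by ring
      _ = _ := by rw [e4]; ring
  have hdet0 : (((Matrix.of A).det : ℤ) : ℚ) ≠ 0 := by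
    rw [hdet, det_mul, det_mul, det_transpose]
    exact mul_ne_zero (mul_ne_zero hG hH) hG
  have hq0 : q ≠ 0 := by
    rintro rfl
    apply hdet0
    rw [hdq]; ring
  have hnorm : ∀ (p : ℕ) [Fact p.Prime],
      ‖((G * H * Gᵀ).map (algebraMap ℚ ℚ_[p])).det‖ =
        ‖algebraMap ℚ ℚ_[p] q‖ ^ 2 * ‖((a 0 : ℤ) : ℚ_[p])‖ := by
    intro p hp
    have e : ((G * H * Gᵀ).map (algebraMap ℚ ℚ_[p])).det =
        algebraMap ℚ ℚ_[p] (((Matrix.of A).det : ℤ) : ℚ) := by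
      rw [hdet, ← RingHom.mapMatrix_apply, ← RingHom.map_det]
    rw [e, hdq, map_mul, map_mul, map_pow, map_pow, map_neg, map_one, map_intCast, norm_mul,
      norm_mul, norm_pow, norm_pow, norm_neg, norm_one, one_pow, one_mul]
  have hapos : ∀ (p : ℕ) [Fact p.Prime], 0 < ‖((a 0 : ℤ) : ℚ_[p])‖ := by
    intro p _
    rw [norm_pos_iff]
    exact_mod_cast h0
  obtain ⟨z, hz⟩ := int_of_norm_le_one q (by
    intro p hp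
    have h := (key p).2.2.1
    rw [hnorm p] at h
    have h5 : ‖algebraMap ℚ ℚ_[p] q‖ ^ 2 ≤ 1 := by
      by_contra h6
      rw [not_le] at h6
      nlinarith [hapos p]
    exact (sq_le_one_iff₀ (norm_nonneg _)).1 h5)
  obtain ⟨w, hw⟩ := int_of_norm_le_one (((f ^ (2 * n) : ℕ) : ℚ) / q) (by
    intro p hp
    have h := (key p).2.2.2
    rw [hnorm p] at h
    have h5 : (‖((f : ℕ) : ℚ_[p])‖ ^ (2 * n)) ^ 2 ≤ ‖algebraMap ℚ ℚ_[p] q‖ ^ 2 := by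
      rw [← pow_mul, show 2 * n * 2 = 4 * n by ring]
      exact le_of_mul_le_mul_right h (hapos p)
    have h6 : ‖((f : ℕ) : ℚ_[p])‖ ^ (2 * n) ≤ ‖algebraMap ℚ ℚ_[p] q‖ :=
      (sq_le_sq₀ (by positivity) (norm_nonneg _)).1 h5
    rw [map_div₀, norm_div, map_natCast, Nat.cast_pow, norm_pow]
    exact div_le_one_of_le₀ h6 (norm_nonneg _))
  have hz0 : z ≠ 0 := by
    rintro rfl
    apply hq0
    rw [← hz, Int.cast_zero]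
  rw [eq_div_iff hq0, ← hz] at hw
  have hw' : w * z = ((f ^ (2 * n) : ℕ) : ℤ) := by exact_mod_cast hw
  refine ⟨Matrix.of A, Matrix.of B, z.natAbs, Int.natAbs_pos.2 hz0, ?_,
    ⟨G, hG, by rw [hAm, hHdef, smul_congr, hc], by rw [hBm, hH1def, smul_congr, hc]⟩, ?_⟩
  · rw [← hf]
    apply Nat.le_of_dvd (pow_pos hf0 _)
    have : z ∣ ((f ^ (2 * n) : ℕ) : ℤ) := ⟨w, by rw [← hw']; ring⟩
    exact Int.natAbs_dvd_natAbs.2 this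
  · rw [Int.natAbs_sq]
    rw [← hz] at hdq
    exact_mod_cast hdq

end PairQAux

theorem exists_pair {m : ℕ} (hm : 2 ≤ m) (he : Even m) (P : ℕ) (hP : 2 ≤ P)
    (b : Fin (m + 1) → ℤ) (h0 : b 0 ≠ 0)
    (h2 : ∀ (p : ℕ) [Fact p.Prime], p ≤ P → ‖((P.factorial : ℚ_[p]) ^ 2)‖ ≤ ‖(b 0 : ℚ_[p])‖)
    (h3 : ∀ p : ℕ, p.Prime → P < p → ¬ (p : ℤ) ∣ b 0)
    (δ : ℚ[X]) (hδ : IsCoprime δ (GZ ℚ b))
    (hloc : ∀ (p : ℕ) [Fact p.Prime], p ≠ 2 →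
      ∃ h : ℚ_[p][X], Prim p h ∧ Cls (GZ ℚ_[p] b) (δ.map (algebraMap ℚ ℚ_[p])) h) :
    ∃ (A B : Matrix (Fin m) (Fin m) ℤ) (N : ℕ), 0 < N ∧ N ≤ P.factorial ^ (2 * m) ∧
      BF.IsPair b δ A B ∧ A.det = (-1) ^ (m / 2) * ((N : ℤ) ^ 2 * b 0) := by
  exact PairQAux.main hm he P hP b h0 h2 h3 δ hδ hloc

end Stoll308.FQ
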