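import Pool.Agent.Work.MP_308fa9_nt.FQ.Basic
import Pool.Agent.Work.MP_308fa9_nt.BF.Rep
import Pool.Agent.Work.MP_308fa9_nt.DQ.Rep

set_option autoImplicit false

/-!
The reduced pair, squarefree version.
-/

namespace Stoll308.FQ

open Polynomial Finset Matrix BG BF

lemma exists_roots {n : ℕ} (a : Fin (n + 1) → ℤ) (h0 : a 0 ≠ 0) (hF : Squarefree (GZ ℚ a)) :
    ∃ θ : Fin n → ℂ, Function.Injective θ ∧ (∀ i, (GZ ℂ a).eval (θ i) = 0) ∧
      (GZ ℂ a).roots = (univ : Finset (Fin n)).val.map θ := by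
  classical
  have hm : (GZ ℚ a).map (algebraMap ℚ ℂ) = GZ ℂ a := BF.Major.gz_map _ a
  have h0' : (a 0 : ℂ) ≠ 0 := by exact_mod_cast h0
  have hsep : (GZ ℂ a).Separable := by
    rw [← hm]
    exact (PerfectField.separable_iff_squarefree.2 hF).map
  have hne : GZ ℂ a ≠ 0 := hsep.ne_zero
  have hcard : (GZ ℂ a).roots.toFinset.card = n := by
    rw [Multiset.toFinset_card_of_nodup (nodup_roots hsep),
      (IsAlgClosed.splits (GZ ℂ a)).natDegree_eq_card_roots.symm, BF.Major.gz_natDegree a h0']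
  let e := Finset.equivFinOfCardEq hcard
  have hinj : Function.Injective (fun i => (e.symm i : ℂ)) :=
    fun i j hij => e.symm.injective (Subtype.ext hij)
  have hmem : ∀ i, ((e.symm i : ℂ)) ∈ (GZ ℂ a).roots := fun i => by
    have := (e.symm i).2
    rwa [Multiset.mem_toFinset] at this
  refine ⟨fun i => (e.symm i : ℂ), hinj, fun i => ?_, ?_⟩
  · have := hmem i
    rw [mem_roots hne] at this
    exact this
  · refine (Multiset.Nodup.ext (nodup_roots hsep) ?_).2 (fun z => ?_)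
    · exact Multiset.Nodup.map hinj (Finset.nodup _)
    · constructor
      · intro hz
        have hz' : z ∈ (GZ ℂ a).roots.toFinset := by
          rwa [Multiset.mem_toFinset]
        rw [Multiset.mem_map]
        refine ⟨e ⟨z, hz'⟩, ?_, by simp⟩
        exact Finset.mem_univ (e ⟨z, hz'⟩)
      · intro hz
        rw [Multiset.mem_map] at hz
        obtain ⟨i, _, rfl⟩ := hz
        exact hmem i

theorem majorant {n : ℕ} (hn : 2 ≤ n) (a : Fin (n + 1) → ℤ) (h0 : a 0 ≠ 0)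
    (hF : Squarefree (GZ ℚ a)) (δ : ℚ[X]) (hδ : IsCoprime δ (GZ ℚ a))
    (A B : Matrix (Fin n) (Fin n) ℤ) (h : IsPair a δ A B)
    (hdet : A.det = (-1) ^ (n / 2) * a 0) (H : ℝ) (hH : ∀ i, |(a i : ℝ)| ≤ H) :
    ∃ P : Matrix (Fin n) (Fin n) ℝ, P.PosDef ∧ P.det ≤ (n + 1) * H ∧
      (∀ i, |(a i : ℝ)| ≤ 2 ^ n * P.det) ∧
      (∀ u v : Fin n → ℝ, (u ⬝ᵥ (A.map (Int.cast : ℤ → ℝ)) *ᵥ v) ^ 2 ≤
        (u ⬝ᵥ P *ᵥ u) * (v ⬝ᵥ P *ᵥ v)) ∧
      (∀ u v : Fin n → ℝ, (u ⬝ᵥ (B.map (Int.cast : ℤ → ℝ)) *ᵥ v) ^ 2 ≤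
        (u ⬝ᵥ P *ᵥ u) * (v ⬝ᵥ P *ᵥ v)) := by
  classical
  have _ := hn
  have _ := hδ
  have h0' : (a 0 : ℂ) ≠ 0 := by exact_mod_cast h0
  have h0Q : (a 0 : ℚ) ≠ 0 := by exact_mod_cast h0
  obtain ⟨θ, hθ, hr, hroots⟩ := exists_roots a h0 hF
  obtain ⟨G, hG, hGA, hGB⟩ := h
  have hAdet : A.det ≠ 0 := by
    rw [hdet]
    exact mul_ne_zero (pow_ne_zero _ (by norm_num)) h0
  -- the conjugation of the roots
  have hm : (GZ ℚ a).map (algebraMap ℚ ℂ) = GZ ℂ a := BF.Major.gz_map _ a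
  have hmm : (mon ℚ a).map (algebraMap ℚ ℂ) = mon ℂ a := BF.Major.mon_map _ a
  have hmr : ∀ i, (mon ℂ a).eval (θ i) = 0 := fun i => (BF.Major.mon_eval a h0' _).2 (hr i)
  have hσ0 : ∀ i, ∃ j, θ j = (starRingEnd ℂ) (θ i) := by
    intro i
    have h1 : (GZ ℂ a).eval ((starRingEnd ℂ) (θ i)) = 0 := by
      rw [← hm, BG.Major.eval_conj, hm, hr i, map_zero]
    have h2 : (starRingEnd ℂ) (θ i) ∈ (GZ ℂ a).roots := by
      rw [mem_roots]
      · exact h1
      · rw [← leadingCoeff_ne_zero, BF.Major.gz_lead a h0']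
        exact h0'
    rw [hroots, Multiset.mem_map] at h2
    obtain ⟨j, _, hj⟩ := h2
    exact ⟨j, hj⟩
  choose σ0 hσ0 using hσ0
  have hσinj : Function.Injective σ0 := by
    intro i j hij
    apply hθ
    have h1 := hσ0 i
    rw [hij, hσ0 j] at h1
    exact (starRingEnd ℂ).injective h1.symm
  let σ : Equiv.Perm (Fin n) := Equiv.ofBijective σ0 (Finite.injective_iff_bijective.1 hσinj)
  have hσ : ∀ i, θ (σ i) = (starRingEnd ℂ) (θ i) := hσ0
  set D : Fin n → ℂ := fun k =>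
    (a 0 : ℂ)⁻¹ * ((δ.map (algebraMap ℚ ℂ)).eval (θ k) / BG.Major.den θ k) with hD
  have hden : ∀ k, BG.Major.den θ (σ k) = (starRingEnd ℂ) (BG.Major.den θ k) := by
    intro k
    unfold BG.Major.den
    rw [map_prod]
    symm
    refine Finset.prod_equiv σ (fun j => ?_) (fun j _ => ?_)
    · simp
    · rw [map_sub, hσ, hσ]
  have hDσ : ∀ k, ‖D (σ k)‖ = ‖D k‖ := by
    intro k
    simp only [hD]
    rw [hσ, BG.Major.eval_conj, hden, ← map_div₀, norm_mul, norm_mul]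
    congr 1
    exact Complex.norm_conj _
  have hθσ : ∀ k, ‖θ (σ k)‖ = ‖θ k‖ := by
    intro k
    rw [hσ]
    exact Complex.norm_conj _
  set V : Matrix (Fin n) (Fin n) ℂ := Matrix.of fun (j k : Fin n) => θ k ^ (j : ℕ) with hV
  set W : Matrix (Fin n) (Fin n) ℂ := G.map (algebraMap ℚ ℂ) * V with hW
  have hWσ : ∀ i k, W i (σ k) = (starRingEnd ℂ) (W i k) := by
    intro i k
    simp only [hW, Matrix.mul_apply, map_sum, map_mul]
    refine sum_congr rfl (fun j _ => ?_)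
    rw [hV, Matrix.of_apply, Matrix.of_apply, hσ, map_pow, Matrix.map_apply]
    congr 1
    simp
  have hgen : ∀ (M : Matrix (Fin n) (Fin n) ℤ) (η : ℚ[X]),
      M.map (Int.cast : ℤ → ℚ) = (a 0 : ℚ)⁻¹ • (G * Hank n (mon ℚ a) η * Gᵀ) →
      M.map (Int.cast : ℤ → ℂ) = W * diagonal (fun k =>
        (a 0 : ℂ)⁻¹ * ((η.map (algebraMap ℚ ℂ)).eval (θ k) / BG.Major.den θ k)) * Wᵀ := by
    intro M η hM
    have h1 : M.map (Int.cast : ℤ → ℂ) =
        (M.map (Int.cast : ℤ → ℚ)).map (algebraMap ℚ ℂ) := by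
      ext i j
      simp
    have h2 : (diagonal (fun k =>
        (a 0 : ℂ)⁻¹ * ((η.map (algebraMap ℚ ℂ)).eval (θ k) / BG.Major.den θ k)) :
        Matrix (Fin n) (Fin n) ℂ) = (a 0 : ℂ)⁻¹ • diagonal (fun k =>
          (η.map (algebraMap ℚ ℂ)).eval (θ k) / BG.Major.den θ k) := by
      rw [← Matrix.diagonal_smul]
      rfl
    have h3 : ((a 0 : ℚ)⁻¹ • (G * Hank n (mon ℚ a) η * Gᵀ)).map (algebraMap ℚ ℂ) =
        (a 0 : ℂ)⁻¹ • ((G * Hank n (mon ℚ a) η * Gᵀ).map (algebraMap ℚ ℂ)) := by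
      ext i j
      rw [Matrix.map_apply, Matrix.smul_apply, Matrix.smul_apply, Matrix.map_apply,
        smul_eq_mul, smul_eq_mul, map_mul, map_inv₀, map_intCast]
    rw [h1, hM, h3, Matrix.map_mul, Matrix.map_mul,
      ← hank_map _ _ _ (BF.Major.mon_monic a h0Q), hmm,
      BF.Major.hank_eq (mon ℂ a) (BF.Major.mon_monic a h0') (BF.Major.mon_natDegree a h0') θ hθ hmr, hW,
      Matrix.transpose_map, Matrix.transpose_mul, h2]
    simp only [Matrix.mul_assoc, hV, Matrix.mul_smul, Matrix.smul_mul]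
  have hA : A.map (Int.cast : ℤ → ℂ) = W * diagonal D * Wᵀ := hgen A δ hGA
  have hB : B.map (Int.cast : ℤ → ℂ) = W * diagonal (fun k => θ k * D k) * Wᵀ := by
    rw [hgen B (X * δ) hGB]
    congr 3
    funext k
    simp only [hD, Polynomial.map_mul, Polynomial.map_X, eval_mul, eval_X]
    ring
  set e : Fin n → ℝ := fun k => max 1 ‖θ k‖ * ‖D k‖ with he
  set E : Fin n → ℂ := fun k => (e k : ℂ) with hE
  have heσ : ∀ k, e (σ k) = e k := by
    intro k
    simp only [he, hDσ, hθσ]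
  have he0 : ∀ k, 0 ≤ e k := fun k => by
    simp only [he]
    positivity
  set Q : Matrix (Fin n) (Fin n) ℂ := W * diagonal E * Wᴴ with hQ
  have hQe : ∀ i j, Q i j = ∑ k, E k * (W i k * (starRingEnd ℂ) (W j k)) := by
    intro i j
    rw [hQ, Matrix.mul_apply]
    refine sum_congr rfl (fun k _ => ?_)
    rw [Matrix.mul_diagonal, Matrix.conjTranspose_apply]
    simp only [RCLike.star_def]
    ring
  have hQr : ∀ i j, (starRingEnd ℂ) (Q i j) = Q i j := by
    intro i j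
    rw [hQe, map_sum, ← Equiv.sum_comp σ]
    refine sum_congr rfl (fun k _ => ?_)
    rw [map_mul, map_mul, hWσ, hWσ]
    simp only [hE, heσ, Complex.conj_conj, Complex.conj_ofReal]
  set P : Matrix (Fin n) (Fin n) ℝ := Q.map Complex.re with hP
  have hPQ : P.map (Complex.ofRealHom) = Q := by
    ext i j
    rw [hP, Matrix.map_apply, Matrix.map_apply]
    exact Complex.conj_eq_iff_re.1 (hQr i j)
  have hdP : (P.det : ℂ) = Q.det := by
    rw [← hPQ]
    exact (RingHom.map_det Complex.ofRealHom P)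
  have hdA : ((A.det : ℝ) : ℂ) = W.det * (∏ k, D k) * W.det := by
    have h1 : ((A.det : ℝ) : ℂ) = (A.map (Int.cast : ℤ → ℂ)).det := by
      have := RingHom.map_det (Int.castRingHom ℂ) A
      simpa using this
    rw [h1, hA, Matrix.det_mul, Matrix.det_mul, Matrix.det_diagonal, Matrix.det_transpose]
  have hdQ : Q.det = W.det * (∏ k, E k) * (starRingEnd ℂ) W.det := by
    rw [hQ, Matrix.det_mul, Matrix.det_mul, Matrix.det_diagonal, Matrix.det_conjTranspose]
    rfl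
  have hnd : W.det * (∏ k, D k) * W.det ≠ 0 := by
    rw [← hdA]
    exact_mod_cast hAdet
  have hWdet : W.det ≠ 0 := right_ne_zero_of_mul hnd
  have hDne : ∀ k, D k ≠ 0 := by
    have := right_ne_zero_of_mul (left_ne_zero_of_mul hnd)
    intro k
    exact Finset.prod_ne_zero_iff.1 this k (mem_univ k)
  have hepos : ∀ k, 0 < e k := fun k => by
    have h1 : 0 < ‖D k‖ := norm_pos_iff.2 (hDne k)
    simp only [he]
    positivity
  -- the determinant
  have hPdet : P.det = (GZ ℂ a).mahlerMeasure := by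
    have h1 : ‖((A.det : ℝ) : ℂ)‖ = |(a 0 : ℝ)| := by
      rw [Complex.norm_real, Real.norm_eq_abs, hdet]
      push_cast
      rw [abs_mul, abs_pow, abs_neg, abs_one, one_pow, one_mul]
    have h2 : ((P.det : ℝ) : ℂ) = (((GZ ℂ a).mahlerMeasure : ℝ) : ℂ) := by
      rw [hdP, hdQ, BF.Major.mahler_eq a h0 θ hroots, ← h1, hdA, norm_mul, norm_mul, norm_prod]
      have : W.det * (starRingEnd ℂ) W.det = ((‖W.det‖ ^ 2 : ℝ) : ℂ) := by
        rw [Complex.mul_conj, Complex.normSq_eq_norm_sq]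
      calc W.det * (∏ k, E k) * (starRingEnd ℂ) W.det
          = (W.det * (starRingEnd ℂ) W.det) * ∏ k, E k := by ring
        _ = _ := by
          rw [this]
          simp only [hE, he]
          push_cast
          rw [Finset.prod_mul_distrib]
          ring
    exact_mod_cast h2
  -- the values
  have hcast : ∀ (R : Matrix (Fin n) (Fin n) ℝ) (u v : Fin n → ℝ),
      ((u ⬝ᵥ R *ᵥ v : ℝ) : ℂ) = (fun i => (u i : ℂ)) ⬝ᵥ (R.map Complex.ofRealHom) *ᵥ
        (fun i => (v i : ℂ)) := by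
    intro R u v
    simp [dotProduct, mulVec]
  set b : (Fin n → ℝ) → Fin n → ℂ := fun u => (fun i => (u i : ℂ)) ᵥ* W with hb
  have hPu : ∀ u : Fin n → ℝ, u ⬝ᵥ P *ᵥ u = ∑ k, e k * ‖b u k‖ ^ 2 := by
    intro u
    have h1 : ((u ⬝ᵥ P *ᵥ u : ℝ) : ℂ) = ((∑ k, e k * ‖b u k‖ ^ 2 : ℝ) : ℂ) := by
      rw [hcast, hPQ, hQ, BG.Major.quadH _ _ _ _ (fun i => Complex.conj_ofReal _)]
      push_cast
      refine sum_congr rfl (fun k _ => ?_)
      rw [mul_assoc, Complex.mul_conj, Complex.normSq_eq_norm_sq]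
      push_cast
      rfl
    exact_mod_cast h1
  have hAu : ∀ u v : Fin n → ℝ, ((u ⬝ᵥ (A.map (Int.cast : ℤ → ℝ)) *ᵥ v : ℝ) : ℂ) =
      ∑ k, D k * b u k * b v k := by
    intro u v
    have h1 : (A.map (Int.cast : ℤ → ℝ)).map Complex.ofRealHom = A.map (Int.cast : ℤ → ℂ) := by
      ext i j
      simp
    rw [hcast, h1, hA, BG.Major.quad]
  have hBu : ∀ u v : Fin n → ℝ, ((u ⬝ᵥ (B.map (Int.cast : ℤ → ℝ)) *ᵥ v : ℝ) : ℂ) =
      ∑ k, θ k * D k * b u k * b v k := by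
    intro u v
    have h1 : (B.map (Int.cast : ℤ → ℝ)).map Complex.ofRealHom = B.map (Int.cast : ℤ → ℂ) := by
      ext i j
      simp
    rw [hcast, h1, hB, BG.Major.quad]
  have hCS : ∀ u v : Fin n → ℝ, (∑ k, e k * ‖b u k‖ * ‖b v k‖) ^ 2 ≤
      (u ⬝ᵥ P *ᵥ u) * (v ⬝ᵥ P *ᵥ v) := by
    intro u v
    rw [hPu, hPu]
    refine Finset.sum_sq_le_sum_mul_sum_of_sq_le_mul _
      (fun k _ => mul_nonneg (he0 k) (by positivity))
      (fun k _ => mul_nonneg (he0 k) (by positivity)) (fun k _ => le_of_eq (by ring))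
  refine ⟨P, ?_, ?_, ?_, ?_, ?_⟩
  · refine Matrix.PosDef.of_dotProduct_mulVec_pos ?_ (fun u hu => ?_)
    · ext i j
      rw [Matrix.conjTranspose_apply, star_trivial]
      have h1 : Q j i = Q i j := by
        rw [← hQr j i, hQe, hQe, map_sum]
        refine sum_congr rfl (fun k _ => ?_)
        simp only [map_mul, hE, Complex.conj_ofReal, Complex.conj_conj]
        ring
      rw [hP, Matrix.map_apply, Matrix.map_apply, h1]
    · rw [star_trivial, hPu]
      have hne : b u ≠ 0 := by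
        intro h0
        apply hu
        have h1 : (fun i => (u i : ℂ)) = 0 := by
          refine Matrix.eq_zero_of_vecMul_eq_zero hWdet h0
        funext i
        have := congrFun h1 i
        simpa using this
      obtain ⟨k, hk⟩ := Function.ne_iff.1 hne
      refine Finset.sum_pos' (fun k _ => mul_nonneg (he0 k) (by positivity))
        ⟨k, mem_univ k, ?_⟩
      have h1 : 0 < e k := hepos k
      have h2 : 0 < ‖b u k‖ := norm_pos_iff.2 hk
      positivity
  · rw [hPdet]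
    exact BF.Major.mahler_le a H hH
  · intro i
    rw [hPdet]
    exact BF.Major.coeff_le a h0 i
  · intro u v
    refine le_trans ?_ (hCS u v)
    rw [← sq_abs]
    refine pow_le_pow_left₀ (abs_nonneg _) ?_ 2
    rw [← Real.norm_eq_abs, ← Complex.norm_real, hAu]
    refine (norm_sum_le _ _).trans (sum_le_sum (fun k _ => ?_))
    rw [norm_mul, norm_mul]
    refine mul_le_mul_of_nonneg_right (mul_le_mul_of_nonneg_right ?_ (norm_nonneg _))
      (norm_nonneg _)
    simp only [he]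
    exact le_mul_of_one_le_left (norm_nonneg _) (le_max_left _ _)
  · intro u v
    refine le_trans ?_ (hCS u v)
    rw [← sq_abs]
    refine pow_le_pow_left₀ (abs_nonneg _) ?_ 2
    rw [← Real.norm_eq_abs, ← Complex.norm_real, hBu]
    refine (norm_sum_le _ _).trans (sum_le_sum (fun k _ => ?_))
    rw [norm_mul, norm_mul, norm_mul]
    refine mul_le_mul_of_nonneg_right (mul_le_mul_of_nonneg_right ?_ (norm_nonneg _))
      (norm_nonneg _)
    simp only [he]
    exact mul_le_mul_of_nonneg_right (le_max_right _ _) (norm_nonneg _)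

theorem red_of_pair {n : ℕ} (hn : 2 ≤ n) (he : Even n) : ∃ K : ℝ, 1 ≤ K ∧
    ∀ a : Fin (n + 1) → ℤ, a 0 ≠ 0 → Squarefree (GZ ℚ a) → ∀ H : ℝ, (∀ i, |(a i : ℝ)| ≤ H) →
      ∀ δ : ℚ[X], IsCoprime δ (GZ ℚ a) →
      ∀ A₀ B₀ : Matrix (Fin n) (Fin n) ℤ, BF.IsPair a δ A₀ B₀ →
      A₀.det = (-1) ^ (n / 2) * a 0 →
      ∃ (A B : Matrix (Fin n) (Fin n) ℤ) (t : Fin n → ℝ), BF.RPair K H a A B t ∧
        BF.IsPair a δ A B ∧ A.det = (-1) ^ (n / 2) * a 0 := by
  obtain ⟨K₀, hK₀, hred⟩ := red_basis n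
  have hf1 : (1 : ℝ) ≤ n.factorial := by exact_mod_cast n.factorial_pos
  refine ⟨K₀ * (n + 1) * (2 ^ n * n.factorial), ?_, ?_⟩
  · have h1 : (1 : ℝ) ≤ n + 1 := by
      have : (0 : ℝ) ≤ n := Nat.cast_nonneg n
      linarith
    have h2 : (1 : ℝ) ≤ 2 ^ n := one_le_pow₀ (by norm_num)
    exact one_le_mul_of_one_le_of_one_le (one_le_mul_of_one_le_of_one_le hK₀ h1)
      (one_le_mul_of_one_le_of_one_le h2 hf1)
  intro a h0 hF H hH δ hδ A₀ B₀ hpair hdet
  obtain ⟨P, hP, hPH, hPa, hPA, hPB⟩ := majorant hn a h0 hF δ hδ A₀ B₀ hpair hdet H hH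
  obtain ⟨U, hU, hsort, hprod⟩ := hred P hP
  have hpair' := hpair.conj hU
  have hQact : U.map (Int.cast : ℤ → ℝ) * P * (U.map (Int.cast : ℤ → ℝ))ᵀ = act U P := rfl
  rw [hQact] at hsort hprod
  have hQpd := act_posDef U P hU hP
  have hQdet := act_det U P hU
  set Q := act U P with hQ
  have hQii : ∀ i, Q i i = (fun j => ((U i j : ℤ) : ℝ)) ⬝ᵥ P *ᵥ (fun j => ((U i j : ℤ) : ℝ)) := by
    intro i
    exact act_diag U P i
  have hQpos : ∀ i, 0 < Q i i := fun i => hQpd.diag_pos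
  have hdetA : (U * A₀ * Uᵀ).det = A₀.det := by
    rw [det_mul, det_mul, det_transpose]
    have h1 : U.det * U.det = 1 := by
      rcases Int.isUnit_iff.1 hU with h | h <;> rw [h] <;> norm_num
    calc U.det * A₀.det * U.det = U.det * U.det * A₀.det := by ring
      _ = A₀.det := by rw [h1, one_mul]
  have hcastA : ∀ (A' : Matrix (Fin n) (Fin n) ℤ) (i j : Fin n),
      (((U * A' * Uᵀ) i j : ℤ) : ℝ) = (fun j => ((U i j : ℤ) : ℝ)) ⬝ᵥ
        (A'.map (Int.cast : ℤ → ℝ)) *ᵥ (fun k => ((U j k : ℤ) : ℝ)) := by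
    intro A' i j
    rw [rep_conj_apply]
    simp only [dotProduct, mulVec, Matrix.map_apply]
    push_cast
    rfl
  have hsqP : (∏ i, √(Q i i)) ^ 2 = ∏ i, Q i i := by
    rw [← Finset.prod_pow]
    exact Finset.prod_congr rfl fun i _ => Real.sq_sqrt (hQpos i).le
  have hPpos : 0 < P.det := hP.det_pos
  have hH0 : 0 ≤ H := (abs_nonneg _).trans (hH 0)
  have hn0 : (0 : ℝ) ≤ n := Nat.cast_nonneg n
  have h2f : (1 : ℝ) ≤ 2 ^ n * n.factorial :=
    one_le_mul_of_one_le_of_one_le (one_le_pow₀ (by norm_num)) hf1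
  refine ⟨U * A₀ * Uᵀ, U * B₀ * Uᵀ, fun i => √(Q i i), ?_, hpair', by rw [hdetA, hdet]⟩
  · refine ⟨hpair'.symmA, hpair'.symmB, hpair'.hasChar h0 (by rw [hdetA, hdet]),
      fun i => Real.sqrt_pos.2 (hQpos i), ?_, ?_, ?_, ?_, ?_⟩
    · intro i j
      rw [hcastA, ← Real.sqrt_mul (hQpos i).le]
      apply Real.abs_le_sqrt
      rw [hQii i, hQii j]
      exact hPA _ _
    · intro i j
      rw [hcastA, ← Real.sqrt_mul (hQpos i).le]
      apply Real.abs_le_sqrt
      rw [hQii i, hQii j]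
      exact hPB _ _
    · intro i j hij
      exact Real.sqrt_le_sqrt (hsort i j hij)
    · rw [hsqP]
      calc ∏ i, Q i i ≤ K₀ * P.det := hprod
        _ ≤ K₀ * ((n + 1) * H) := by gcongr
        _ = K₀ * (n + 1) * 1 * H := by ring
        _ ≤ K₀ * (n + 1) * (2 ^ n * n.factorial) * H := by gcongr
    · intro i
      rw [hsqP]
      have h3 : P.det ≤ (n.factorial : ℝ) * ∏ i, Q i i := by
        rw [← hQdet]
        exact det_le_prod Q hQpd
      have h4 : 0 < ∏ i, Q i i := Finset.prod_pos fun i _ => hQpos i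
      calc |(a i : ℝ)| ≤ 2 ^ n * P.det := hPa i
        _ ≤ 2 ^ n * ((n.factorial : ℝ) * ∏ i, Q i i) := by gcongr
        _ = 1 * (2 ^ n * n.factorial) * ∏ i, Q i i := by ring
        _ ≤ K₀ * (n + 1) * (2 ^ n * n.factorial) * ∏ i, Q i i := by
            gcongr
            exact one_le_mul_of_one_le_of_one_le hK₀ (by linarith)

end Stoll308.FQ
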