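import Pool.Agent.Work.MP_308fa9_nt.FQ.Block
import Pool.Agent.Work.MP_308fa9_nt.FQ.Red
import Pool.Agent.Work.MP_308fa9_nt.FQ.PairQ
import Pool.Agent.Work.MP_308fa9_nt.SC.Scale

set_option autoImplicit false

/-!
The classes of the fixed polynomial come from finitely many pairs of matrices.
-/

namespace Stoll308.FQ

open Polynomial Finset Matrix BG BF SC DQ

/-- The entries of a reduced pair of a squarefree polynomial are bounded. -/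
lemma rpair_le {m : ℕ} (hm : 2 ≤ m) (a : Fin (m + 1) → ℤ) (h0 : a 0 ≠ 0)
    (hsq : Squarefree (GZ ℚ a)) (K H : ℝ) (A B : Matrix (Fin m) (Fin m) ℤ) (t : Fin m → ℝ)
    (h : RPair K H a A B t) (i j : Fin m) : t i * t j ≤ K * H := by
  obtain ⟨l, rfl⟩ : ∃ l, m = l + 1 := ⟨m - 1, by omega⟩
  have hentry : ∀ i j : Fin (l + 1), (A i j ≠ 0 ∨ B i j ≠ 0) → 1 ≤ t i * t j := by
    intro i j hij
    rcases hij with h1 | h1
    · refine le_trans ?_ (h.hA i j)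
      have h2 := Int.one_le_abs h1
      exact_mod_cast h2
    · refine le_trans ?_ (h.hB i j)
      have h2 := Int.one_le_abs h1
      exact_mod_cast h2
  have hblock : ∀ k : Fin l, 1 ≤ t k.castSucc * t (Fin.rev k).castSucc := by
    intro k
    obtain ⟨i, j, hi, hj, hij⟩ := block_ne a h0 hsq A B h.symA h.symB h.char (k + 1) (by omega)
      (by have := k.2; omega)
    refine (hentry i j hij).trans ?_
    have h1 : i ≤ k.castSucc := by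
      rw [Fin.le_def, Fin.val_castSucc]
      omega
    have h2 : j ≤ (Fin.rev k).castSucc := by
      rw [Fin.le_def, Fin.val_castSucc, Fin.val_rev]
      omega
    exact mul_le_mul (h.mono _ _ h1) (h.mono _ _ h2) (h.pos _).le (h.pos _).le
  have hprod : (1 : ℝ) ≤ (∏ k : Fin l, t k.castSucc) ^ 2 := by
    have h1 : ∏ k : Fin l, t (Fin.rev k).castSucc = ∏ k : Fin l, t k.castSucc :=
      Equiv.prod_comp Fin.revPerm (fun k => t k.castSucc)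
    have h2 : (∏ k : Fin l, t k.castSucc) ^ 2 = ∏ k : Fin l, (t k.castSucc * t (Fin.rev k).castSucc) := by
      rw [Finset.prod_mul_distrib, h1, sq]
    rw [h2]
    exact Finset.prod_induction _ (fun x : ℝ => 1 ≤ x)
      (fun x y hx hy => one_le_mul_of_one_le_of_one_le hx hy) le_rfl (fun k _ => hblock k)
  have hlast : ∀ i, t i ≤ t (Fin.last l) := fun i => h.mono _ _ (Fin.le_last i)
  calc t i * t j ≤ t (Fin.last l) * t (Fin.last l) :=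
        mul_le_mul (hlast i) (hlast j) (h.pos _).le (h.pos _).le
    _ = 1 * t (Fin.last l) ^ 2 := by ring
    _ ≤ (∏ k : Fin l, t k.castSucc) ^ 2 * t (Fin.last l) ^ 2 := by
        gcongr
    _ = (∏ i, t i) ^ 2 := by rw [Fin.prod_univ_castSucc, mul_pow]
    _ ≤ K * H := h.prod

theorem fin_pairs {m : ℕ} (hm : 2 ≤ m) (he : Even m) (b : Fin (m + 1) → ℤ) (h0 : b 0 ≠ 0)
    (hsq : Squarefree (GZ ℚ b)) :
    ∃ (M : ℕ) (F : Finset (Matrix (Fin m) (Fin m) ℤ × Matrix (Fin m) (Fin m) ℤ)),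
      ∀ δ : ℚ[X], IsCoprime δ (GZ ℚ b) →
      (∀ (p : ℕ) [Fact p.Prime], p ≠ 2 →
        ∃ h : ℚ_[p][X], Prim p h ∧ Cls (GZ ℚ_[p] b) (δ.map (algebraMap ℚ ℚ_[p])) h) →
      ∃ N : ℕ, 0 < N ∧ N ≤ M ∧ ∃ x ∈ F, BF.IsPair (sc N b) δ x.1 x.2 ∧
        x.1.det = (-1) ^ (m / 2) * sc N b 0 := by
  classical
  obtain ⟨P, hP2, hPb⟩ : ∃ P : ℕ, 2 ≤ P ∧ (b 0).natAbs ≤ P :=
    ⟨max 2 (b 0).natAbs, le_max_left _ _, le_max_right _ _⟩
  have h2 : ∀ (p : ℕ) [Fact p.Prime], p ≤ P →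
      ‖((P.factorial : ℚ_[p]) ^ 2)‖ ≤ ‖(b 0 : ℚ_[p])‖ := by
    intro p _ _
    have h3 : (b 0) ∣ ((P.factorial : ℕ) : ℤ) := by
      rw [← Int.natAbs_dvd]
      exact_mod_cast Nat.dvd_factorial (Int.natAbs_pos.2 h0) hPb
    obtain ⟨c, hc⟩ := h3
    have h4 : (P.factorial : ℚ_[p]) = (b 0 : ℚ_[p]) * (c : ℚ_[p]) := by
      have := congrArg (Int.cast : ℤ → ℚ_[p]) hc
      push_cast at this
      exact this
    have h5 : ‖(P.factorial : ℚ_[p])‖ ≤ 1 := by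
      exact_mod_cast Padic.norm_int_le_one (p := p) (P.factorial : ℤ)
    have h6 : ‖(c : ℚ_[p])‖ ≤ 1 := Padic.norm_int_le_one c
    rw [norm_pow, sq]
    calc ‖(P.factorial : ℚ_[p])‖ * ‖(P.factorial : ℚ_[p])‖
        ≤ ‖(P.factorial : ℚ_[p])‖ * 1 := by gcongr
      _ = ‖(b 0 : ℚ_[p])‖ * ‖(c : ℚ_[p])‖ := by rw [mul_one, h4, norm_mul]
      _ ≤ ‖(b 0 : ℚ_[p])‖ * 1 := by gcongr
      _ = ‖(b 0 : ℚ_[p])‖ := mul_one _
  have h3 : ∀ p : ℕ, p.Prime → P < p → ¬ (p : ℤ) ∣ b 0 := by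
    intro p _ hp hdvd
    have := Nat.le_of_dvd (Int.natAbs_pos.2 h0) (Int.natCast_dvd.1 hdvd)
    omega
  obtain ⟨K, hK, hred⟩ := red_of_pair hm he
  obtain ⟨Hb, hHb⟩ : ∃ Hb : ℝ, ∀ i, |(b i : ℝ)| ≤ Hb :=
    ⟨∑ i, |(b i : ℝ)|, fun i => Finset.single_le_sum (f := fun i => |(b i : ℝ)|)
      (fun _ _ => abs_nonneg _) (mem_univ i)⟩
  have hHb0 : 0 ≤ Hb := (abs_nonneg _).trans (hHb 0)
  obtain ⟨M, hM⟩ : ∃ M : ℕ, M = P.factorial ^ (2 * m) := ⟨_, rfl⟩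
  obtain ⟨H, hH⟩ : ∃ H : ℝ, H = (M : ℝ) ^ 2 * Hb := ⟨_, rfl⟩
  obtain ⟨D, hD⟩ : ∃ D : ℕ, K * H ≤ D := ⟨⌈K * H⌉₊, Nat.le_ceil _⟩
  let S : Finset (Matrix (Fin m) (Fin m) ℤ) :=
    (Fintype.piFinset fun _ : Fin m => Fintype.piFinset fun _ : Fin m => Icc (-(D : ℤ)) D).image
      Matrix.of
  have hS : ∀ A : Matrix (Fin m) (Fin m) ℤ, (∀ i j, |(A i j : ℝ)| ≤ K * H) → A ∈ S := by
    intro A hA
    refine mem_image.2 ⟨fun i j => A i j, ?_, rfl⟩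
    rw [Fintype.mem_piFinset]
    intro i
    rw [Fintype.mem_piFinset]
    intro j
    have h4 : |(A i j : ℝ)| ≤ D := (hA i j).trans hD
    have h5 : |A i j| ≤ (D : ℤ) := by exact_mod_cast h4
    rw [mem_Icc]
    exact abs_le.1 h5
  refine ⟨M, S ×ˢ S, fun δ hδ hloc => ?_⟩
  obtain ⟨A₀, B₀, N, hN, hNM, hpair, hdet⟩ := exists_pair hm he P hP2 b h0 h2 h3 δ hδ hloc
  rw [← hM] at hNM
  refine ⟨N, hN, hNM, ?_⟩
  have hN0 : (N : ℤ) ≠ 0 := by exact_mod_cast hN.ne'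
  have h0' : sc N b 0 ≠ 0 := mul_ne_zero (pow_ne_zero _ hN0) h0
  have hun : IsUnit (C ((N : ℚ) ^ 2)) := isUnit_sc hN
  have hsq' : Squarefree (GZ ℚ (sc N b)) := by
    rw [GZ_sc]
    exact hsq.squarefree_of_dvd (hun.mul_left_dvd.2 dvd_rfl)
  have hδ' : IsCoprime δ (GZ ℚ (sc N b)) := by
    rw [GZ_sc]
    exact (isCoprime_mul_unit_left_right hun _ _).2 hδ
  have hH' : ∀ i, |(sc N b i : ℝ)| ≤ H := by
    intro i
    unfold sc
    push_cast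
    rw [abs_mul, abs_pow, Nat.abs_cast, hH]
    have : (N : ℝ) ≤ M := by exact_mod_cast hNM
    gcongr
    exact hHb i
  obtain ⟨A, B, t, hR, hpr, hd⟩ := hred (sc N b) h0' hsq' H hH' δ hδ' A₀ B₀
    (SC.IsPair.sc hpair hN) hdet
  refine ⟨(A, B), ?_, hpr, hd⟩
  rw [mem_product]
  exact ⟨hS _ fun i j => (hR.hA i j).trans (rpair_le hm _ h0' hsq' K H A B t hR i j),
    hS _ fun i j => (hR.hB i j).trans (rpair_le hm _ h0' hsq' K H A B t hR i j)⟩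

end Stoll308.FQ
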