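import Pool.Agent.Work.MP_308fa9_nt.FQ.Basic
import Pool.Agent.Work.MP_308fa9_nt.DQ.LCond

set_option autoImplicit false

/-!
The local condition, also for a quadratic polynomial `q`.
-/

namespace Stoll308.FQ

open Polynomial Finset Matrix BG BF DQ SC

/-- The value of `δ` at a root of `f` in terms of the pair. -/
theorem adj_class2 {n : ℕ} (hn : 2 ≤ n) (he : Even n) (a : Fin (n + 1) → ℤ) (h0 : a 0 ≠ 0)
    (δ : ℚ[X]) (hδ : IsCoprime δ (GZ ℚ a)) (l : ℕ) [hl : Fact l.Prime] (h2 : l ≠ 2)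
    (A B : Matrix (Fin n) (Fin n) ℤ) (h : BF.IsPair a δ A B) (hdet : A.det = (-1) ^ (n / 2) * a 0)
    (t : ℤ) (h1 : (l : ℤ) ∣ (B - t • A).det)
    (h3 : ¬ (l : ℤ) ∣ ((B - t • A).adjugate * A).trace) :
    ∃ θ : ℤ_[l], PadicInt.toZMod θ = (t : ZMod l) ∧ (GZ ℤ_[l] a).eval θ = 0 ∧
      IsUnit ((derivative (GZ ℤ_[l] a)).eval θ) ∧
      ∀ i, ¬ (l : ℤ) ∣ (B - t • A).adjugate i i → ∃ (u : ℤ_[l]) (c : ℚ_[l]),
        PadicInt.toZMod u =
          (((-1) ^ (n / 2 + 1) * (B - t • A).adjugate i i : ℤ) : ZMod l) ∧ c ≠ 0 ∧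
        (δ.map (algebraMap ℚ ℚ_[l])).eval (θ : ℚ_[l]) * u = c ^ 2 := by
  obtain ⟨hc1, hc2⟩ := char_at he (h.hasChar h0 hdet) t
  have hsg : ∀ (k : ℕ) (b d : ℤ), d ∣ (-1) ^ k * b ↔ d ∣ b := by
    intro k b d
    rcases neg_one_pow_eq_or ℤ k with h | h <;> simp [h]
  rw [hc1, hsg] at h1
  rw [hc2, dvd_neg, hsg] at h3
  set F := GZ ℤ_[l] a with hF
  have hFm : F = (GZ ℤ a).map (Int.castRingHom ℤ_[l]) := (LCond.lc_GZ_map _ a).symm
  have hFq : GZ ℚ_[l] a = F.map (PadicInt.Coe.ringHom (p := l)) := (LCond.lc_GZ_map _ a).symm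
  have hF0 : F.eval (t : ℤ_[l]) = (((GZ ℤ a).eval t : ℤ) : ℤ_[l]) := by
    rw [hFm, eval_map, ← eq_intCast (Int.castRingHom ℤ_[l]) t, eval₂_at_apply]
    simp
  have hF1 : (derivative F).eval (t : ℤ_[l]) = (((derivative (GZ ℤ a)).eval t : ℤ) : ℤ_[l]) := by
    rw [hFm, derivative_map, eval_map, ← eq_intCast (Int.castRingHom ℤ_[l]) t, eval₂_at_apply]
    simp
  have hn0 : ‖F.eval (t : ℤ_[l])‖ < 1 := by
    rw [hF0]
    exact (PadicInt.norm_int_lt_one_iff_dvd _).mpr h1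
  have hn1 : ‖(derivative F).eval (t : ℤ_[l])‖ = 1 := by
    rw [hF1]
    have h5 : ¬ ‖(((derivative (GZ ℤ a)).eval t : ℤ) : ℤ_[l])‖ < 1 := fun h =>
      h3 ((PadicInt.norm_int_lt_one_iff_dvd _).mp h)
    have h7 := (((derivative (GZ ℤ a)).eval t : ℤ) : ℤ_[l]).norm_le_one
    linarith [not_lt.mp h5]
  obtain ⟨θ, hθ, hθn, hθd, -⟩ := hensels_lemma (F := F) (a := (t : ℤ_[l])) (by
    simp only [coe_aeval_eq_eval]
    rw [hn1]
    simpa using hn0)
  simp only [coe_aeval_eq_eval] at hθ hθn hθd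
  rw [hn1] at hθn
  rw [hn1] at hθd
  have hcoe : ∀ (P : ℤ_[l][X]) (a : ℤ_[l]), (P.map (PadicInt.Coe.ringHom (p := l))).eval
      (a : ℚ_[l]) = ((P.eval a : ℤ_[l]) : ℚ_[l]) := by
    intro P a
    have h5 : (a : ℚ_[l]) = PadicInt.Coe.ringHom (p := l) a := rfl
    rw [h5, eval_map, eval₂_at_apply]
    rfl
  have hroot : (GZ ℚ_[l] a).eval (θ : ℚ_[l]) = 0 := by
    rw [hFq, hcoe, hθ]
    rfl
  have hθd0 : (derivative (GZ ℚ_[l] a)).eval (θ : ℚ_[l]) ≠ 0 := by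
    rw [hFq, derivative_map, hcoe]
    intro h0
    have h5 : (derivative F).eval θ = 0 := by
      apply Subtype.ext
      exact h0
    rw [h5, norm_zero] at hθd
    exact zero_ne_one hθd
  have hzm : ∀ x : ℤ_[l], PadicInt.toZMod x = 0 ↔ ‖x‖ < 1 := by
    intro x
    rw [← RingHom.mem_ker, PadicInt.ker_toZMod, IsLocalRing.mem_maximalIdeal, mem_nonunits_iff,
      PadicInt.isUnit_iff]
    exact ⟨fun h => lt_of_le_of_ne x.norm_le_one h, fun h => ne_of_lt h⟩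
  have hθt : PadicInt.toZMod θ = (t : ZMod l) := by
    have h5 := (hzm (θ - t)).2 hθn
    rw [map_sub, map_intCast, sub_eq_zero] at h5
    exact h5
  refine ⟨θ, hθt, hθ, PadicInt.isUnit_iff.2 hθd, ?_⟩
  intro i hi
  obtain ⟨G, hG, hA, hB⟩ := h
  -- over `ℚ_l`
  set φ : ℚ →+* ℚ_[l] := algebraMap ℚ ℚ_[l] with hφ
  have ha0 : ((a 0 : ℤ) : ℚ_[l]) ≠ 0 := by exact_mod_cast h0
  obtain ⟨hm1, hm2⟩ := LCond.lc_mon_monic (K := ℚ_[l]) a ha0
  have ha0q : ((a 0 : ℤ) : ℚ) ≠ 0 := by exact_mod_cast h0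
  obtain ⟨hq1, hq2⟩ := LCond.lc_mon_monic (K := ℚ) a ha0q
  have hmapF : (mon ℚ a).map φ = mon ℚ_[l] a := by
    unfold mon
    rw [Polynomial.map_mul, LCond.lc_GZ_map, Polynomial.map_C, map_inv₀, map_intCast]
  set δ' : ℚ_[l][X] := C ((a 0 : ℚ_[l])⁻¹) * δ.map φ with hδ'
  have hA' : A.map (Int.cast : ℤ → ℚ_[l]) =
      G.map φ * Hank n (mon ℚ_[l] a) δ' * (G.map φ)ᵀ := by
    have h5 : A.map (Int.cast : ℤ → ℚ_[l]) = (A.map (Int.cast : ℤ → ℚ)).map φ := by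
      ext a b
      simp
    have h6 : ∀ (r : ℚ) (M : Matrix (Fin n) (Fin n) ℚ), (r • M).map φ = φ r • M.map φ := by
      intro r M
      ext a b
      simp
    rw [h5, hA, h6, Matrix.map_mul, Matrix.map_mul, hδ', LCond.lc_hank_C_mul, ← hmapF,
      hank_map φ _ _ hq1, Matrix.transpose_map, Matrix.mul_smul, Matrix.smul_mul, map_inv₀,
      map_intCast]
  have hB' : B.map (Int.cast : ℤ → ℚ_[l]) =
      G.map φ * Hank n (mon ℚ_[l] a) (X * δ') * (G.map φ)ᵀ := by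
    have h5 : B.map (Int.cast : ℤ → ℚ_[l]) = (B.map (Int.cast : ℤ → ℚ)).map φ := by
      ext a b
      simp
    have h6 : ∀ (r : ℚ) (M : Matrix (Fin n) (Fin n) ℚ), (r • M).map φ = φ r • M.map φ := by
      intro r M
      ext a b
      simp
    have h7 : X * δ' = C ((a 0 : ℚ_[l])⁻¹) * (X * δ).map φ := by
      rw [hδ', Polynomial.map_mul, Polynomial.map_X]
      ring
    rw [h5, hB, h6, Matrix.map_mul, Matrix.map_mul, h7, LCond.lc_hank_C_mul, ← hmapF,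
      hank_map φ _ _ hq1, Matrix.transpose_map, Matrix.mul_smul, Matrix.smul_mul, map_inv₀,
      map_intCast]
  have hGd : (G.map φ).det ≠ 0 := by
    rw [← RingHom.mapMatrix_apply, ← RingHom.map_det]
    exact (map_ne_zero φ).mpr hG
  have hθm : (mon ℚ_[l] a).eval (θ : ℚ_[l]) = 0 := by
    unfold mon
    rw [eval_mul, hroot, mul_zero]
  have hθdm : (derivative (mon ℚ_[l] a)).eval (θ : ℚ_[l]) ≠ 0 := by
    unfold mon
    rw [derivative_C_mul, eval_mul, eval_C]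
    exact mul_ne_zero (inv_ne_zero ha0) hθd0
  obtain ⟨r, hr⟩ := BG.LCond.adj_square (mon ℚ_[l] a) δ' hm1 hm2 (θ : ℚ_[l])
    hθm hθdm (G.map φ) hGd _ _ hA' hB' i
  -- the integral element
  set N : Matrix (Fin n) (Fin n) ℤ_[l] := θ • A.map (Int.cast : ℤ → ℤ_[l]) -
    B.map (Int.cast : ℤ → ℤ_[l]) with hN'
  have h6 : (A.map (Int.cast : ℤ → ℚ_[l])).det = (-1) ^ (n / 2) * (a 0 : ℚ_[l]) := by
    have h7 := RingHom.map_det (Int.castRingHom ℚ_[l]) A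
    rw [RingHom.mapMatrix_apply, hdet] at h7
    simpa using h7.symm
  have hNc : (((-1) ^ (n / 2) * N.adjugate i i : ℤ_[l]) : ℚ_[l]) =
      (-1) ^ (n / 2) * ((θ : ℚ_[l]) • A.map (Int.cast : ℤ → ℚ_[l]) -
        B.map (Int.cast : ℤ → ℚ_[l])).adjugate i i := by
    have h5 : N.map (PadicInt.Coe.ringHom (p := l)) =
        (θ : ℚ_[l]) • A.map (Int.cast : ℤ → ℚ_[l]) - B.map (Int.cast : ℤ → ℚ_[l]) := by
      ext a b
      rw [hN']
      simp only [Matrix.map_apply, Matrix.sub_apply, Matrix.smul_apply, smul_eq_mul, map_sub,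
        map_mul, map_intCast]
      rfl
    rw [← h5, ← RingHom.mapMatrix_apply, ← RingHom.map_adjugate, RingHom.mapMatrix_apply,
      Matrix.map_apply, PadicInt.coe_mul]
    congr 1
  have h5 : N.map (PadicInt.toZMod (p := l)) =
      ((-1 : ℤ) • (B - t • A)).map (Int.castRingHom (ZMod l)) := by
    ext a b
    rw [hN']
    simp only [Matrix.map_apply, Matrix.sub_apply, Matrix.smul_apply, smul_eq_mul, map_sub,
      map_mul, map_intCast, hθt]
    simp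
  have h7 : PadicInt.toZMod (N.adjugate i i) =
      (((-1 : ℤ) • (B - t • A)).adjugate i i : ℤ) := by
    have h8 : PadicInt.toZMod (N.adjugate i i) = (N.map (PadicInt.toZMod (p := l))).adjugate i i := by
      rw [← RingHom.mapMatrix_apply, ← RingHom.map_adjugate, RingHom.mapMatrix_apply,
        Matrix.map_apply]
    rw [h8, h5, ← RingHom.mapMatrix_apply, ← RingHom.map_adjugate, RingHom.mapMatrix_apply,
      Matrix.map_apply]
    rfl
  have hred : PadicInt.toZMod ((-1) ^ (n / 2) * N.adjugate i i) =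
      (((-1) ^ (n / 2 + 1) * (B - t • A).adjugate i i : ℤ) : ZMod l) := by
    rw [map_mul, h7, Matrix.adjugate_smul, Fintype.card_fin, map_pow, map_neg, map_one]
    have h9 : (-1 : ℤ) ^ (n - 1) = -1 := by
      apply Odd.neg_one_pow
      obtain ⟨k, hk⟩ := he
      exact ⟨k - 1, by omega⟩
    rw [h9]
    simp only [Matrix.smul_apply, smul_eq_mul]
    push_cast
    ring
  -- the square class
  set e : ℤ_[l] := (-1) ^ (n / 2) * N.adjugate i i with he'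
  have he0 : (e : ℚ_[l]) ≠ 0 := by
    intro h9
    have h10 : e = 0 := by
      apply Subtype.ext
      exact h9
    rw [h10, map_zero] at hred
    rw [eq_comm, ZMod.intCast_zmod_eq_zero_iff_dvd, hsg] at hred
    exact hi hred
  have hr' : (δ.map φ).eval (θ : ℚ_[l]) * (e : ℚ_[l]) = r ^ 2 := by
    rw [he', hNc, sq, ← hr, h6, hδ', eval_mul, eval_C]
    field_simp
  have hδθ : (δ.map φ).eval (θ : ℚ_[l]) ≠ 0 := by
    obtain ⟨b, c, hbc⟩ := hδ
    have h9 := congrArg (fun P : ℚ[X] => (P.map φ).eval (θ : ℚ_[l])) hbc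
    simp only [Polynomial.map_add, Polynomial.map_mul, eval_add, eval_mul, Polynomial.map_one,
      eval_one] at h9
    rw [LCond.lc_GZ_map, hroot, mul_zero, add_zero] at h9
    intro h10
    rw [h10, mul_zero] at h9
    exact zero_ne_one h9
  refine ⟨e, r, hred, ?_, hr'⟩
  rintro rfl
  rw [zero_pow two_ne_zero] at hr'
  exact mul_ne_zero hδθ he0 hr'

open DQ.LC in
theorem lcond {n m : ℕ} (hn : 4 ≤ n) (he : Even n) (hm : 2 ≤ m) (hem : Even m)
    (a : Fin (n + 1) → ℤ) (b : Fin (m + 1) → ℤ) (h0 : a 0 ≠ 0) (h0' : b 0 ≠ 0)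
    (δ ε : ℚ[X]) (hδ : IsCoprime δ (GZ ℚ a)) (hε : IsCoprime ε (GZ ℚ b))
    (l : ℕ) [hl : Fact l.Prime] (h2 : l ≠ 2)
    (hloc : DLoc (GZ ℚ_[l] a) (GZ ℚ_[l] b) (δ.map (algebraMap ℚ ℚ_[l]))
      (ε.map (algebraMap ℚ ℚ_[l])))
    (A B : Matrix (Fin n) (Fin n) ℤ) (A' B' : Matrix (Fin m) (Fin m) ℤ)
    (h : BF.IsPair a δ A B) (hdet : A.det = (-1) ^ (n / 2) * a 0)
    (h' : BF.IsPair b ε A' B') (hdet' : A'.det = (-1) ^ (m / 2) * b 0) :
    ¬ DQ.Bad l A B A' B' := by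
  rintro ⟨t, h1, h1', h3, h3', h5, hl', i, j, hleg⟩
  have hne : (((-1) ^ ((n + m) / 2) * ((B - t • A).adjugate i i *
      (B' - t • A').adjugate j j) : ℤ) : ZMod l) ≠ 0 := by
    intro h9
    rw [(legendreSym.eq_zero_iff l _).mpr h9] at hleg
    omega
  have hi : ¬ (l : ℤ) ∣ (B - t • A).adjugate i i := by
    intro h9
    apply hne
    rw [ZMod.intCast_zmod_eq_zero_iff_dvd]
    exact Dvd.dvd.mul_left (Dvd.dvd.mul_right h9 _) _
  have hj : ¬ (l : ℤ) ∣ (B' - t • A').adjugate j j := by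
    intro h9
    apply hne
    rw [ZMod.intCast_zmod_eq_zero_iff_dvd]
    exact Dvd.dvd.mul_left (Dvd.dvd.mul_left h9 _) _
  obtain ⟨θ, hθt, hθ, hθd, hθi⟩ := adj_class2 (by omega) he a h0 δ hδ l h2 A B h hdet t h1 h3
  obtain ⟨ρ, hρt, hρ, hρd, hρi⟩ := adj_class2 hm hem b h0' ε hε l h2 A' B' h' hdet' t h1' h3'
  obtain ⟨u, c₁, hu, hc₁, huc⟩ := hθi i hi
  obtain ⟨u', c₂, hu', hc₂, huc'⟩ := hρi j hj
  have hdist := root_dist he hem a b l A B A' B' (BF.IsPair.hasChar h0 h hdet)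
    (BF.IsPair.hasChar h0' h' hdet') t h5 θ ρ hθt hρt hθ hρ
  obtain ⟨g, c, hc, hcl, hcl'⟩ := hloc
  have hq1 : toQ (GZ ℤ_[l] a) = GZ ℚ_[l] a := BF.LCond.lc_GZ_map _ a
  have hq2 : toQ (GZ ℤ_[l] b) = GZ ℚ_[l] b := BF.LCond.lc_GZ_map _ b
  have hcoe : ∀ (P : ℤ_[l][X]) (x : ℤ_[l]), (toQ P).eval (x : ℚ_[l]) =
      ((P.eval x : ℤ_[l]) : ℚ_[l]) := by
    intro P x
    have h5 : (x : ℚ_[l]) = algebraMap ℤ_[l] ℚ_[l] x := rfl
    rw [h5, eval_map, eval₂_at_apply]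
    rfl
  have hr1 : (GZ ℚ_[l] a).eval (θ : ℚ_[l]) = 0 := by
    rw [← hq1, hcoe, hθ]
    rfl
  have hr2 : (GZ ℚ_[l] b).eval (ρ : ℚ_[l]) = 0 := by
    rw [← hq2, hcoe, hρ]
    rfl
  have hlink := link l h2 (GZ ℤ_[l] a) (GZ ℤ_[l] b) θ ρ hθ hρ hθd hρd hdist g
    (by rw [hq1]; exact hcl.2.2.1) (by rw [hq2]; exact hcl'.2.2.1)
  obtain ⟨hg1, s, hs, hgs⟩ := cls_eval hcl hr1
  obtain ⟨hg2, s', hs', hgs'⟩ := cls_eval hcl' hr2
  obtain ⟨z, hz⟩ := hlink
  have hsq : IsSquare (((u * u' : ℤ_[l]) : ℚ_[l])) := by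
    have hz0 : z ≠ 0 := by
      rintro rfl
      rw [mul_zero] at hz
      exact mul_ne_zero hg1 hg2 hz
    refine ⟨c * s * s' * c₁ * c₂ / z, ?_⟩
    rw [PadicInt.coe_mul]
    set D := (δ.map (algebraMap ℚ ℚ_[l])).eval (θ : ℚ_[l]) with hD
    set E := (ε.map (algebraMap ℚ ℚ_[l])).eval (ρ : ℚ_[l]) with hE
    have e1 : (c * s * s' * c₁ * c₂ / z) * (c * s * s' * c₁ * c₂ / z) =
        (c * s * s') ^ 2 * c₁ ^ 2 * c₂ ^ 2 / (z * z) := by
      field_simp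
    rw [e1, ← huc, ← huc', ← hz, hgs, hgs']
    have hD0 : D ≠ 0 := by
      intro h9
      rw [hgs, h9, mul_zero, zero_mul] at hg1
      exact hg1 rfl
    have hE0 : E ≠ 0 := by
      intro h9
      rw [hgs', h9, mul_zero, zero_mul] at hg2
      exact hg2 rfl
    field_simp
  have hmod : PadicInt.toZMod (u * u') = (((-1) ^ ((n + m) / 2) * ((B - t • A).adjugate i i *
      (B' - t • A').adjugate j j) : ℤ) : ZMod l) := by
    rw [map_mul, hu, hu', ← Int.cast_mul]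
    congr 1
    obtain ⟨k, hk⟩ := he
    obtain ⟨k', hk'⟩ := hem
    have e1 : n / 2 = k := by omega
    have e2 : m / 2 = k' := by omega
    have e3 : (n + m) / 2 = k + k' := by omega
    rw [e1, e2, e3]
    ring
  have hfin := unit_sq_mod (by rw [hmod]; exact hne) hsq
  rw [hmod] at hfin
  have h9 := (legendreSym.eq_one_iff l hne).mpr hfin
  have h10 : legendreSym l ((-1) ^ ((n + m) / 2) * ((B - t • A).adjugate i i *
      (B' - t • A').adjugate j j)) = -1 := hleg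
  rw [h10] at h9
  omega

end Stoll308.FQ
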