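import Pool.Agent.Work.MP_308fa9_nt.FQ.Cube
import Pool.Agent.Work.MP_308fa9_nt.BF.LargeT

set_option autoImplicit false

/-!
Few polynomials come from reduced pairs with lengths of the same size which satisfy the local
conditions.
-/

namespace Stoll308.FQ

open Polynomial Finset Matrix BG BF

theorem large_t {n : ℕ} (hn : 4 ≤ n) (he : Even n) (K R : ℝ) (hK : 1 ≤ K) (hR : 1 ≤ R)
    (S : Set ℕ) (hS : Dense S) (r s : ℕ → ℤ) (hs : ∀ l, s l = 1 ∨ s l = -1) (ε : ℝ)
    (hε : 0 < ε) : ∃ H₀ : ℝ, ∀ H : ℝ, H₀ ≤ H → ∀ T : Finset (Fin (n + 1) → ℤ),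
      (∀ a ∈ T, ∃ (A B : Matrix (Fin n) (Fin n) ℤ) (t : Fin n → ℝ), RPair K H a A B t ∧
        (∀ i j, t j ≤ R * t i) ∧ ∀ l : ℕ, l.Prime → 5 ≤ l → l ∈ S →
          ¬ BadZ (s l) l A (B - r l • A)) →
      (T.card : ℝ) ≤ ε * H ^ (n + 1) := by
  classical
  obtain ⟨Q, hQ⟩ : ∃ Q : ℝ, Q = R ^ (2 * n) * K := ⟨_, rfl⟩
  have hQ1 : 1 ≤ Q := by
    rw [hQ]
    exact one_le_mul_of_one_le_of_one_le (one_le_pow₀ hR) hK
  have hQ0 : 0 < Q := by linarith
  obtain ⟨D₀, hz⟩ := cube_small hn he S hS r s hs (ε / Q ^ (n + 1)) (by positivity)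
  refine ⟨max 1 (|D₀| ^ n), ?_⟩
  intro H hH T hT
  have hH1 : 1 ≤ H := (le_max_left _ _).trans hH
  have hHD : |D₀| ^ n ≤ H := (le_max_right _ _).trans hH
  obtain ⟨D, hD⟩ : ∃ D : ℝ, D = (Q * H) ^ ((n : ℝ)⁻¹) := ⟨_, rfl⟩
  have hD0 : 0 ≤ D := by rw [hD]; positivity
  have hn0 : n ≠ 0 := by omega
  have hDn : D ^ n = Q * H := by
    rw [hD]
    exact Real.rpow_inv_natCast_pow (by positivity) hn0
  have hD₀ : D₀ ≤ D := by
    refine (le_abs_self _).trans ?_
    apply le_of_pow_le_pow_left₀ hn0 hD0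
    rw [hDn]
    calc |D₀| ^ n ≤ H := hHD
      _ ≤ Q * H := le_mul_of_one_le_left (by linarith) hQ1
  have h1 := hz D hD₀
  -- the lengths
  have htt : ∀ (a : Fin (n + 1) → ℤ) (A B : Matrix (Fin n) (Fin n) ℤ) (t : Fin n → ℝ),
      RPair K H a A B t → (∀ i j, t j ≤ R * t i) → ∀ i j, t i * t j ≤ D := by
    intro a A B t h ht i j
    have hpos := h.pos
    have e1 : ∀ j, t j ^ n ≤ R ^ n * ∏ i, t i := by
      intro j
      calc t j ^ n = ∏ _i : Fin n, t j := by
            rw [Finset.prod_const, Finset.card_univ, Fintype.card_fin]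
        _ ≤ ∏ i : Fin n, (R * t i) :=
            Finset.prod_le_prod (fun _ _ => (hpos j).le) (fun i _ => ht i j)
        _ = R ^ n * ∏ i, t i := by
            rw [Finset.prod_mul_distrib, Finset.prod_const, Finset.card_univ, Fintype.card_fin]
    apply le_of_pow_le_pow_left₀ hn0 hD0
    rw [hDn, mul_pow]
    have hp : 0 < ∏ i, t i := Finset.prod_pos fun i _ => hpos i
    calc t i ^ n * t j ^ n ≤ (R ^ n * ∏ i, t i) * (R ^ n * ∏ i, t i) :=
          mul_le_mul (e1 i) (e1 j) (pow_pos (hpos j) n).le (by positivity)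
      _ = R ^ (2 * n) * (∏ i, t i) ^ 2 := by ring
      _ ≤ R ^ (2 * n) * (K * H) := by
          gcongr
          exact h.prod
      _ = Q * H := by rw [hQ]; ring
  set F := ((Fintype.piFinset fun _ : Ix n ⊕ Ix n => Icc (-⌊D⌋) ⌊D⌋).filter
        fun v => ∀ l : ℕ, l.Prime → 5 ≤ l → l ∈ S →
          ¬ BadZ (s l) l (symM fun p => v (Sum.inl p))
            ((symM fun p => v (Sum.inr p)) - r l • (symM fun p => v (Sum.inl p)))) with hF
  have hch : ∀ a : Fin (n + 1) → ℤ, ∃ v : Ix n ⊕ Ix n → ℤ, a ∈ T →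
      v ∈ F ∧ HasChar a (symM fun p => v (Sum.inl p)) (symM fun p => v (Sum.inr p)) := by
    intro a
    by_cases ha : a ∈ T
    swap
    · exact ⟨0, fun h => absurd h ha⟩
    obtain ⟨A, B, t, hP, ht, hl⟩ := hT a ha
    have hA : (symM fun p : Ix n => A p.1.1 p.1.2) = A := symM_of_isSymm A hP.symA
    have hB : (symM fun p : Ix n => B p.1.1 p.1.2) = B := symM_of_isSymm B hP.symB
    refine ⟨Sum.elim (fun p => A p.1.1 p.1.2) (fun p => B p.1.1 p.1.2), fun _ => ⟨?_, ?_⟩⟩
    · rw [hF]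
      simp only [mem_filter, Fintype.mem_piFinset, mem_Icc, Sum.elim_inl, Sum.elim_inr]
      constructor
      · rintro (p | p)
        · have h2 := abs_le.1 ((hP.hA p.1.1 p.1.2).trans (htt a A B t hP ht _ _))
          simp only [Sum.elim_inl]
          constructor
          · have : -(A p.1.1 p.1.2) ≤ ⌊D⌋ := by
              rw [Int.le_floor]; push_cast; linarith
            linarith
          · rw [Int.le_floor]; exact h2.2
        · have h2 := abs_le.1 ((hP.hB p.1.1 p.1.2).trans (htt a A B t hP ht _ _))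
          simp only [Sum.elim_inr]
          constructor
          · have : -(B p.1.1 p.1.2) ≤ ⌊D⌋ := by
              rw [Int.le_floor]; push_cast; linarith
            linarith
          · rw [Int.le_floor]; exact h2.2
      · intro l hlp hl5 hlS
        rw [hA, hB]
        exact hl l hlp hl5 hlS
    · simp only [Sum.elim_inl, Sum.elim_inr]
      rw [hA, hB]
      exact hP.char
  choose v hv using hch
  have hinj : Set.InjOn v T := by
    intro a ha a' ha' h
    have h1 := (hv a ha).2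
    have h2 := (hv a' ha').2
    rw [h] at h1
    exact h1.inj h2
  have hcard : T.card ≤ F.card :=
    Finset.card_le_card_of_injOn v (fun a ha => (hv a ha).1) hinj
  calc (T.card : ℝ) ≤ (F.card : ℝ) := by exact_mod_cast hcard
    _ ≤ ε / Q ^ (n + 1) * D ^ (n * (n + 1)) := h1
    _ = ε * H ^ (n + 1) := by
        rw [pow_mul, hDn, mul_pow]
        have hQn : Q ^ (n + 1) ≠ 0 := (pow_pos hQ0 _).ne'
        field_simp

end Stoll308.FQ
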