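import Pool.Agent.Work.MP_308fa9_nt.FQ.Basic
import Pool.Agent.Work.MP_308fa9_nt.DQ.Pt

set_option autoImplicit false

/-!
Points over number fields of odd degree.
-/

namespace Stoll308.FQ

open Polynomial Finset Matrix BG BF SC DQ

/-- A point over a number field of odd degree with `w` different from zero gives an element of the
odd Selmer set. -/
theorem oddSel_of_point {n m : ℕ} (hn : 2 ≤ n) (he : Even n)
    (a : Fin (n + 1) → ℤ) (b : Fin (m + 1) → ℤ) (h0 : a 0 ≠ 0)
    (hsq : ¬ IsSquare (a 0)) (hF : Irreducible (GZ ℚ a))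
    (k : Type) [Field k] [Algebra ℚ k] (ho : Odd (Module.finrank ℚ k))
    (hz : ¬ ∃ t y : k, (GZ k b).eval t = 0 ∧ y ^ 2 = (GZ k a).eval t)
    (h : DQ.HasPoint a b k) : DQ.OddSel a b := by
  rcases h with ⟨t, y, w, hy, hw⟩ | h
  · have hfin : Module.Finite ℚ k := Module.finite_of_finrank_pos ho.pos
    have hw0 : w ≠ 0 := by
      rintro rfl
      rw [zero_pow two_ne_zero] at hw
      exact hz ⟨t, y, hw.symm, hy⟩
    rw [op_GZ_eval] at hy hw
    have hy0 : y ≠ 0 := by
      rintro rfl
      rw [zero_pow two_ne_zero] at hy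
      exact PtAux.no_root he a h0 hF k ho t hy.symm
    refine ⟨(LinearMap.mulLeft ℚ t).charpoly, (LinearMap.mulLeft ℚ t).charpoly, ?_, ?_, ?_⟩
    · refine charpoly_coprime _ _ ?_
      rw [← hy]
      exact (isUnit_iff_ne_zero.mpr hy0).pow 2
    · refine charpoly_coprime _ _ ?_
      rw [← hw]
      exact (isUnit_iff_ne_zero.mpr hw0).pow 2
    · intro p _ hp
      let ι : k →ₐ[ℚ] TensorProduct ℚ ℚ_[p] k := Algebra.TensorProduct.includeRight
      have h3 : (LinearMap.mulLeft ℚ_[p] (ι t)).charpoly =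
          (LinearMap.mulLeft ℚ t).charpoly.map (algebraMap ℚ ℚ_[p]) := by
        rw [← LinearMap.charpoly_baseChange]
        congr 1
        ext u
        simp [ι]
      refine ⟨TensorProduct ℚ ℚ_[p] k, inferInstance, inferInstance, inferInstance, ι t, ι y, ι w,
        1, 1, 1, ?_, ?_, ?_, one_ne_zero, ?_, ?_, ?_, ?_⟩
      · rw [Module.finrank_baseChange]
        exact ho
      · exact (isUnit_iff_ne_zero.mpr hy0).map ι
      · exact (isUnit_iff_ne_zero.mpr hw0).map ι
      · rw [← map_pow, hy, ← op_GZ_map (algebraMap ℚ ℚ_[p]) a, aeval_map_algebraMap,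
          aeval_algHom_apply]
      · rw [← map_pow, hw, ← op_GZ_map (algebraMap ℚ ℚ_[p]) b, aeval_map_algebraMap,
          aeval_algHom_apply]
      · rw [h3, one_pow, mul_one, C_1, one_mul, sub_self]
        exact dvd_zero _
      · rw [h3, one_pow, mul_one, C_1, one_mul, sub_self]
        exact dvd_zero _
  · exact absurd (op_inf _ k ho h.1) hsq

end Stoll308.FQ
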