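import Pool.Agent.Work.MP_308fa9_nt.FQ.Basic
import Pool.Agent.Work.MP_308fa9_nt.DQ.Smooth
import Pool.Agent.Work.MP_308fa9_nt.SC.OddPt

set_option autoImplicit false

/-!
Most curves are smooth.
-/

namespace Stoll308.FQ

open Polynomial Finset BF

namespace SmQ

/-- The irreducible polynomials dividing `q`. -/
def Div {n m : ℕ} (b : Fin (m + 1) → ℤ) (a : Fin (n + 1) → ℤ) : Prop :=
  a 0 ≠ 0 ∧ Irreducible (GZ ℚ a) ∧ GZ ℚ a ∣ GZ ℚ b

/-- The monic polynomial. -/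
noncomputable def mo {n : ℕ} (a : Fin (n + 1) → ℤ) : ℚ[X] := C ((a 0 : ℚ)⁻¹) * GZ ℚ a

lemma gz_eq {n : ℕ} {a : Fin (n + 1) → ℤ} (h0 : a 0 ≠ 0) : GZ ℚ a = C (a 0 : ℚ) * mo a := by
  have h : (a 0 : ℚ) ≠ 0 := by exact_mod_cast h0
  unfold mo
  rw [← mul_assoc, ← C_mul, mul_inv_cancel₀ h, C_1, one_mul]

lemma mo_mem {n m : ℕ} {b : Fin (m + 1) → ℤ} (hb : GZ ℚ b ≠ 0) {a : Fin (n + 1) → ℤ}
    (h : Div b a) : mo a ∈ UniqueFactorizationMonoid.normalizedFactors (GZ ℚ b) := by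
  obtain ⟨h0, hI, hd⟩ := h
  have h0' : (a 0 : ℚ) ≠ 0 := by exact_mod_cast h0
  have hu : IsUnit (C ((a 0 : ℚ)⁻¹)) := isUnit_C.2 (isUnit_iff_ne_zero.2 (inv_ne_zero h0'))
  rw [UniqueFactorizationMonoid.mem_normalizedFactors_iff' hb]
  have hne : GZ ℚ a ≠ 0 := hI.ne_zero
  have hmonic : (mo a).Monic := by
    have hdeg : (GZ ℚ a).natDegree = n := by
      refine le_antisymm (SC.op_natDegree_le a) (le_natDegree_of_ne_zero ?_)
      rw [BF.LocLat.GZ_coeff_top]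
      exact h0'
    have hlc : (GZ ℚ a).leadingCoeff = a 0 := by
      rw [leadingCoeff, hdeg, BF.LocLat.GZ_coeff_top]
    have h1 := monic_mul_leadingCoeff_inv hne
    rw [hlc] at h1
    unfold mo
    rw [mul_comm]
    exact h1
  refine ⟨?_, hmonic.normalize_eq_self, ?_⟩
  · unfold mo
    exact (irreducible_isUnit_mul hu).2 hI
  · unfold mo
    exact (hu.mul_left_dvd).2 hd

lemma cnt_div {n m : ℕ} (b : Fin (m + 1) → ℤ) (hb : GZ ℚ b ≠ 0) (H : ℕ) :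
    BF.cnt n (Div b) H ≤ (2 * H + 1) *
      (UniqueFactorizationMonoid.normalizedFactors (GZ ℚ b)).toFinset.card := by
  classical
  have hc : (2 * H + 1) *
      (UniqueFactorizationMonoid.normalizedFactors (GZ ℚ b)).toFinset.card =
      (Icc (-(H : ℤ)) (H : ℤ) ×ˢ
        (UniqueFactorizationMonoid.normalizedFactors (GZ ℚ b)).toFinset).card := by
    rw [card_product, Int.card_Icc]
    have h : ((H : ℤ) + 1 - -(H : ℤ)).toNat = 2 * H + 1 := by omega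
    rw [h]
  rw [hc]
  unfold BF.cnt
  refine card_le_card_of_injOn (fun a => (a 0, mo a)) ?_ ?_
  · intro a ha
    simp only [coe_filter, Fintype.mem_piFinset, Set.mem_ofPred_eq] at ha
    rw [mem_coe, mem_product]
    exact ⟨ha.1 0, Multiset.mem_toFinset.2 (mo_mem hb ha.2)⟩
  · intro a ha a' ha' haa
    simp only [coe_filter, Fintype.mem_piFinset, Set.mem_ofPred_eq] at ha ha'
    simp only [Prod.mk.injEq] at haa
    apply DQ.Smth.gz_inj
    rw [gz_eq ha.2.1, gz_eq ha'.2.1, haa.1, haa.2]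

end SmQ

theorem smooth_small (n m : ℕ) (hn : 4 ≤ n) (b : Fin (m + 1) → ℤ) (h0 : b 0 ≠ 0)
    (hsq : Squarefree (GZ ℚ b)) (ε : ℝ) (hε : 0 < ε) :
    ∃ H₀ : ℕ, ∀ H : ℕ, H₀ ≤ H →
      (BF.cnt n (fun a => ¬ DQ.Smooth a b) H : ℝ) ≤ ε * H ^ (n + 1) := by
  classical
  obtain ⟨H₁, h₁⟩ := BF.reducible_small n (by omega) (ε / 2) (half_pos hε)
  set K : ℕ := (UniqueFactorizationMonoid.normalizedFactors (GZ ℚ b)).toFinset.card with hK
  obtain ⟨H₂, h₂⟩ := exists_nat_ge (3 * K / (ε / 2))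
  refine ⟨H₁ + H₂ + 1, fun H hH => ?_⟩
  have g1 := h₁ H (by omega)
  have hH1 : (1 : ℝ) ≤ H := by exact_mod_cast (by omega : 1 ≤ H)
  have g2 : 3 * K / (ε / 2) ≤ (H : ℝ) := h₂.trans (by exact_mod_cast (by omega : H₂ ≤ H))
  have hle := BF.Redu0.cnt_le_add n (fun a => ¬ DQ.Smooth a b)
    (fun a => a 0 = 0 ∨ IsSquare (a 0) ∨ ¬ Irreducible (GZ ℚ a)) (SmQ.Div b) H (by
      intro a ha
      by_cases ha0 : a 0 = 0
      · exact Or.inl (Or.inl ha0)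
      by_cases hI : Irreducible (GZ ℚ a)
      swap
      · exact Or.inl (Or.inr (Or.inr hI))
      right
      refine ⟨ha0, hI, ?_⟩
      by_contra hd
      apply ha
      refine ⟨ha0, h0, ?_⟩
      exact squarefree_mul_iff.2 ⟨hI.isRelPrime_iff_not_dvd.2 hd, hI.squarefree, hsq⟩)
  have g3 : (BF.cnt n (SmQ.Div b) H : ℝ) ≤ ε / 2 * H ^ (n + 1) := by
    have e1 : (BF.cnt n (SmQ.Div (n := n) b) H : ℝ) ≤ (2 * (H : ℝ) + 1) * K := by
      exact_mod_cast SmQ.cnt_div b hsq.ne_zero H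
    have e2 : 3 * K ≤ H * (ε / 2) := by
      rwa [div_le_iff₀ (half_pos hε)] at g2
    have e3 : (0 : ℝ) ≤ K := Nat.cast_nonneg _
    calc (BF.cnt n (SmQ.Div (n := n) b) H : ℝ) ≤ (2 * (H : ℝ) + 1) * K := e1
      _ ≤ (3 * H) * K := mul_le_mul_of_nonneg_right (by linarith) e3
      _ = (3 * K) * H := by ring
      _ ≤ (H * (ε / 2)) * H := mul_le_mul_of_nonneg_right e2 (by linarith)
      _ = ε / 2 * (H : ℝ) ^ 2 := by ring
      _ ≤ ε / 2 * (H : ℝ) ^ (n + 1) :=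
          mul_le_mul_of_nonneg_left (pow_le_pow_right₀ hH1 (by omega)) (half_pos hε).le
  have k : (BF.cnt n (fun a => ¬ DQ.Smooth a b) H : ℝ) ≤
      (BF.cnt n (fun a => a 0 = 0 ∨ IsSquare (a 0) ∨ ¬ Irreducible (GZ ℚ a)) H : ℝ) +
        (BF.cnt n (SmQ.Div b) H : ℝ) := by exact_mod_cast hle
  linarith

end Stoll308.FQ
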