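import Pool.Agent.Work.MP_308fa9_nt.FQ.Basic
import Pool.Agent.Work.MP_308fa9_nt.ChebE
import Pool.Agent.Work.MP_308fa9_nt.BF.PairEx

set_option autoImplicit false

/-!
The primes modulo which `q` splits.
-/

namespace Stoll308.FQ

open Polynomial Finset BF

namespace SplitAux

lemma gz_map {R S : Type*} [CommRing R] [CommRing S] {n : ℕ} (f : R →+* S)
    (a : Fin (n + 1) → ℤ) : (GZ R a).map f = GZ S a := BF.PairEx.GZ_map f a

lemma simple_of_card {K : Type*} [Field K] {m : ℕ} (Q : K[X]) (hQ : Q ≠ 0)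
    (hn : Q.natDegree ≤ m) (T : Finset K) (hT : T.card = m) (hr : ∀ a ∈ T, Q.eval a = 0) :
    (∀ a ∈ T, (derivative Q).eval a ≠ 0) ∧ (∀ x, Q.eval x = 0 → x ∈ T) ∧ Q.Splits := by
  classical
  have hsub : T ⊆ Q.roots.toFinset := by
    intro a ha
    rw [Multiset.mem_toFinset, mem_roots hQ]
    exact hr a ha
  have h1 : Q.roots.toFinset.card ≤ Multiset.card Q.roots := Multiset.toFinset_card_le _
  have h2 : Multiset.card Q.roots ≤ Q.natDegree := card_roots' Q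
  have h3 := Finset.card_le_card hsub
  have heq : T = Q.roots.toFinset := Finset.eq_of_subset_of_card_le hsub (by omega)
  have hnd : Q.roots.Nodup := Multiset.toFinset_card_eq_card_iff_nodup.1 (by omega)
  refine ⟨?_, ?_, ?_⟩
  · intro a ha h0
    have h4 : 1 < Q.rootMultiplicity a :=
      (one_lt_rootMultiplicity_iff_isRoot hQ).2 ⟨hr a ha, h0⟩
    rw [← count_roots] at h4
    have := Multiset.nodup_iff_count_le_one.1 hnd a
    omega
  · intro x hx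
    rw [heq, Multiset.mem_toFinset, mem_roots hQ]
    exact hx
  · rw [splits_iff_card_roots]
    omega

lemma gz_ne_zero {K : Type*} [Field K] {m : ℕ} (b : Fin (m + 1) → ℤ) (h : ((b 0 : ℤ) : K) ≠ 0) :
    GZ K b ≠ 0 := by
  intro h0
  have h1 := BF.PairEx.GZ_coeff (R := K) b
  rw [h0, coeff_zero] at h1
  exact h h1.symm

lemma gz_natDegree {m : ℕ} (b : Fin (m + 1) → ℤ) (h0 : b 0 ≠ 0) : (GZ ℤ b).natDegree = m := by
  apply natDegree_eq_of_le_of_coeff_ne_zero (BF.PairEx.GZ_natDegree_le b)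
  rw [BF.PairEx.GZ_coeff]
  exact_mod_cast h0

lemma gz_lead {m : ℕ} (b : Fin (m + 1) → ℤ) (h0 : b 0 ≠ 0) : (GZ ℤ b).leadingCoeff = b 0 := by
  rw [leadingCoeff, gz_natDegree b h0, BF.PairEx.GZ_coeff]
  exact Int.cast_id

/-- The monic polynomial with the roots `b 0 * ρ`. -/
noncomputable def f1 {m : ℕ} (b : Fin (m + 1) → ℤ) : ℤ[X] := integralNormalization (GZ ℤ b)

lemma gzZ_ne {m : ℕ} (b : Fin (m + 1) → ℤ) (h0 : b 0 ≠ 0) : GZ ℤ b ≠ 0 := by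
  intro h
  have h1 := BF.PairEx.GZ_coeff (R := ℤ) b
  rw [h, coeff_zero] at h1
  exact h0 (by exact_mod_cast h1.symm)

lemma f1_monic {m : ℕ} (b : Fin (m + 1) → ℤ) (h0 : b 0 ≠ 0) : (f1 b).Monic :=
  monic_integralNormalization (gzZ_ne b h0)

lemma f1_natDegree {m : ℕ} (b : Fin (m + 1) → ℤ) (h0 : b 0 ≠ 0) : (f1 b).natDegree = m := by
  have h : (f1 b).degree = (GZ ℤ b).degree := degree_integralNormalization
  rw [natDegree_eq_of_degree_eq h, gz_natDegree b h0]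

lemma f1_eval {m : ℕ} (hm : 1 ≤ m) (b : Fin (m + 1) → ℤ) (h0 : b 0 ≠ 0) {S : Type*} [CommRing S]
    (x : S) : ((f1 b).map (Int.castRingHom S)).eval ((b 0 : S) * x) =
      (b 0 : S) ^ (m - 1) * (GZ S b).eval x := by
  have h := integralNormalization_eval₂_leadingCoeff_mul (p := GZ ℤ b)
    (by rw [gz_natDegree b h0]; exact hm) (Int.castRingHom S) x
  rw [gz_lead b h0, gz_natDegree b h0, eq_intCast] at h
  rw [eval_map, ← gz_map (Int.castRingHom S) b, eval_map]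
  exact h

lemma f1_sep {m : ℕ} (hm : 1 ≤ m) (b : Fin (m + 1) → ℤ) (h0 : b 0 ≠ 0)
    (hsq : Squarefree (GZ ℚ b)) : ((f1 b).map (Int.castRingHom ℚ)).Separable := by
  have h0' : ((b 0 : ℤ) : ℚ) ≠ 0 := by exact_mod_cast h0
  have hsep : (GZ ℚ b).Separable := (PerfectField.separable_iff_squarefree).2 hsq
  have e : (f1 b).map (Int.castRingHom ℚ) =
      C (((b 0 : ℤ) : ℚ) ^ (m - 1)) * (GZ ℚ b).comp (C (((b 0 : ℤ) : ℚ)⁻¹) * X) := by
    apply Polynomial.funext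
    intro x
    have h := f1_eval hm b h0 (S := ℚ) (((b 0 : ℤ) : ℚ)⁻¹ * x)
    rw [← mul_assoc, mul_inv_cancel₀ h0', one_mul] at h
    rw [h, eval_mul, eval_C, eval_comp, eval_mul, eval_C, eval_X]
  rw [e]
  obtain ⟨u, v, huv⟩ := hsep
  set L : ℚ[X] := C (((b 0 : ℤ) : ℚ)⁻¹) * X with hL
  set c : ℚ := ((b 0 : ℤ) : ℚ) ^ (m - 1) with hc
  have hc0 : c ≠ 0 := pow_ne_zero _ h0'
  have hdL : derivative L = C (((b 0 : ℤ) : ℚ)⁻¹) := by
    rw [hL, derivative_C_mul, derivative_X, mul_one]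
  refine ⟨C c⁻¹ * u.comp L, C (c⁻¹ * ((b 0 : ℤ) : ℚ)) * v.comp L, ?_⟩
  have h2 := congrArg (fun q : ℚ[X] => q.comp L) huv
  simp only [add_comp, mul_comp, one_comp] at h2
  rw [derivative_C_mul, derivative_comp, hdL, ← h2]
  have h4 : (C c⁻¹ : ℚ[X]) * C c = 1 := by
    rw [← C_mul, inv_mul_cancel₀ hc0, C_1]
  have h5 : (C (c⁻¹ * ((b 0 : ℤ) : ℚ)) : ℚ[X]) * (C c * C (((b 0 : ℤ) : ℚ)⁻¹)) = 1 := by
    rw [← C_mul, ← C_mul]
    have : c⁻¹ * ((b 0 : ℤ) : ℚ) * (c * (((b 0 : ℤ) : ℚ)⁻¹)) = 1 := by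
      field_simp
    rw [this, C_1]
  linear_combination (u.comp L * (GZ ℚ b).comp L) * h4 +
    (v.comp L * (derivative (GZ ℚ b)).comp L) * h5

/-- The roots of `q` modulo a prime at which `f1` splits. -/
lemma exists_roots {m : ℕ} (hm : 1 ≤ m) (b : Fin (m + 1) → ℤ) (h0 : b 0 ≠ 0) (l : ℕ)
    [hl : Fact l.Prime] (hlb : ¬ (l : ℤ) ∣ b 0)
    (hR : (Gen.R (f1 b) l).card = (f1 b).natDegree) :
    ∃ T : Finset (ZMod l), T.card = m ∧ ∀ a ∈ T, (GZ (ZMod l) b).eval a = 0 := by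
  classical
  have hb : ((b 0 : ℤ) : ZMod l) ≠ 0 := by
    intro h
    exact hlb ((ZMod.intCast_zmod_eq_zero_iff_dvd _ _).1 h)
  rw [Cheb.card_R, f1_natDegree b h0] at hR
  unfold Cheb.nroots at hR
  rw [Nat.card_eq_fintype_card, Fintype.card_subtype] at hR
  set T0 := Finset.filter (fun r => ((f1 b).map (Int.castRingHom (ZMod l))).IsRoot r)
    Finset.univ with hT0
  refine ⟨T0.image (fun r => ((b 0 : ℤ) : ZMod l)⁻¹ * r), ?_, ?_⟩
  · rw [Finset.card_image_of_injective _ (mul_right_injective₀ (inv_ne_zero hb))]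
    exact hR
  · intro a ha
    obtain ⟨r, hr, rfl⟩ := Finset.mem_image.1 ha
    rw [hT0, Finset.mem_filter] at hr
    have h := f1_eval hm b h0 (S := ZMod l) (((b 0 : ℤ) : ZMod l)⁻¹ * r)
    rw [← mul_assoc, mul_inv_cancel₀ hb, one_mul, hr.2] at h
    exact (mul_eq_zero.1 h.symm).resolve_left (pow_ne_zero _ hb)

lemma eval_toZMod {l : ℕ} [Fact l.Prime] {m : ℕ} (b : Fin (m + 1) → ℤ) (x : ℤ_[l]) :
    PadicInt.toZMod ((GZ ℤ_[l] b).eval x) = (GZ (ZMod l) b).eval (PadicInt.toZMod x) := by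
  rw [← gz_map (PadicInt.toZMod (p := l)) b, eval_map, eval₂_at_apply]

lemma derivative_toZMod {l : ℕ} [Fact l.Prime] {m : ℕ} (b : Fin (m + 1) → ℤ) (x : ℤ_[l]) :
    PadicInt.toZMod ((derivative (GZ ℤ_[l] b)).eval x) =
      (derivative (GZ (ZMod l) b)).eval (PadicInt.toZMod x) := by
  rw [← gz_map (PadicInt.toZMod (p := l)) b, derivative_map, eval_map, eval₂_at_apply]

lemma norm_lt_of_toZMod {l : ℕ} [Fact l.Prime] {x : ℤ_[l]} (h : PadicInt.toZMod x = 0) :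
    ‖x‖ < 1 := by
  have h1 : x ∈ RingHom.ker (PadicInt.toZMod (p := l)) := h
  rw [PadicInt.ker_toZMod] at h1
  exact PadicInt.mem_nonunits.1 ((IsLocalRing.mem_maximalIdeal _).1 h1)

lemma norm_eq_of_toZMod {l : ℕ} [Fact l.Prime] {x : ℤ_[l]} (h : PadicInt.toZMod x ≠ 0) :
    ‖x‖ = 1 := by
  by_contra h1
  apply h
  have h2 : x ∈ RingHom.ker (PadicInt.toZMod (p := l)) := by
    rw [PadicInt.ker_toZMod]
    exact (IsLocalRing.mem_maximalIdeal _).2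
      (PadicInt.mem_nonunits.2 (lt_of_le_of_ne (PadicInt.norm_le_one x) h1))
  exact h2

/-- Hensel. -/
lemma lift_root {l : ℕ} [hl : Fact l.Prime] {m : ℕ} (b : Fin (m + 1) → ℤ) (a : ZMod l)
    (h1 : (GZ (ZMod l) b).eval a = 0) (h2 : (derivative (GZ (ZMod l) b)).eval a ≠ 0) :
    ∃ ρ : ℤ_[l], (GZ ℤ_[l] b).eval ρ = 0 ∧ IsUnit ((derivative (GZ ℤ_[l] b)).eval ρ) ∧
      PadicInt.toZMod ρ = a := by
  have hNe : NeZero l := ⟨hl.out.ne_zero⟩
  obtain ⟨x, hx⟩ : ∃ x : ℤ_[l], x = ((a.val : ℕ) : ℤ_[l]) := ⟨_, rfl⟩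
  have hxa : PadicInt.toZMod x = a := by
    rw [hx, map_natCast, ZMod.natCast_zmod_val]
  have e1 : ‖(GZ ℤ_[l] b).eval x‖ < 1 := by
    apply norm_lt_of_toZMod
    rw [eval_toZMod, hxa, h1]
  have e2 : ‖(derivative (GZ ℤ_[l] b)).eval x‖ = 1 := by
    apply norm_eq_of_toZMod
    rw [derivative_toZMod, hxa]
    exact h2
  obtain ⟨z, hz, hz', hz'', -⟩ := hensels_lemma (p := l) (R := ℤ_[l]) (F := GZ ℤ_[l] b)
    (a := x) (by
      simp only [coe_aeval_eq_eval]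
      rw [e2, one_pow]
      exact e1)
  simp only [coe_aeval_eq_eval] at hz hz' hz''
  rw [e2] at hz' hz''
  refine ⟨z, hz, PadicInt.isUnit_iff.2 hz'', ?_⟩
  rw [← hxa, ← sub_eq_zero, ← map_sub]
  have h3 : z - x ∈ RingHom.ker (PadicInt.toZMod (p := l)) := by
    rw [PadicInt.ker_toZMod]
    exact (IsLocalRing.mem_maximalIdeal _).2 (PadicInt.mem_nonunits.2 hz')
  exact h3

/-- The statement at one prime. -/
lemma at_prime {m : ℕ} (hm : 1 ≤ m) (b : Fin (m + 1) → ℤ) (h0 : b 0 ≠ 0) (l : ℕ)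
    [hl : Fact l.Prime] (hlb : ¬ (l : ℤ) ∣ b 0)
    (hR : (Gen.R (f1 b) l).card = (f1 b).natDegree)
    (g : ℚ[X]) (hg : g ∣ GZ ℚ b) (hg1 : 1 ≤ g.natDegree) :
    ∃ ρ : ℤ_[l], (g.map (algebraMap ℚ ℚ_[l])).eval (ρ : ℚ_[l]) = 0 ∧
      IsUnit ((derivative (GZ ℤ_[l] b)).eval ρ) := by
  classical
  have hb : ((b 0 : ℤ) : ZMod l) ≠ 0 := by
    intro h
    exact hlb ((ZMod.intCast_zmod_eq_zero_iff_dvd _ _).1 h)
  have hbq : ((b 0 : ℤ) : ℚ_[l]) ≠ 0 := by exact_mod_cast h0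
  obtain ⟨T, hT, hTr⟩ := exists_roots hm b h0 l hlb hR
  have hsim := (simple_of_card (GZ (ZMod l) b) (gz_ne_zero b hb) (BF.PairEx.GZ_natDegree_le b)
    T hT hTr).1
  have hlift : ∀ a : T, ∃ ρ : ℤ_[l], (GZ ℤ_[l] b).eval ρ = 0 ∧
      IsUnit ((derivative (GZ ℤ_[l] b)).eval ρ) ∧ PadicInt.toZMod ρ = a.1 :=
    fun a => lift_root b a.1 (hTr a.1 a.2) (hsim a.1 a.2)
  choose ρ h1 h2 h3 using hlift
  have hinj : Function.Injective (fun a : T => (ρ a : ℚ_[l])) := by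
    intro a a' h
    have : ρ a = ρ a' := Subtype.ext h
    apply Subtype.ext
    rw [← h3 a, ← h3 a', this]
  obtain ⟨U, hU⟩ : ∃ U : Finset ℚ_[l], U = (Finset.univ : Finset T).image
    (fun a : T => (ρ a : ℚ_[l])) := ⟨_, rfl⟩
  have hUc : U.card = m := by
    rw [hU, Finset.card_image_of_injective _ hinj, Finset.card_univ, Fintype.card_coe, hT]
  have hUr : ∀ x ∈ U, (GZ ℚ_[l] b).eval x = 0 := by
    intro x hx
    rw [hU] at hx
    obtain ⟨a, -, rfl⟩ := Finset.mem_image.1 hx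
    have h4 : GZ ℚ_[l] b = (GZ ℤ_[l] b).map (PadicInt.Coe.ringHom (p := l)) :=
      (gz_map _ b).symm
    rw [h4, eval_map]
    have h5 : eval₂ (PadicInt.Coe.ringHom (p := l)) ((ρ a : ℤ_[l]) : ℚ_[l]) (GZ ℤ_[l] b) =
        PadicInt.Coe.ringHom (p := l) ((GZ ℤ_[l] b).eval (ρ a)) := by
      rw [← eval₂_at_apply]
      rfl
    rw [h5, h1 a, map_zero]
  have hq0 := gz_ne_zero (K := ℚ_[l]) b hbq
  obtain ⟨-, hmem, hspl⟩ := simple_of_card (GZ ℚ_[l] b) hq0 (BF.PairEx.GZ_natDegree_le b) U hUc hUr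
  have hgd : g.map (algebraMap ℚ ℚ_[l]) ∣ GZ ℚ_[l] b := by
    have := Polynomial.map_dvd (algebraMap ℚ ℚ_[l]) hg
    rwa [gz_map] at this
  have hgs : (g.map (algebraMap ℚ ℚ_[l])).Splits := hspl.of_dvd hq0 hgd
  obtain ⟨x, hx⟩ := hgs.exists_eval_eq_zero (by
    rw [degree_map]
    intro h
    have := natDegree_eq_zero_iff_degree_le_zero.2 h.le
    omega)
  have hxU : x ∈ U := hmem x (by
    obtain ⟨k, hk⟩ := hgd
    rw [hk, eval_mul, hx, zero_mul])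
  rw [hU] at hxU
  obtain ⟨a, -, rfl⟩ := Finset.mem_image.1 hxU
  exact ⟨ρ a, hx, h2 a⟩

lemma dense_mono {S S' : Set ℕ} (h : S ⊆ S') (hS : Dense S) : Dense S' := by
  classical
  intro T
  obtain ⟨z, hz⟩ := hS T
  refine ⟨z, hz.trans ?_⟩
  refine Finset.sum_le_sum_of_subset_of_nonneg ?_ fun _ _ _ => by positivity
  intro l hl
  rw [Finset.mem_filter] at hl ⊢
  exact ⟨hl.1, hl.2.1, h hl.2.2⟩

lemma dense_of {S : Set ℕ} (h : ∀ T : ℝ, ∃ (z : ℕ) (F : Finset ℕ),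
    (∀ l ∈ F, 5 ≤ l ∧ l ≤ z ∧ l.Prime ∧ l ∈ S) ∧ T ≤ ∑ l ∈ F, (1 : ℝ) / l) : Dense S := by
  classical
  intro T
  obtain ⟨z, F, hF, hT⟩ := h T
  refine ⟨z, hT.trans ?_⟩
  refine Finset.sum_le_sum_of_subset_of_nonneg ?_ fun _ _ _ => by positivity
  intro l hl
  obtain ⟨h1, h2, h3, h4⟩ := hF l hl
  rw [Finset.mem_filter, Finset.mem_Icc]
  exact ⟨⟨h1, h2⟩, h3, h4⟩

/-- The primes at which `f1` splits are dense. -/
lemma dense_split {m : ℕ} (hm : 1 ≤ m) (b : Fin (m + 1) → ℤ) (h0 : b 0 ≠ 0)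
    (hsq : Squarefree (GZ ℚ b)) :
    Dense {l | l.Prime ∧ ¬ (l : ℤ) ∣ b 0 ∧ (Gen.R (f1 b) l).card = (f1 b).natDegree} := by
  classical
  obtain ⟨κ, B, hκ, hM⟩ := Cheb.splitMert (f1 b) (f1_monic b h0) (f1_sep hm b h0 hsq)
  apply dense_of
  intro T
  obtain ⟨x, hx⟩ : ∃ x : ℝ, x = ((max 5 (b 0).natAbs : ℕ) : ℝ) := ⟨_, rfl⟩
  have hx5 : 5 ≤ x := by rw [hx]; exact_mod_cast le_max_left _ _
  have htend : Filter.Tendsto (fun y : ℝ => Real.log (Real.log y)) Filter.atTop Filter.atTop :=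
    Real.tendsto_log_atTop.comp Real.tendsto_log_atTop
  obtain ⟨y, hy1, hy2⟩ := ((htend.eventually_ge_atTop
    ((T + B) / κ + Real.log (Real.log x))).and (Filter.eventually_ge_atTop x)).exists
  have h1 := hM x y (by linarith) hy2
  have h2 : T ≤ κ * (Real.log (Real.log y) - Real.log (Real.log x)) - B := by
    have : (T + B) / κ ≤ Real.log (Real.log y) - Real.log (Real.log x) := by linarith
    rw [div_le_iff₀ hκ] at this
    linarith
  refine ⟨⌊y⌋₊, _, ?_, h2.trans h1⟩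
  intro l hl
  rw [Finset.mem_filter, Finset.mem_Icc] at hl
  obtain ⟨⟨-, hly⟩, hlp, hlx, hlR⟩ := hl
  have hlx' : max 5 (b 0).natAbs < l := by
    rw [hx] at hlx
    exact_mod_cast hlx
  refine ⟨by omega, hly, hlp, hlp, ?_, hlR⟩
  intro hd
  have h3 : l ∣ (b 0).natAbs := Int.natCast_dvd.1 hd
  have h4 := Nat.le_of_dvd (Int.natAbs_pos.2 h0) h3
  omega

end SplitAux

open SplitAux

/-- The primes modulo which `g` has a root which is a simple root of `q`. -/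
theorem dense_root_factor {m : ℕ} (b : Fin (m + 1) → ℤ) (h0 : b 0 ≠ 0)
    (hsq : Squarefree (GZ ℚ b)) (g : ℚ[X]) (hg : g ∣ GZ ℚ b) (hg1 : 1 ≤ g.natDegree) :
    Dense {l | ∃ _ : Fact l.Prime, ∃ ρ : ℤ_[l], (g.map (algebraMap ℚ ℚ_[l])).eval (ρ : ℚ_[l]) = 0 ∧
      IsUnit ((derivative (GZ ℤ_[l] b)).eval ρ)} := by
  have h0' : ((b 0 : ℤ) : ℚ) ≠ 0 := by exact_mod_cast h0
  have hm : 1 ≤ m := by
    have h1 := natDegree_le_of_dvd hg (gz_ne_zero b h0')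
    have h2 := BF.PairEx.GZ_natDegree_le (R := ℚ) b
    omega
  refine dense_mono ?_ (dense_split hm b h0 hsq)
  rintro l ⟨hp, hlb, hR⟩
  have hl : Fact l.Prime := ⟨hp⟩
  exact ⟨hl, at_prime hm b h0 l hlb hR g hg hg1⟩

theorem dense_root {m : ℕ} (hm : 1 ≤ m) (b : Fin (m + 1) → ℤ) (h0 : b 0 ≠ 0)
    (hsq : Squarefree (GZ ℚ b)) : Dense {l | ∃ r : ℤ, Root b l r} := by
  have h0' : ((b 0 : ℤ) : ℚ) ≠ 0 := by exact_mod_cast h0
  have hdeg : (GZ ℚ b).natDegree = m := by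
    apply natDegree_eq_of_le_of_coeff_ne_zero (BF.PairEx.GZ_natDegree_le b)
    rw [BF.PairEx.GZ_coeff]
    exact h0'
  refine dense_mono ?_ (dense_root_factor b h0 hsq (GZ ℚ b) dvd_rfl (by rw [hdeg]; exact hm))
  rintro l ⟨hl, ρ, h1, h2⟩
  -- `ρ` is a root in `ℤ_l`
  have h3 : (GZ ℤ_[l] b).eval ρ = 0 := by
    have h4 : (GZ ℚ b).map (algebraMap ℚ ℚ_[l]) =
        (GZ ℤ_[l] b).map (PadicInt.Coe.ringHom (p := l)) := by
      rw [gz_map, gz_map]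
    rw [h4, eval_map] at h1
    have h5 : eval₂ (PadicInt.Coe.ringHom (p := l)) (ρ : ℚ_[l]) (GZ ℤ_[l] b) =
        PadicInt.Coe.ringHom (p := l) ((GZ ℤ_[l] b).eval ρ) := by
      rw [← eval₂_at_apply]
      rfl
    rw [h5] at h1
    exact Subtype.ext h1
  obtain ⟨r, hr⟩ : ∃ r : ℤ, r = ((PadicInt.appr ρ 2 : ℕ) : ℤ) := ⟨_, rfl⟩
  have hspec := PadicInt.appr_spec 2 ρ
  rw [Ideal.mem_span_singleton] at hspec
  have hrρ : (l : ℤ_[l]) ^ 2 ∣ ρ - (r : ℤ_[l]) := by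
    rw [hr, Int.cast_natCast]
    exact hspec
  have hcast : ∀ f : ℤ[X], (f.map (Int.castRingHom ℤ_[l])).eval (r : ℤ_[l]) =
      ((f.eval r : ℤ) : ℤ_[l]) := by
    intro f
    rw [eval_intCast_map, eq_intCast, Int.cast_id]
  refine ⟨r, ?_, ?_⟩
  · have h6 : (l : ℤ_[l]) ^ 2 ∣ (GZ ℤ_[l] b).eval ρ - (GZ ℤ_[l] b).eval (r : ℤ_[l]) :=
      hrρ.trans (sub_dvd_eval_sub _ _ _)
    rw [h3, zero_sub, dvd_neg, ← gz_map (Int.castRingHom ℤ_[l]) b, hcast] at h6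
    exact (PadicInt.pow_p_dvd_int_iff 2 _).1 h6
  · intro hd
    have h6 : (l : ℤ_[l]) ∣ (derivative (GZ ℤ_[l] b)).eval ρ -
        (derivative (GZ ℤ_[l] b)).eval (r : ℤ_[l]) :=
      ((dvd_pow_self _ two_ne_zero).trans hrρ).trans (sub_dvd_eval_sub _ _ _)
    have h7 : (l : ℤ_[l]) ∣ (derivative (GZ ℤ_[l] b)).eval (r : ℤ_[l]) := by
      rw [← gz_map (Int.castRingHom ℤ_[l]) b, derivative_map, hcast]
      obtain ⟨k, hk⟩ := hd
      rw [hk]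
      push_cast
      exact dvd_mul_right _ _
    have h8 : (l : ℤ_[l]) ∣ (derivative (GZ ℤ_[l] b)).eval ρ := by
      have := dvd_add h6 h7
      rwa [sub_add_cancel] at this
    have h9 := isUnit_of_dvd_unit h8 h2
    exact PadicInt.p_nonunit h9

end Stoll308.FQ
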