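import Pool.Agent.Work.MP_308fa9_nt.DQ.Upper
import Pool.Agent.Work.MP_308fa9_nt.FQ.FinP
import Pool.Agent.Work.MP_308fa9_nt.FQ.LargeT
import Pool.Agent.Work.MP_308fa9_nt.FQ.BadOf
import Pool.Agent.Work.MP_308fa9_nt.FQ.Split
import Pool.Agent.Work.MP_308fa9_nt.FQ.LCondQ

set_option autoImplicit false

/-!
The upper bound.
-/

namespace Stoll308.FQ

open Polynomial Finset Matrix BG BF SC DQ

lemma Dense.of_gt {S S' : Set ℕ} (h : Dense S) (M : ℕ) (hS : ∀ l ∈ S, M < l → l ∈ S') :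
    Dense S' := by
  classical
  intro T
  obtain ⟨z, hz⟩ := h (T + ∑ l ∈ Icc 1 M, (1 : ℝ) / l)
  refine ⟨z, ?_⟩
  have h1 : (Icc 5 z).filter (fun l => l.Prime ∧ l ∈ S) ⊆
      (Icc 5 z).filter (fun l => l.Prime ∧ l ∈ S') ∪ Icc 1 M := by
    intro l hl
    rw [mem_filter] at hl
    by_cases hM : M < l
    · exact mem_union_left _ (mem_filter.2 ⟨hl.1, hl.2.1, hS l hl.2.2 hM⟩)
    · refine mem_union_right _ (mem_Icc.2 ?_)
      have := hl.2.1.pos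
      omega
  have h2 : ∑ l ∈ (Icc 5 z).filter (fun l => l.Prime ∧ l ∈ S), (1 : ℝ) / l ≤
      ∑ l ∈ (Icc 5 z).filter (fun l => l.Prime ∧ l ∈ S'), (1 : ℝ) / l +
        ∑ l ∈ Icc 1 M, (1 : ℝ) / l := by
    refine (sum_le_sum_of_subset_of_nonneg h1 fun l _ _ => by positivity).trans ?_
    have h3 := sum_union_inter (s₁ := (Icc 5 z).filter
      (fun l => l.Prime ∧ l ∈ S')) (s₂ := Icc 1 M)
      (f := fun l : ℕ => (1 : ℝ) / l)
    have h4 : (0 : ℝ) ≤ ∑ l ∈ (Icc 5 z).filter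
      (fun l => l.Prime ∧ l ∈ S') ∩ Icc 1 M, (1 : ℝ) / l :=
      sum_nonneg fun l _ => by positivity
    linarith
  linarith

/-- The signs for a pair of the fixed polynomial. -/
lemma exists_sign {n m : ℕ} (he : Even n) (hem : Even m) (b : Fin (m + 1) → ℤ) (M N : ℕ)
    (hN : 0 < N) (hNM : N ≤ M) (r : ℕ → ℤ) (A' B' : Matrix (Fin m) (Fin m) ℤ) (hA : A'.IsSymm)
    (hB : B'.IsSymm) (h : HasChar (sc N b) A' B') :
    ∃ s : ℕ → ℤ, (∀ l, s l = 1 ∨ s l = -1) ∧ ∀ l : ℕ, l.Prime → 5 ≤ l → M < l → Root b l (r l) →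
      ∀ A B : Matrix (Fin n) (Fin n) ℤ, BadZ (s l) l A (B - r l • A) → DQ.Bad l A B A' B' := by
  have key : ∀ l : ℕ, ∃ s : ℤ, (s = 1 ∨ s = -1) ∧ (l.Prime → 5 ≤ l → M < l → Root b l (r l) →
      ∀ A B : Matrix (Fin n) (Fin n) ℤ, BadZ s l A (B - r l • A) → DQ.Bad l A B A' B') := by
    intro l
    by_cases hl : l.Prime ∧ 5 ≤ l ∧ M < l ∧ Root b l (r l)
    · obtain ⟨hp, h5, hMl, hr1, hr2⟩ := hl
      have : Fact l.Prime := ⟨hp⟩
      obtain ⟨e1, e2⟩ := char_at hem h (r l)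
      have e3 : (GZ ℤ (sc N b)).eval (r l) = (N : ℤ) ^ 2 * (GZ ℤ b).eval (r l) := by
        rw [GZ_sc, eval_mul, eval_C]
      have e4 : (derivative (GZ ℤ (sc N b))).eval (r l) =
          (N : ℤ) ^ 2 * (derivative (GZ ℤ b)).eval (r l) := by
        rw [GZ_sc, derivative_mul, derivative_C, zero_mul, zero_add, eval_mul, eval_C]
      have hlN : ¬ (l : ℤ) ∣ (N : ℤ) ^ 2 := by
        intro h
        have h1 := (Nat.prime_iff_prime_int.1 hp).dvd_of_dvd_pow h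
        rw [Int.natCast_dvd_natCast] at h1
        have := Nat.le_of_dvd hN h1
        omega
      obtain ⟨s, hs, h6⟩ := bad_of (n := n) he hem l (by omega) A' B' hA hB (r l)
        (by
          rw [e1, e3]
          exact Dvd.dvd.mul_left (Dvd.dvd.mul_left hr1 _) _)
        (by
          rw [e2, e4]
          intro h
          rw [Int.dvd_neg] at h
          have hpr := Nat.prime_iff_prime_int.1 hp
          rcases hpr.dvd_or_dvd h with h | h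
          · have h1 := hpr.dvd_of_dvd_pow h
            rw [Int.dvd_neg] at h1
            exact hpr.not_isUnit (isUnit_of_dvd_one h1)
          · rcases hpr.dvd_or_dvd h with h | h
            · exact hlN h
            · exact hr2 h)
      exact ⟨s, hs, fun _ _ _ _ => h6⟩
    · refine ⟨1, Or.inl rfl, fun h1 h2 h3 h4 => absurd ⟨h1, h2, h3, h4⟩ hl⟩
  choose s hs1 hs2 using key
  exact ⟨s, hs1, hs2⟩

theorem oddSel_small (n m : ℕ) (hn : 4 ≤ n) (he : Even n) (hm : 2 ≤ m) (hem : Even m)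
    (b : Fin (m + 1) → ℤ) (h0b : b 0 ≠ 0) (hsqf : Squarefree (GZ ℚ b)) (ε : ℝ) (hε : 0 < ε) :
    ∃ H₀ : ℕ, ∀ H : ℕ, H₀ ≤ H →
      (BF.cnt n (fun a => DQ.OddSel a b) H : ℝ) ≤ ε * H ^ (n + 1) := by
  classical
  obtain ⟨K, hK1, hred⟩ := DQ.red_of_pair hn he
  obtain ⟨P, R, H₁, hP, hR, h1⟩ := exc_small n hn he K hK1 (ε / 2) (by positivity)
  obtain ⟨M', F, hF⟩ := fin_pairs hm hem b h0b hsqf
  obtain ⟨M, hM⟩ : ∃ M : ℕ, M = P.factorial ^ (2 * n) := ⟨_, rfl⟩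
  have hM1 : 1 ≤ M := by
    rw [hM]
    exact Nat.one_le_pow _ _ P.factorial_pos
  have hMr : (1 : ℝ) ≤ M := by exact_mod_cast hM1
  -- the primes
  obtain ⟨S, hSdef⟩ : ∃ S : Set ℕ, S = {l | l ∈ {l | ∃ r : ℤ, Root b l r} ∧ M' < l} := ⟨_, rfl⟩
  have hS : Dense S := by
    refine (dense_root (by omega) b h0b hsqf).of_gt M' fun l hl hM => ?_
    rw [hSdef]
    exact ⟨hl, hM⟩
  have hr : ∀ l : ℕ, ∃ r : ℤ, l ∈ S → Root b l r := by
    intro l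
    by_cases hl : l ∈ S
    · obtain ⟨r, hr⟩ := (hSdef ▸ hl : l ∈ {l | l ∈ {l | ∃ r : ℤ, Root b l r} ∧ M' < l}).1
      exact ⟨r, fun _ => hr⟩
    · exact ⟨0, fun h => absurd h hl⟩
  choose r hr using hr
  have hSM : ∀ l ∈ S, M' < l := by
    intro l hl
    rw [hSdef] at hl
    exact hl.2
  -- the signs
  have hsgn : ∀ x : Matrix (Fin m) (Fin m) ℤ × Matrix (Fin m) (Fin m) ℤ,
      ∃ s : ℕ → ℤ, (∀ l, s l = 1 ∨ s l = -1) ∧
        ((∃ N : ℕ, 0 < N ∧ N ≤ M' ∧ x.1.IsSymm ∧ x.2.IsSymm ∧ HasChar (sc N b) x.1 x.2) →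
          ∀ l : ℕ, l.Prime → 5 ≤ l → l ∈ S → ∀ A B : Matrix (Fin n) (Fin n) ℤ,
            BadZ (s l) l A (B - r l • A) → DQ.Bad l A B x.1 x.2) := by
    intro x
    by_cases hx : ∃ N : ℕ, 0 < N ∧ N ≤ M' ∧ x.1.IsSymm ∧ x.2.IsSymm ∧ HasChar (sc N b) x.1 x.2
    · obtain ⟨N, hN, hNM, hA, hB, hc⟩ := hx
      obtain ⟨s, hs1, hs2⟩ := exists_sign (n := n) he hem b M' N hN hNM r x.1 x.2 hA hB hc
      exact ⟨s, hs1, fun _ l hl h5 hlS => hs2 l hl h5 (hSM l hlS) (hr l hlS)⟩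
    · exact ⟨fun _ => 1, fun _ => Or.inl rfl, fun h => absurd h hx⟩
  choose s hs1 hs2 using hsgn
  obtain ⟨ε', hε'⟩ : ∃ ε' : ℝ, ε' = ε / 2 / (M * ((F.card + 1) * ((M : ℝ) ^ 2) ^ (n + 1))) :=
    ⟨_, rfl⟩
  have hε'0 : 0 < ε' := by rw [hε']; positivity
  have hlt := fun x => large_t hn he K R hK1 hR S hS r (s x) (hs1 x) ε' hε'0
  choose Hx hHx using hlt
  obtain ⟨H₃, hH₃⟩ : ∃ H₃ : ℝ, ∀ x ∈ F, Hx x ≤ H₃ := by
    refine ⟨∑ x ∈ F, |Hx x|, fun x hx => (le_abs_self _).trans ?_⟩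
    exact single_le_sum (f := fun x => |Hx x|) (fun y _ => abs_nonneg _) hx
  refine ⟨H₁ + ⌈|H₃|⌉₊ + 1, ?_⟩
  intro H hH
  have hH1 : 1 ≤ H := by omega
  have hHr : (1 : ℝ) ≤ H := by exact_mod_cast hH1
  have g1 := h1 R le_rfl H (by omega)
  rw [← hM] at g1
  have hbig : ∀ N : ℕ, 0 < N → H₃ ≤ (N : ℝ) ^ 2 * H := by
    intro N hN
    have hx : ⌈|H₃|⌉₊ ≤ H := by omega
    have e1 : |H₃| ≤ ⌈|H₃|⌉₊ := Nat.le_ceil _
    have e2 : ((⌈|H₃|⌉₊ : ℕ) : ℝ) ≤ H := by exact_mod_cast hx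
    have e3 : (1 : ℝ) ≤ (N : ℝ) ^ 2 := one_le_pow₀ (by exact_mod_cast hN)
    have e4 : (H : ℝ) ≤ (N : ℝ) ^ 2 * H := by
      calc (H : ℝ) = 1 * H := by ring
        _ ≤ (N : ℝ) ^ 2 * H := mul_le_mul_of_nonneg_right e3 (by linarith)
    linarith [le_abs_self H₃]
  set X1 : (Fin (n + 1) → ℤ) → Prop := fun a => ¬ Nice P a ∨ Cusp K R H M a with hX1
  set Q : ℕ → (Matrix (Fin m) (Fin m) ℤ × Matrix (Fin m) (Fin m) ℤ) → (Fin (n + 1) → ℤ) → Prop :=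
    fun N x a => ∃ (A B : Matrix (Fin n) (Fin n) ℤ) (t : Fin n → ℝ),
      BF.RPair K ((N : ℝ) ^ 2 * H) a A B t ∧ (∀ i j, t j ≤ R * t i) ∧
        ∀ l : ℕ, l.Prime → 5 ≤ l → l ∈ S → ¬ BadZ (s x l) l A (B - r l • A) with hQ
  set X3 : (Fin (n + 1) → ℤ) → Prop := fun a =>
    ∃ N, 0 < N ∧ N ≤ M ∧ ∃ x ∈ F, Q N x (SC.sc N a) with hX3
  have hle : BF.cnt n (fun a => DQ.OddSel a b) H ≤ BF.cnt n X1 H + BF.cnt n X3 H := by
    refine le_trans (BF.cnt_mono (Q := fun a => X1 a ∨ X3 a) H ?_) (BF.cnt_or _ _ H)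
    intro a ha h
    by_cases q1 : X1 a
    · exact Or.inl q1
    right
    rw [hX1] at q1
    simp only [not_or, not_not] at q1
    obtain ⟨hna, hca⟩ := q1
    obtain ⟨δ, ε₀, hδ, hε₀, hloc⟩ := h
    have hdloc : ∀ (p : ℕ) [Fact p.Prime], p ≠ 2 → DLoc (GZ ℚ_[p] a) (GZ ℚ_[p] b)
        (δ.map (algebraMap ℚ ℚ_[p])) (ε₀.map (algebraMap ℚ ℚ_[p])) :=
      fun p _ hp => dloc_of_image a b δ ε₀ ℚ_[p] (hloc p hp)
    obtain ⟨κ, hκ, huloc⟩ := exists_scale (by omega) a b hna.1 hna.2.2.1 δ ε₀ hδ hdloc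
    have hκu : IsUnit (C κ : ℚ[X]) := isUnit_C.2 (isUnit_iff_ne_zero.2 hκ)
    have hδ' : IsCoprime (C κ * δ) (GZ ℚ a) := (isCoprime_mul_unit_left_left hκu _ _).2 hδ
    have hε' : IsCoprime (C κ * ε₀) (GZ ℚ b) := (isCoprime_mul_unit_left_left hκu _ _).2 hε₀
    obtain ⟨N, hN, hNM, A, B, t, r1, r2, r3⟩ := one_pair hn he hred P hP a hna H
      (fun i => ha i) (C κ * δ) hδ' (fun p _ hp => by
        obtain ⟨h, e1, e2, -⟩ := huloc p hp
        exact ⟨h, e1, e2⟩)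
    obtain ⟨N', hN', hNM', x, hxF, r2', r3'⟩ := hF (C κ * ε₀) hε' (fun p _ hp => by
        obtain ⟨h, e1, -, e2⟩ := huloc p hp
        exact ⟨h, e1, e2⟩)
    have h0' : SC.sc N' b 0 ≠ 0 := sc_ne h0b hN'
    have hchar := r2'.hasChar h0' r3'
    refine ⟨N, hN, by rw [hM]; exact hNM, x, hxF, A, B, t, r1, ?_, ?_⟩
    · by_contra hcon
      push Not at hcon
      exact hca ⟨N, hN, by rw [hM]; exact hNM, A, B, t, r1, hcon⟩
    · intro l hl h5 hlS hbad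
      have hbad' := hs2 x ⟨N', hN', hNM', r2'.symmA, r2'.symmB, hchar⟩ l hl h5 hlS A B hbad
      have : Fact l.Prime := ⟨hl⟩
      have h2 : l ≠ 2 := by omega
      refine lcond hn he hm hem (SC.sc N a) (SC.sc N' b) (sc_ne hna.1 hN) h0'
        (C κ * δ) (C κ * ε₀) (coprime_sc hδ' hN) (coprime_sc hε' hN') l h2 ?_ A B x.1 x.2 r2 r3
        r2' r3' hbad'
      obtain ⟨h, -, e1, e2⟩ := huloc l h2
      refine ⟨h, 1, one_ne_zero, ?_, ?_⟩
      · rw [C_1, one_mul]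
        exact e1.sc hN
      · rw [C_1, one_mul]
        exact e2.sc hN'
  have k3 : (BF.cnt n X3 H : ℝ) ≤ ε / 2 * H ^ (n + 1) := by
    have e1 := SC.cnt_exists (fun N a => ∃ x ∈ F, Q N x (SC.sc (n := n) N a)) M H
    have e2 : ∀ N ∈ Icc 1 M,
        (BF.cnt n (fun a => ∃ x ∈ F, Q N x (SC.sc (n := n) N a)) H : ℝ) ≤
        (F.card + 1) * (ε' * (((M : ℝ) ^ 2) * H) ^ (n + 1)) := by
      intro N hN
      rw [mem_Icc] at hN
      have hN0 : 0 < N := by omega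
      refine SC.cnt_scale _ (fun a => ∃ x ∈ F, Q N x a) N hN0 H _ (fun a hab => hab) ?_
      intro T hT
      have e3 : (N : ℝ) ≤ M := by exact_mod_cast hN.2
      have e4 : ∀ x ∈ F, ((T.filter fun a => Q N x a).card : ℝ) ≤
          ε' * (((M : ℝ) ^ 2) * H) ^ (n + 1) := by
        intro x hx
        refine (hHx x ((N : ℝ) ^ 2 * H) ((hH₃ x hx).trans (hbig N hN0)) _ ?_).trans ?_
        · intro a ha
          exact (mem_filter.1 ha).2
        · gcongr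
      have e5 : T ⊆ F.biUnion fun x => T.filter fun a => Q N x a := by
        intro a ha
        obtain ⟨x, hx, hxa⟩ := hT a ha
        rw [mem_biUnion]
        exact ⟨x, hx, mem_filter.2 ⟨ha, hxa⟩⟩
      have e6 := (card_le_card e5).trans card_biUnion_le
      calc (T.card : ℝ) ≤ ∑ x ∈ F, ((T.filter fun a => Q N x a).card : ℝ) := by
            exact_mod_cast e6
        _ ≤ ∑ _x ∈ F, ε' * (((M : ℝ) ^ 2) * H) ^ (n + 1) := sum_le_sum e4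
        _ = F.card * (ε' * (((M : ℝ) ^ 2) * H) ^ (n + 1)) := by
            rw [sum_const, nsmul_eq_mul]
        _ ≤ (F.card + 1) * (ε' * (((M : ℝ) ^ 2) * H) ^ (n + 1)) := by
            gcongr
            linarith
    calc (BF.cnt n X3 H : ℝ)
        ≤ ((∑ N ∈ Icc 1 M, BF.cnt n (fun a => ∃ x ∈ F, Q N x (SC.sc (n := n) N a)) H : ℕ) : ℝ) := by
          exact_mod_cast e1
      _ = ∑ N ∈ Icc 1 M, (BF.cnt n (fun a => ∃ x ∈ F, Q N x (SC.sc (n := n) N a)) H : ℝ) := by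
          push_cast; rfl
      _ ≤ ∑ _N ∈ Icc 1 M, (F.card + 1) * (ε' * (((M : ℝ) ^ 2) * H) ^ (n + 1)) :=
          sum_le_sum fun N hN => e2 N hN
      _ = ε / 2 * H ^ (n + 1) := by
          rw [sum_const, Nat.card_Icc, Nat.add_sub_cancel, nsmul_eq_mul, hε', mul_pow]
          field_simp
  calc ((BF.cnt n (fun a => DQ.OddSel a b) H : ℕ) : ℝ)
      ≤ ((BF.cnt n X1 H + BF.cnt n X3 H : ℕ) : ℝ) := by
        exact_mod_cast hle
    _ ≤ ε * H ^ (n + 1) := by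
        push_cast
        linarith

end Stoll308.FQ
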