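import Pool.Agent.Work.MP_308fa9_nt.FQ.Split
import Pool.Agent.Work.MP_308fa9_nt.BG.Cube
import Pool.Agent.Work.MP_308fa9_nt.SC.OddPt

set_option autoImplicit false

/-!
The points with `w = 0` over the fields of odd degree.
-/

namespace Stoll308.FQ

open Polynomial Finset BG BF

namespace ZeroAux

/-- A square root over a field of odd degree. -/
lemma exists_factor {n m : ℕ} (a : Fin (n + 1) → ℤ) (b : Fin (m + 1) → ℤ) (k : Type) [Field k]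
    [Algebra ℚ k] (ho : Odd (Module.finrank ℚ k)) (t y : k) (ht : (GZ k b).eval t = 0)
    (hy : y ^ 2 = (GZ k a).eval t) :
    ∃ g : ℚ[X], Irreducible g ∧ g ∣ GZ ℚ b ∧ ∃ u : ℚ[X], g ∣ GZ ℚ a - u ^ 2 := by
  have hfin : Module.Finite ℚ k := Module.finite_of_finrank_pos ho.pos
  rw [SC.op_GZ_eval] at ht hy
  have hint : IsIntegral ℚ t := Algebra.IsIntegral.isIntegral t
  set K := IntermediateField.adjoin ℚ {t} with hK
  have hmem : ∀ f : ℚ[X], aeval t f ∈ K := by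
    intro f
    have h1 : aeval t f ∈ Algebra.adjoin ℚ {t} := by
      rw [Algebra.adjoin_singleton_eq_range_aeval]
      exact ⟨f, rfl⟩
    exact IntermediateField.algebra_adjoin_le_adjoin ℚ {t} h1
  have hyK : y ∈ K := by
    let c : K := ⟨aeval t (GZ ℚ a), hmem _⟩
    have h1 : aeval y (X ^ 2 - C c : K[X]) = 0 := by
      rw [map_sub, map_pow, aeval_X, aeval_C, hy]
      exact sub_self _
    have hne : (X ^ 2 - C c : K[X]) ≠ 0 := (monic_X_pow_sub_C c two_ne_zero).ne_zero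
    have h2 : (minpoly K y).natDegree ≤ 2 := by
      refine (natDegree_le_of_dvd (minpoly.dvd K y h1) hne).trans ?_
      rw [natDegree_X_pow_sub_C]
    have h3 := SC.op_deg (K := K) y
    have h4 : Module.finrank ℚ K * Module.finrank K k = Module.finrank ℚ k :=
      Module.finrank_mul_finrank ℚ K k
    have h5 : Odd (minpoly K y).natDegree := by
      rw [← h4, Nat.odd_mul, ← h3, Nat.odd_mul] at ho
      exact ho.2.1
    have h6 : (minpoly K y).natDegree = 1 := by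
      obtain ⟨j, hj⟩ := h5
      omega
    obtain ⟨z, hz⟩ := minpoly.natDegree_eq_one_iff.1 h6
    rw [← hz]
    exact z.2
  have h7 : y ∈ Algebra.adjoin ℚ {t} := by
    have h8 : y ∈ K.toSubalgebra := hyK
    rwa [hK, IntermediateField.adjoin_simple_toSubalgebra_of_isAlgebraic hint.isAlgebraic] at h8
  rw [Algebra.adjoin_singleton_eq_range_aeval] at h7
  obtain ⟨u, hu⟩ := h7
  refine ⟨minpoly ℚ t, minpoly.irreducible hint, minpoly.dvd ℚ t ht, u, minpoly.dvd ℚ t ?_⟩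
  have h9 : aeval t u = y := hu
  rw [map_sub, map_pow, ← hy, h9, sub_self]

/-- The local condition. -/
lemma not_exact {n : ℕ} (a : Fin (n + 1) → ℤ) (l : ℕ) [hl : Fact l.Prime] (ρ : ℤ_[l]) (r : ℤ)
    (hr : (l : ℤ_[l]) ^ 2 ∣ ρ - (r : ℤ_[l])) (g u : ℚ[X])
    (hg : (g.map (algebraMap ℚ ℚ_[l])).eval (ρ : ℚ_[l]) = 0) (hu : g ∣ GZ ℚ a - u ^ 2)
    (h1 : (l : ℤ) ∣ (GZ ℤ a).eval r) : (l : ℤ) ^ 2 ∣ (GZ ℤ a).eval r := by
  obtain ⟨w, hw⟩ : ∃ w, w = (u.map (algebraMap ℚ ℚ_[l])).eval (ρ : ℚ_[l]) := ⟨_, rfl⟩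
  have hF : (((GZ ℤ_[l] a).eval ρ : ℤ_[l]) : ℚ_[l]) = w ^ 2 := by
    obtain ⟨k, hk⟩ := hu
    have h2 := congrArg (fun f : ℚ[X] => (f.map (algebraMap ℚ ℚ_[l])).eval (ρ : ℚ_[l])) hk
    simp only [Polynomial.map_sub, Polynomial.map_mul, Polynomial.map_pow, eval_sub, eval_mul,
      eval_pow, hg, zero_mul] at h2
    have h4 : (GZ ℚ a).map (algebraMap ℚ ℚ_[l]) =
        (GZ ℤ_[l] a).map (PadicInt.Coe.ringHom (p := l)) := by
      rw [SplitAux.gz_map, SplitAux.gz_map]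
    rw [h4, eval_map] at h2
    have h5 : eval₂ (PadicInt.Coe.ringHom (p := l)) (ρ : ℚ_[l]) (GZ ℤ_[l] a) =
        PadicInt.Coe.ringHom (p := l) ((GZ ℤ_[l] a).eval ρ) := by
      rw [← eval₂_at_apply]
      rfl
    rw [h5, ← hw] at h2
    exact sub_eq_zero.1 h2
  have hwn : ‖w‖ ≤ 1 := by
    have h3 : ‖w‖ ^ 2 ≤ 1 := by
      rw [← norm_pow, ← hF]
      exact PadicInt.norm_le_one _
    nlinarith [norm_nonneg w]
  obtain ⟨w', hw'⟩ : ∃ w' : ℤ_[l], (w' : ℚ_[l]) = w := ⟨⟨w, hwn⟩, rfl⟩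
  have hF' : (GZ ℤ_[l] a).eval ρ = w' ^ 2 := by
    apply Subtype.ext
    rw [hF, ← hw']
    rfl
  have hcast : ∀ f : ℤ[X], (f.map (Int.castRingHom ℤ_[l])).eval (r : ℤ_[l]) =
      ((f.eval r : ℤ) : ℤ_[l]) := by
    intro f
    rw [eval_intCast_map, eq_intCast, Int.cast_id]
  have h6 : (l : ℤ_[l]) ^ 2 ∣ (GZ ℤ_[l] a).eval ρ - (((GZ ℤ a).eval r : ℤ) : ℤ_[l]) := by
    have h6' : (l : ℤ_[l]) ^ 2 ∣ (GZ ℤ_[l] a).eval ρ - (GZ ℤ_[l] a).eval (r : ℤ_[l]) :=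
      hr.trans (sub_dvd_eval_sub _ _ _)
    rwa [← SplitAux.gz_map (Int.castRingHom ℤ_[l]) a, hcast,
      SplitAux.gz_map (Int.castRingHom ℤ_[l]) a] at h6'
  have h7 : (l : ℤ_[l]) ∣ (((GZ ℤ a).eval r : ℤ) : ℤ_[l]) := by
    obtain ⟨k, hk⟩ := h1
    rw [hk]
    push_cast
    exact dvd_mul_right _ _
  have h8 : (l : ℤ_[l]) ∣ w' ^ 2 := by
    rw [← hF']
    have h := dvd_add ((dvd_pow_self _ two_ne_zero).trans h6) h7
    rwa [sub_add_cancel] at h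
  have h9 := PadicInt.prime_p.dvd_of_dvd_pow h8
  have h10 : (l : ℤ_[l]) ^ 2 ∣ (GZ ℤ_[l] a).eval ρ := by
    rw [hF']
    exact pow_dvd_pow_of_dvd h9 2
  have h11 : (l : ℤ_[l]) ^ 2 ∣ (((GZ ℤ a).eval r : ℤ) : ℤ_[l]) := by
    have h := dvd_sub h10 h6
    rwa [sub_sub_cancel] at h
  exact (PadicInt.pow_p_dvd_int_iff 2 _).1 h11

lemma gz_eval {n : ℕ} (a : Fin (n + 1) → ℤ) (r : ℤ) :
    (GZ ℤ a).eval r = ∑ i : Fin (n + 1), a i * r ^ (n - (i : ℕ)) := by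
  rw [GZ, gpol, eval_finsetSum]
  refine Finset.sum_congr rfl fun i _ => ?_
  simp

lemma gz_eval_last {n : ℕ} (a : Fin (n + 1) → ℤ) (r : ℤ) :
    (GZ ℤ a).eval r = ∑ i : Fin n, a i.castSucc * r ^ (n - (i : ℕ)) + a (Fin.last n) := by
  rw [gz_eval, Fin.sum_univ_castSucc]
  simp

lemma per (n : ℕ) (M r : ℤ) (t t' : Fin (n + 1) → ℤ) (h : ∀ i, M ∣ t i - t' i) :
    M ∣ (GZ ℤ t).eval r - (GZ ℤ t').eval r := by
  rw [gz_eval, gz_eval, ← Finset.sum_sub_distrib]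
  refine Finset.dvd_sum fun i _ => ?_
  rw [← sub_mul]
  exact (h i).mul_right _

open Classical in
/-- The number of residue vectors. -/
lemma count {n l : ℕ} (hl : l.Prime) (r : ℤ) :
    (l - 1) * (l ^ 2) ^ n ≤ ((univ : Finset (Fin (n + 1) → Fin (l ^ 2))).filter fun t =>
      (l : ℤ) ∣ (GZ ℤ (fun i => ((t i : ℕ) : ℤ))).eval r ∧
        ¬ (l : ℤ) ^ 2 ∣ (GZ ℤ (fun i => ((t i : ℕ) : ℤ))).eval r).card := by
  have hl0 : 0 < l := hl.pos
  have hM0 : 0 < l ^ 2 := pow_pos hl0 2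
  have hMz : (0 : ℤ) < ((l ^ 2 : ℕ) : ℤ) := by exact_mod_cast hM0
  let s : (Fin n → Fin (l ^ 2)) → ℤ := fun v => ∑ i : Fin n, ((v i : ℕ) : ℤ) * r ^ (n - (i : ℕ))
  let x : (Fin n → Fin (l ^ 2)) → Fin (l - 1) → Fin (l ^ 2) := fun v j =>
    ⟨(((l : ℤ) * ((j : ℕ) + 1) - s v) % ((l ^ 2 : ℕ) : ℤ)).toNat, by
      have h1 := Int.emod_nonneg ((l : ℤ) * ((j : ℕ) + 1) - s v) hMz.ne'
      have h2 := Int.emod_lt_of_pos ((l : ℤ) * ((j : ℕ) + 1) - s v) hMz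
      omega⟩
  have hx : ∀ v j, (((x v j : Fin (l ^ 2)) : ℕ) : ℤ) =
      ((l : ℤ) * ((j : ℕ) + 1) - s v) % ((l ^ 2 : ℕ) : ℤ) := by
    intro v j
    exact Int.toNat_of_nonneg (Int.emod_nonneg _ hMz.ne')
  have hxd : ∀ v j, ((l ^ 2 : ℕ) : ℤ) ∣ (s v + (((x v j : Fin (l ^ 2)) : ℕ) : ℤ)) -
      (l : ℤ) * ((j : ℕ) + 1) := by
    intro v j
    rw [hx]
    have h1 := Int.emod_add_mul_ediv ((l : ℤ) * ((j : ℕ) + 1) - s v) ((l ^ 2 : ℕ) : ℤ)
    refine ⟨-(((l : ℤ) * ((j : ℕ) + 1) - s v) / ((l ^ 2 : ℕ) : ℤ)), ?_⟩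
    linarith
  have hev : ∀ v j, (GZ ℤ (fun i => (((Fin.snoc (α := fun _ => Fin (l ^ 2)) v (x v j)
      : Fin (n + 1) → Fin (l ^ 2)) i : ℕ) : ℤ))).eval r =
      s v + (((x v j : Fin (l ^ 2)) : ℕ) : ℤ) := by
    intro v j
    rw [gz_eval_last]
    simp only [Fin.snoc_castSucc, Fin.snoc_last]
    rfl
  have hcard : (l - 1) * (l ^ 2) ^ n =
      ((univ : Finset ((Fin n → Fin (l ^ 2)) × Fin (l - 1)))).card := by
    rw [Finset.card_univ, Fintype.card_prod, Fintype.card_fun, Fintype.card_fin, Fintype.card_fin,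
      Fintype.card_fin, mul_comm]
  rw [hcard]
  refine Finset.card_le_card_of_injOn
    (fun p => Fin.snoc (α := fun _ => Fin (l ^ 2)) p.1 (x p.1 p.2)) ?_ ?_
  · rintro ⟨v, j⟩ _
    rw [Finset.mem_coe, Finset.mem_filter]
    refine ⟨Finset.mem_univ _, ?_⟩
    simp only [hev]
    have hd := hxd v j
    have hll : ((l ^ 2 : ℕ) : ℤ) = (l : ℤ) ^ 2 := by push_cast; ring
    rw [hll] at hd
    constructor
    · have h1 : (l : ℤ) ∣ (s v + (((x v j : Fin (l ^ 2)) : ℕ) : ℤ)) - (l : ℤ) * ((j : ℕ) + 1) :=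
        (dvd_pow_self _ two_ne_zero).trans hd
      have h2 := dvd_add h1 (dvd_mul_right (l : ℤ) (((j : ℕ) : ℤ) + 1))
      rwa [sub_add_cancel] at h2
    · intro h1
      have h2 : (l : ℤ) ^ 2 ∣ (l : ℤ) * ((j : ℕ) + 1) := by
        have := dvd_sub h1 hd
        rwa [sub_sub_cancel] at this
      have h3 : (l : ℤ) ∣ ((j : ℕ) + 1 : ℤ) := by
        rw [pow_two] at h2
        exact Int.dvd_of_mul_dvd_mul_left (by exact_mod_cast hl0.ne') h2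
      have h4 := Int.le_of_dvd (by positivity) h3
      have h5 := j.isLt
      omega
  · rintro ⟨v, j⟩ _ ⟨v', j'⟩ _ h
    simp only at h
    have e1 : v = v' := by
      have := congrArg (Fin.init (α := fun _ => Fin (l ^ 2))) h
      rwa [Fin.init_snoc, Fin.init_snoc] at this
    subst e1
    have e2 : x v j = x v j' := by
      have := congrFun h (Fin.last n)
      rwa [Fin.snoc_last, Fin.snoc_last] at this
    have hd := hxd v j
    have hd' := hxd v j'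
    rw [e2] at hd
    have h1 := dvd_sub hd' hd
    have h2 : ((l ^ 2 : ℕ) : ℤ) ∣ (l : ℤ) * ((j : ℕ) - (j' : ℕ)) := by
      have e3 : (l : ℤ) * ((j : ℕ) - (j' : ℕ)) = (s v + (((x v j' : Fin (l ^ 2)) : ℕ) : ℤ)) -
          (l : ℤ) * ((j' : ℕ) + 1) - ((s v + (((x v j' : Fin (l ^ 2)) : ℕ) : ℤ)) -
          (l : ℤ) * ((j : ℕ) + 1)) := by ring
      rw [e3]
      exact h1
    have h3 : (l : ℤ) ∣ (((j : ℕ) : ℤ) - ((j' : ℕ) : ℤ)) := by
      have e4 : ((l ^ 2 : ℕ) : ℤ) = (l : ℤ) * (l : ℤ) := by push_cast; ring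
      rw [e4] at h2
      exact Int.dvd_of_mul_dvd_mul_left (by exact_mod_cast hl0.ne') h2
    have h5 := j.isLt
    have h5' := j'.isLt
    have h6 : ((j : ℕ) : ℤ) - ((j' : ℕ) : ℤ) = 0 := by
      apply Int.eq_zero_of_abs_lt_dvd h3
      rw [abs_lt]
      constructor <;> omega
    have h7 : j = j' := by
      apply Fin.ext
      omega
    rw [h7]

open Classical in
/-- The count for one factor. -/
theorem zero_factor {n m : ℕ} (b : Fin (m + 1) → ℤ) (h0 : b 0 ≠ 0)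
    (hsq : Squarefree (GZ ℚ b)) (g : ℚ[X]) (hg : g ∣ GZ ℚ b) (hg1 : 1 ≤ g.natDegree) (ε : ℝ)
    (hε : 0 < ε) :
    ∃ H₀ : ℕ, ∀ H : ℕ, H₀ ≤ H →
      (BF.cnt n (fun a => ∃ u : ℚ[X], g ∣ GZ ℚ a - u ^ 2) H : ℝ) ≤ ε * H ^ (n + 1) := by
  obtain ⟨S, hS⟩ : ∃ S : Set ℕ, S = {l | ∃ _ : Fact l.Prime, ∃ ρ : ℤ_[l],
    (g.map (algebraMap ℚ ℚ_[l])).eval (ρ : ℚ_[l]) = 0 ∧
      IsUnit ((derivative (GZ ℤ_[l] b)).eval ρ)} := ⟨_, rfl⟩
  have hD : Dense S := by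
    rw [hS]
    exact dense_root_factor b h0 hsq g hg hg1
  have hr : ∀ l : ℕ, ∃ r : ℤ, l ∈ S → ∀ a : Fin (n + 1) → ℤ, (∃ u : ℚ[X], g ∣ GZ ℚ a - u ^ 2) →
      (l : ℤ) ∣ (GZ ℤ a).eval r → (l : ℤ) ^ 2 ∣ (GZ ℤ a).eval r := by
    intro l
    by_cases hl : l ∈ S
    · rw [hS] at hl
      obtain ⟨hp, ρ, h1, -⟩ := hl
      obtain ⟨r, hr⟩ : ∃ r : ℤ, r = ((PadicInt.appr ρ 2 : ℕ) : ℤ) := ⟨_, rfl⟩
      have hspec := PadicInt.appr_spec 2 ρ
      rw [Ideal.mem_span_singleton] at hspec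
      have hrρ : (l : ℤ_[l]) ^ 2 ∣ ρ - (r : ℤ_[l]) := by
        rw [hr, Int.cast_natCast]
        exact hspec
      refine ⟨r, fun _ a ha hd => ?_⟩
      obtain ⟨u, hu⟩ := ha
      exact not_exact a l ρ r hrρ g u h1 hu hd
    · exact ⟨0, fun h => absurd h hl⟩
  choose r hr using hr
  set N : ℕ := n + 1 with hN
  obtain ⟨z, hz⟩ := hD (2 * Real.log (3 ^ N / ε))
  set F := (Icc 5 z).filter (fun l => l.Prime ∧ l ∈ S) with hF
  have hSmem : ∀ l ∈ F, 5 ≤ l ∧ l.Prime := by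
    intro l hl
    rw [hF, mem_filter, mem_Icc] at hl
    exact ⟨hl.1.1, hl.2.1⟩
  have hSmem' : ∀ l ∈ F, l ∈ S := by
    intro l hl
    rw [hF, mem_filter] at hl
    exact hl.2.2
  obtain ⟨M, hM⟩ : ∃ M : ℕ, M = ∏ l ∈ F, l ^ 2 := ⟨_, rfl⟩
  have hMR : ∏ l ∈ F, ((l ^ 2 : ℕ) : ℝ) = (M : ℝ) := by
    rw [hM]
    push_cast
    rfl
  refine ⟨M + 1, fun H hH => ?_⟩
  have hpow : ∀ l : ℕ, 5 ≤ l → 1 / (2 * (l : ℝ)) ≤ 1 := by
    intro l h5
    have h6 : (5 : ℝ) ≤ l := by exact_mod_cast h5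
    rw [div_le_one (by positivity)]
    nlinarith
  have hbox := cube_box (ι := Fin (n + 1)) F (fun l => l ^ 2)
    (fun l hl => pow_pos (hSmem l hl).2.pos 2)
    (fun l hl l' hl' hne => Nat.Coprime.pow 2 2
      ((Nat.coprime_primes (hSmem l hl).2 (hSmem l' hl').2).2 hne))
    (fun l a => (l : ℤ) ∣ (GZ ℤ a).eval (r l) ∧ ¬ (l : ℤ) ^ 2 ∣ (GZ ℤ a).eval (r l))
    (fun l _ t t' h => by
      have h1 := per n ((l ^ 2 : ℕ) : ℤ) (r l) t t' h
      have e4 : ((l ^ 2 : ℕ) : ℤ) = (l : ℤ) ^ 2 := by push_cast; ring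
      rw [e4] at h1
      have h2 : (l : ℤ) ∣ (GZ ℤ t).eval (r l) - (GZ ℤ t').eval (r l) :=
        (dvd_pow_self _ two_ne_zero).trans h1
      rw [← dvd_iff_dvd_of_dvd_sub h1, ← dvd_iff_dvd_of_dvd_sub h2])
    (fun l => 1 / (2 * (l : ℝ)))
    (fun l hl => hpow l (hSmem l hl).1)
    (fun l hl => by
      have hlp := (hSmem l hl).2
      have h5 := (hSmem l hl).1
      have h1 := count (n := n) hlp (r l)
      have hl0 : (l : ℝ) ≠ 0 := by exact_mod_cast hlp.ne_zero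
      have h2 : (1 / (2 * (l : ℝ))) * (((l ^ 2 : ℕ) : ℝ)) ^ Fintype.card (Fin (n + 1)) ≤
          (((l - 1) * (l ^ 2) ^ n : ℕ) : ℝ) := by
        rw [Fintype.card_fin]
        push_cast
        rw [Nat.cast_sub (by omega : 1 ≤ l), pow_succ]
        have h6 : (5 : ℝ) ≤ l := by exact_mod_cast h5
        have h7 : 1 / (2 * (l : ℝ)) * (((l : ℝ) ^ 2) ^ n * (l : ℝ) ^ 2) =
            ((l : ℝ) / 2) * ((l : ℝ) ^ 2) ^ n := by
          field_simp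
        rw [h7]
        refine mul_le_mul_of_nonneg_right ?_ (by positivity)
        push_cast
        linarith
      refine h2.trans (Nat.cast_le.2 (h1.trans (Finset.card_le_card ?_)))
      intro t ht
      exact (@Finset.mem_filter _ _ (_) _ _).2 ((@Finset.mem_filter _ _ (_) _ _).1 ht))
    (fun _ => -(H : ℤ)) (fun _ => 2 * H + 1)
  unfold BF.cnt
  refine le_trans (Nat.cast_le.2 (Finset.card_le_card ?_)) (hbox.trans ?_)
  · intro t ht
    have ht1 := (@Finset.mem_filter _ _ (_) _ _).1 ht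
    refine (@Finset.mem_filter _ _ (_) _ _).2 ⟨Fintype.mem_piFinset.2 fun i => ?_, fun l hl => ?_⟩
    · have := Fintype.mem_piFinset.1 ht1.1 i
      rw [mem_Icc] at this
      rw [mem_Ico]
      push_cast
      omega
    · rintro ⟨h1, h2⟩
      exact h2 (hr l (hSmem' l hl) t ht1.2 h1)
  have hH1 : (M : ℝ) + 1 ≤ H := by exact_mod_cast hH
  have hM0 : (0 : ℝ) ≤ M := Nat.cast_nonneg _
  have h1 : (∏ _i : Fin (n + 1), (((2 * H + 1 : ℕ) : ℝ) + ∏ l ∈ F, ((l ^ 2 : ℕ) : ℝ))) ≤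
      (3 * (H : ℝ)) ^ N := by
    rw [Finset.prod_const, Finset.card_univ, Fintype.card_fin, hMR]
    refine pow_le_pow_left₀ (by positivity) ?_ _
    push_cast
    linarith
  have h2 : ∏ l ∈ F, (1 - 1 / (2 * (l : ℝ))) ≤ ε / 3 ^ N := by
    calc ∏ l ∈ F, (1 - 1 / (2 * (l : ℝ))) ≤ ∏ l ∈ F, Real.exp (-(1 / (2 * (l : ℝ)))) := by
          refine Finset.prod_le_prod (fun l hl => ?_) (fun l _ => ?_)
          · have := hpow l (hSmem l hl).1
            linarith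
          · have := Real.add_one_le_exp (-(1 / (2 * (l : ℝ))))
            linarith
      _ = Real.exp (-((∑ l ∈ F, (1 : ℝ) / l) / 2)) := by
          rw [← Real.exp_sum]
          congr 1
          rw [Finset.sum_neg_distrib, Finset.sum_div]
          congr 1
          refine Finset.sum_congr rfl fun l _ => ?_
          rw [div_div, mul_comm]
      _ ≤ Real.exp (-(Real.log (3 ^ N / ε))) := by
          apply Real.exp_le_exp.2
          rw [neg_le_neg_iff, le_div_iff₀ two_pos, mul_comm]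
          exact hz
      _ = ε / 3 ^ N := by
          rw [Real.exp_neg, Real.exp_log (by positivity), inv_div]
  have h3 : 0 ≤ ∏ l ∈ F, (1 - 1 / (2 * (l : ℝ))) :=
    Finset.prod_nonneg fun l hl => by
      have := hpow l (hSmem l hl).1
      linarith
  calc (∏ _i : Fin (n + 1), (((2 * H + 1 : ℕ) : ℝ) + ∏ l ∈ F, ((l ^ 2 : ℕ) : ℝ))) *
        ∏ l ∈ F, (1 - 1 / (2 * (l : ℝ)))
      ≤ (3 * (H : ℝ)) ^ N * (ε / 3 ^ N) := mul_le_mul h1 h2 h3 (by positivity)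
    _ = ε * H ^ N := by
        rw [mul_pow]
        field_simp

end ZeroAux

open ZeroAux

/-- For most `f` the value at a root of `q` in a field of odd degree is not a square. -/
theorem zero_small {n m : ℕ} (hn : 1 ≤ n) (b : Fin (m + 1) → ℤ) (h0 : b 0 ≠ 0)
    (hsq : Squarefree (GZ ℚ b)) (ε : ℝ) (hε : 0 < ε) :
    ∃ H₀ : ℕ, ∀ H : ℕ, H₀ ≤ H →
      (BF.cnt n (fun a => ∃ (k : Type) (_ : Field k) (_ : Algebra ℚ k),
        Odd (Module.finrank ℚ k) ∧ ∃ t y : k, (GZ k b).eval t = 0 ∧ y ^ 2 = (GZ k a).eval t) H : ℝ) ≤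
        ε * H ^ (n + 1) := by
  classical
  have hq0 : GZ ℚ b ≠ 0 := SplitAux.gz_ne_zero b (by exact_mod_cast h0)
  set Gs := (UniqueFactorizationMonoid.normalizedFactors (GZ ℚ b)).toFinset with hGs
  have hG : ∀ G ∈ Gs, G ∣ GZ ℚ b ∧ 1 ≤ G.natDegree := by
    intro G hG
    rw [hGs, Multiset.mem_toFinset] at hG
    have hirr := UniqueFactorizationMonoid.irreducible_of_normalized_factor G hG
    exact ⟨UniqueFactorizationMonoid.dvd_of_mem_normalizedFactors hG, hirr.natDegree_pos⟩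
  set δ : ℝ := ε / (Gs.card + 1) with hδ
  have hδ0 : 0 < δ := by positivity
  have hex : ∀ G : ℚ[X], ∃ H₀ : ℕ, G ∈ Gs → ∀ H : ℕ, H₀ ≤ H →
      (BF.cnt n (fun a => ∃ u : ℚ[X], G ∣ GZ ℚ a - u ^ 2) H : ℝ) ≤ δ * H ^ (n + 1) := by
    intro G
    by_cases h : G ∈ Gs
    · obtain ⟨H₀, hH₀⟩ := zero_factor (n := n) b h0 hsq G (hG G h).1 (hG G h).2 δ hδ0
      exact ⟨H₀, fun _ => hH₀⟩
    · exact ⟨0, fun h' => absurd h' h⟩
  choose H₀ hH₀ using hex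
  refine ⟨Gs.sup H₀, fun H hH => ?_⟩
  have h1 : BF.cnt n (fun a => ∃ (k : Type) (_ : Field k) (_ : Algebra ℚ k),
        Odd (Module.finrank ℚ k) ∧ ∃ t y : k, (GZ k b).eval t = 0 ∧ y ^ 2 = (GZ k a).eval t) H ≤
      ∑ G ∈ Gs, BF.cnt n (fun a => ∃ u : ℚ[X], G ∣ GZ ℚ a - u ^ 2) H := by
    unfold BF.cnt
    refine le_trans (Finset.card_le_card ?_) Finset.card_biUnion_le
    intro a ha
    obtain ⟨ha1, k, hk1, hk2, ho, t, y, ht, hy⟩ := (@Finset.mem_filter _ _ (_) _ _).1 ha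
    obtain ⟨g, hirr, hgb, u, hu⟩ := exists_factor a b k ho t y ht hy
    obtain ⟨G, hGm, hass⟩ :=
      UniqueFactorizationMonoid.exists_mem_normalizedFactors_of_dvd hq0 hirr hgb
    refine Finset.mem_biUnion.2 ⟨G, ?_, ?_⟩
    · rw [hGs, Multiset.mem_toFinset]
      exact hGm
    · exact (@Finset.mem_filter _ _ (_) _ _).2 ⟨ha1, u, (hass.symm.dvd).trans hu⟩
  have h2 : (∑ G ∈ Gs, BF.cnt n (fun a => ∃ u : ℚ[X], G ∣ GZ ℚ a - u ^ 2) H : ℝ) ≤
      ∑ _G ∈ Gs, δ * (H : ℝ) ^ (n + 1) := by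
    refine Finset.sum_le_sum fun G hG => hH₀ G hG H ?_
    exact (Finset.le_sup (f := H₀) hG).trans hH
  refine (show (_ : ℝ) ≤ _ by exact_mod_cast h1).trans (h2.trans ?_)
  rw [Finset.sum_const, nsmul_eq_mul, ← mul_assoc]
  refine mul_le_mul_of_nonneg_right ?_ (by positivity)
  rw [hδ, mul_div_assoc', div_le_iff₀ (by positivity)]
  nlinarith [(Nat.cast_nonneg Gs.card : (0 : ℝ) ≤ Gs.card)]

end Stoll308.FQ
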