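import Pool.Agent.Work.MP_308fa9_nt.FQ.Els
import Pool.Agent.Work.MP_308fa9_nt.FQ.SmoothQ
import Pool.Agent.Work.MP_308fa9_nt.FQ.Upper
import Pool.Agent.Work.MP_308fa9_nt.FQ.Zero
import Pool.Agent.Work.MP_308fa9_nt.FQ.Pt
import Pool.Agent.Work.MP_308fa9_nt.DQ.Norm

set_option autoImplicit false

/-!
The theorem on the double covers of a fixed curve `w² = q(t)`.
-/

namespace Stoll308.FQ

open Polynomial Finset Matrix BG BF SC DQ

theorem oddField_small (n m : ℕ) (hn : 4 ≤ n) (he : Even n) (hm : 2 ≤ m) (hem : Even m)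
    (b : Fin (m + 1) → ℤ) (h0 : b 0 ≠ 0) (hsq : Squarefree (GZ ℚ b)) (ε : ℝ) (hε : 0 < ε) :
    ∃ H₀ : ℕ, ∀ H : ℕ, H₀ ≤ H →
      (BF.cnt n (fun a => DQ.OddField a b) H : ℝ) ≤ ε * H ^ (n + 1) := by
  obtain ⟨H₁, h1⟩ := oddSel_small n m hn he hm hem b h0 hsq (ε / 3) (by positivity)
  obtain ⟨H₂, h2⟩ := BF.reducible_small n (by omega) (ε / 3) (by positivity)
  obtain ⟨H₃, h3⟩ := zero_small (n := n) (by omega) b h0 hsq (ε / 3) (by positivity)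
  refine ⟨H₁ + H₂ + H₃, fun H hH => ?_⟩
  have g1 := h1 H (by omega)
  have g2 := h2 H (by omega)
  have g3 := h3 H (by omega)
  set P2 : (Fin (n + 1) → ℤ) → Prop := fun a => a 0 = 0 ∨ IsSquare (a 0) ∨
    ¬ Irreducible (BF.GZ ℚ a) with hP2
  set P3 : (Fin (n + 1) → ℤ) → Prop := fun a => ∃ (k : Type) (_ : Field k) (_ : Algebra ℚ k),
        Odd (Module.finrank ℚ k) ∧ ∃ t y : k, (GZ k b).eval t = 0 ∧ y ^ 2 = (GZ k a).eval t
    with hP3
  have hle : BF.cnt n (fun a => DQ.OddField a b) H ≤ BF.cnt n (fun a => DQ.OddSel a b) H +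
      (BF.cnt n P2 H + BF.cnt n P3 H) := by
    refine le_trans (BF.cnt_mono (Q := fun a => DQ.OddSel a b ∨ P2 a ∨ P3 a) H ?_) ?_
    · intro a _ h
      by_cases q2 : P2 a
      · exact Or.inr (Or.inl q2)
      by_cases q3 : P3 a
      · exact Or.inr (Or.inr q3)
      left
      rw [hP2] at q2
      simp only [not_or, not_not] at q2
      obtain ⟨h0', hsq', hF⟩ := q2
      obtain ⟨k, hk1, hk2, ho, h | h⟩ := h
      · refine oddSel_of_point (by omega) he a b h0' hsq' hF k ho ?_ h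
        rintro ⟨t, y, h4, h5⟩
        exact q3 ⟨k, hk1, hk2, ho, t, y, h4, h5⟩
      · exact oddSel_of_selOver a b k ho h
    · refine (BF.cnt_or _ _ H).trans ?_
      gcongr
      exact BF.cnt_or _ _ H
  calc ((BF.cnt n (fun a => DQ.OddField a b) H : ℕ) : ℝ)
      ≤ ((BF.cnt n (fun a => DQ.OddSel a b) H + (BF.cnt n P2 H + BF.cnt n P3 H) : ℕ) : ℝ) := by
        exact_mod_cast hle
    _ ≤ ε * H ^ (n + 1) := by
        push_cast
        linarith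

theorem main (n m : ℕ) (hn : 4 ≤ n) (he : Even n) (hm : 2 ≤ m) (hem : Even m)
    (b : Fin (m + 1) → ℤ) (h0 : b 0 ≠ 0) (hsq : Squarefree (GZ ℚ b)) (hloc : BaseELS b) :
    (∃ c₀ : ℝ, 0 < c₀ ∧ ∃ H₀ : ℕ, ∀ H : ℕ, H₀ ≤ H →
      c₀ * H ^ (n + 1) ≤ (BF.cnt n (fun a => DQ.ELS a b ∧ DQ.Smooth a b) H : ℝ)) ∧
    ∀ ε : ℝ, 0 < ε → ∃ H₀ : ℕ, ∀ H : ℕ, H₀ ≤ H →
      (BF.cnt n (fun a => DQ.OddField a b) H : ℝ) ≤ ε * H ^ (n + 1) := by
  refine ⟨?_, fun ε hε => oddField_small n m hn he hm hem b h0 hsq ε hε⟩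
  obtain ⟨c, hc, H₁, h1⟩ := els_many n m hn he hm hem b h0 hsq hloc
  obtain ⟨H₂, h2⟩ := smooth_small n m hn b h0 hsq (c / 2) (by positivity)
  refine ⟨c / 2, by positivity, H₁ + H₂, ?_⟩
  intro H hH
  have g1 := h1 H (by omega)
  have g2 := h2 H (by omega)
  have h3 : BF.cnt n (fun a => DQ.ELS a b) H ≤ BF.cnt n (fun a => DQ.ELS a b ∧ DQ.Smooth a b) H +
      BF.cnt n (fun a => ¬ DQ.Smooth a b) H := by
    refine le_trans (BF.cnt_mono (Q := fun a => (DQ.ELS a b ∧ DQ.Smooth a b) ∨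
      ¬ DQ.Smooth a b) H ?_) (BF.cnt_or _ _ H)
    intro a _ hb
    by_cases h : DQ.Smooth a b
    · exact Or.inl ⟨hb, h⟩
    · exact Or.inr h
  have h4 : (BF.cnt n (fun a => DQ.ELS a b) H : ℝ) ≤
      BF.cnt n (fun a => DQ.ELS a b ∧ DQ.Smooth a b) H +
        BF.cnt n (fun a => ¬ DQ.Smooth a b) H := by
    exact_mod_cast h3
  linarith

end Stoll308.FQ
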